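import Pool.Agent.helper78.HP.Card

/-!
The family of graphs.
-/

set_option autoImplicit false
set_option linter.unusedSectionVars false

namespace Pool.Agent.helper78.HP

section transport

variable {A A' B B' : Type} [DecidableEq (A × B)] [DecidableEq (A' × B')]
  {G : SimpleGraph A} {G' : SimpleGraph A'} {H : SimpleGraph B} {H' : SimpleGraph B'}

lemma image_card (e : A ≃ A') (e' : B ≃ B') (p : Finset (A × B)) :
    (p.image (fun x => (e x.1, e' x.2))).card = p.card := by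
  apply Finset.card_image_of_injective
  rintro ⟨x, y⟩ ⟨x', y'⟩ hh
  simp only [Prod.mk.injEq, EmbeddingLike.apply_eq_iff_eq] at hh
  rw [hh.1, hh.2]

lemma FOGame.pullback (e : A ≃ A') (e' : B ≃ B') (hG : ∀ x y, G.Adj x y ↔ G'.Adj (e x) (e y))
    (hH : ∀ x y, H.Adj x y ↔ H'.Adj (e' x) (e' y)) {k : ℕ} {F : Set (Finset (A' × B'))}
    (hF : FOGame G' H' k F) :
    FOGame G H k {p | p.image (fun x => (e x.1, e' x.2)) ∈ F} where
  empty := by simpa using hF.empty
  card p hp := by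
    rw [← image_card e e' p]
    exact hF.card _ hp
  iso p hp x hx y hy := by
    have := hF.iso _ hp _ (Finset.mem_image_of_mem _ hx) _ (Finset.mem_image_of_mem _ hy)
    simp only [EmbeddingLike.apply_eq_iff_eq] at this
    rw [hG, hH]
    exact this
  sub p hp q hq := hF.sub _ hp _ (Finset.image_subset_image hq)
  forth p hp hc a := by
    obtain ⟨b, hb⟩ := hF.forth _ hp (by rw [image_card]; exact hc) (e a)
    refine ⟨e'.symm b, ?_⟩
    simp only [Set.mem_ofPred_eq, Finset.image_insert, Equiv.apply_symm_apply]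
    exact hb
  back p hp hc b := by
    obtain ⟨a, ha⟩ := hF.back _ hp (by rw [image_card]; exact hc) (e' b)
    refine ⟨e.symm a, ?_⟩
    simp only [Set.mem_ofPred_eq, Finset.image_insert, Equiv.apply_symm_apply]
    exact ha

lemma CGame.pullback (e : A ≃ A') (e' : B ≃ B') (hG : ∀ x y, G.Adj x y ↔ G'.Adj (e x) (e y))
    (hH : ∀ x y, H.Adj x y ↔ H'.Adj (e' x) (e' y)) {k : ℕ} {F : Set (Finset (A' × B'))}
    (hF : CGame G' H' k F) :
    CGame G H k {p | p.image (fun x => (e x.1, e' x.2)) ∈ F} where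
  empty := by simpa using hF.empty
  card p hp := by
    rw [← image_card e e' p]
    exact hF.card _ hp
  iso p hp x hx y hy := by
    have := hF.iso _ hp _ (Finset.mem_image_of_mem _ hx) _ (Finset.mem_image_of_mem _ hy)
    simp only [EmbeddingLike.apply_eq_iff_eq] at this
    rw [hG, hH]
    exact this
  sub p hp q hq := hF.sub _ hp _ (Finset.image_subset_image hq)
  ext p hp hc := by
    obtain ⟨f, hf⟩ := hF.ext _ hp (by rw [image_card]; exact hc)
    refine ⟨(e.trans f).trans e'.symm, fun a => ?_⟩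
    simp only [Set.mem_ofPred_eq, Finset.image_insert, Equiv.trans_apply, Equiv.apply_symm_apply]
    exact hf (e a)

end transport

section smaller

variable {X X' V E : Type} {m b : ℕ} [DecidableEq E]

def Sy.mp (π : X → X') : Sy X m V → Sy X' m V
  | .a x τ => .a (π x) τ
  | .b x y i v c => .b (π x) (π y) i v c

def Vx.mp (π : X → X') : Vx X m V E → Vx X' m V E
  | .X x => .X (π x)
  | .B σ => .B (σ.mp π)
  | .P σ v c => .P (σ.mp π) v c
  | .G σ e α => .G (σ.mp π) e α
  | .S x s v α => .S (π x) s v α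

lemma Vx.mp_inj (π : X → X') (hπ : Function.Injective π) :
    Function.Injective (Vx.mp (m := m) (V := V) (E := E) π) := by
  intro w w'
  rcases w with x | (⟨x, τ⟩ | ⟨x, y, i, u, d⟩) | ⟨⟨x, τ⟩ | ⟨x, y, i, u, d⟩, v, g⟩ |
    ⟨⟨x, τ⟩ | ⟨x, y, i, u, d⟩, e, α⟩ | ⟨x, s, v, α⟩ <;>
  rcases w' with x' | (⟨x', τ'⟩ | ⟨x', y', i', u', d'⟩) |
    ⟨⟨x', τ'⟩ | ⟨x', y', i', u', d'⟩, v', g'⟩ |
    ⟨⟨x', τ'⟩ | ⟨x', y', i', u', d'⟩, e', α'⟩ | ⟨x', s', v', α'⟩ <;>
  simp [Vx.mp, Sy.mp, hπ.eq_iff]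

lemma ok_mp (Y : LinSys V E) (h : Hid X m) (h' : Hid X' m) (π : X → X')
    (hπ : Function.Injective π) (hh : ∀ x τ, h'.hd (π x) τ = h.hd x τ)
    (w : Vx X m V E) : ok Y h' (w.mp π) ↔ ok Y h w := by
  rcases w with x | (⟨x, τ⟩ | ⟨x, y, i, u, d⟩) | ⟨⟨x, τ⟩ | ⟨x, y, i, u, d⟩, v, g⟩ |
    ⟨⟨x, τ⟩ | ⟨x, y, i, u, d⟩, e, α⟩ | ⟨x, s, v, α⟩ <;>
  simp [Vx.mp, Sy.mp, ok, Sy.ok, Hid.hid, hh, hπ.ne_iff]

lemma card_lt [Fintype X] [Fintype X'] [Fintype V] [Fintype E] (Y : LinSys V E) (h : Hid X m)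
    (h' : Hid X' m) (π : X → X')
    (hπ : Function.Injective π) (hh : ∀ x τ, h'.hd (π x) τ = h.hd x τ) (x0 : X')
    (hx0 : ∀ x, π x ≠ x0) : Nat.card (VT Y h b) < Nat.card (VT Y h' b) := by
  classical
  let f : VT Y h b → VT Y h' b :=
    Sum.map id (fun w => ⟨w.1.mp π, (ok_mp Y h h' π hπ hh w.1).mpr w.2⟩)
  have hf : Function.Injective f := by
    apply Function.Injective.sumMap Function.injective_id
    rintro ⟨w, hw⟩ ⟨w', hw'⟩ hww
    simp only [Subtype.mk.injEq] at hww ⊢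
    exact Vx.mp_inj π hπ hww
  have hnot : ¬ Function.Surjective f := by
    intro hs
    obtain ⟨u, hu⟩ := hs (vX Y h' b x0)
    rcases u with r | ⟨w, hw⟩
    · simp [f, vX] at hu
    · have h1 : w.mp π = .X x0 := by
        have := Sum.inr.inj hu
        exact congrArg Subtype.val this
      cases w with
      | X x => exact hx0 x (by simpa [Vx.mp] using h1)
      | B σ => simp [Vx.mp] at h1
      | P σ v c => simp [Vx.mp] at h1
      | G σ e α => simp [Vx.mp] at h1
      | S x s v α => simp [Vx.mp] at h1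
  have hle := Nat.card_le_card_of_injective f hf
  refine lt_of_le_of_ne hle fun heq => hnot ?_
  exact (hf.bijective_of_nat_card_le heq.ge).2

end smaller

/-- bounds on all cardinalities -/
lemma card_bounds {X V E : Type} {m z : ℕ} [Fintype X] [Fintype V] [Fintype E] (hz : 2 ≤ z)
    (hX : Fintype.card X ≤ z) (hm : m + 1 ≤ z) (hV : Fintype.card V ≤ z ^ 3)
    (hE : Fintype.card E ≤ z ^ 3) :
    Fintype.card (Col m V E) ≤ z ^ 11 ∧ Fintype.card (Vx X m V E) ≤ z ^ 17 := by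
  have hz2 : 2 * z ≤ z ^ 2 := by nlinarith
  have e1 : 2 * m + 1 ≤ z ^ 2 := by omega
  have e2 : m + 2 ≤ z ^ 2 := by omega
  have hmz : m ≤ z := by omega
  have p2 : ∀ n, z ^ n ≤ z ^ (n + 1) := fun n => Nat.pow_le_pow_right (by omega) (by omega)
  have pd : ∀ n, 2 * z ^ n ≤ z ^ (n + 1) := fun n => by
    rw [pow_succ, mul_comm]
    exact Nat.mul_le_mul_left _ hz
  have h8 : 8 ≤ z ^ 3 := by
    calc 8 = 2 ^ 3 := by norm_num
      _ ≤ z ^ 3 := Nat.pow_le_pow_left hz 3
  have hK : Fintype.card (Kp m V) ≤ z ^ 5 := by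
    have h1 := card_Kp (m := m) (V := V)
    have h2 : m * Fintype.card V ≤ z * z ^ 3 := Nat.mul_le_mul hmz hV
    have h3 : z * z ^ 3 = z ^ 4 := by ring
    have h4 : 2 * z ^ 4 ≤ z ^ 5 := pd 4
    have h5 : z ^ 2 ≤ z ^ 4 := Nat.pow_le_pow_right (by omega) (by omega)
    omega
  have hC : Fintype.card (Col m V E) ≤ z ^ 11 := by
    have h1 := card_Col (m := m) (V := V) (E := E)
    have h2 : Fintype.card (Kp m V) * Fintype.card V ≤ z ^ 5 * z ^ 3 := Nat.mul_le_mul hK hV
    have h3 : Fintype.card (Kp m V) * Fintype.card E ≤ z ^ 5 * z ^ 3 := Nat.mul_le_mul hK hE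
    have h4 : (m + 2) * Fintype.card V ≤ z ^ 2 * z ^ 3 := Nat.mul_le_mul e2 hV
    have h5 : z ^ 5 * z ^ 3 = z ^ 8 := by ring
    have h6 : z ^ 2 * z ^ 3 = z ^ 5 := by ring
    have h7 : z ^ 5 ≤ z ^ 8 := Nat.pow_le_pow_right (by omega) (by omega)
    have h9 : 1 ≤ z ^ 8 := Nat.one_le_pow _ _ (by omega)
    have h10 : 8 * z ^ 8 ≤ z ^ 11 := by
      calc 8 * z ^ 8 ≤ z ^ 3 * z ^ 8 := Nat.mul_le_mul_right _ h8
        _ = z ^ 11 := by ring
    omega
  have hS : Fintype.card (Sy X m V) ≤ z ^ 8 := by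
    have h1 := card_Sy (X := X) (m := m) (V := V)
    have h2 : Fintype.card X * (2 * m + 1) ≤ z * z ^ 2 := Nat.mul_le_mul hX e1
    have h3 : Fintype.card X * (Fintype.card X * (m * (Fintype.card V * 2))) ≤
        z * (z * (z * (z ^ 3 * z))) := by gcongr
    have h4 : z * z ^ 2 = z ^ 3 := by ring
    have h5 : z * (z * (z * (z ^ 3 * z))) = z ^ 7 := by ring
    have h6 : z ^ 3 ≤ z ^ 7 := Nat.pow_le_pow_right (by omega) (by omega)
    have h7 : 2 * z ^ 7 ≤ z ^ 8 := pd 7
    omega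
  refine ⟨hC, ?_⟩
  have h1 := card_Vx (X := X) (m := m) (V := V) (E := E)
  have h2 : Fintype.card (Sy X m V) * (Fintype.card V * 2) ≤ z ^ 8 * (z ^ 3 * z) := by gcongr
  have h3 : Fintype.card (Sy X m V) * (Fintype.card E * 8) ≤ z ^ 8 * (z ^ 3 * z ^ 3) := by gcongr
  have h4 : Fintype.card X * ((m + 2) * (Fintype.card V * 8)) ≤ z * (z ^ 2 * (z ^ 3 * z ^ 3)) := by
    gcongr
  have e3 : z ^ 8 * (z ^ 3 * z) = z ^ 12 := by ring
  have e4 : z ^ 8 * (z ^ 3 * z ^ 3) = z ^ 14 := by ring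
  have e5 : z * (z ^ 2 * (z ^ 3 * z ^ 3)) = z ^ 9 := by ring
  have q1 : z ^ 12 ≤ z ^ 14 := Nat.pow_le_pow_right (by omega) (by omega)
  have q2 : z ^ 9 ≤ z ^ 14 := Nat.pow_le_pow_right (by omega) (by omega)
  have q3 : z ^ 8 ≤ z ^ 14 := Nat.pow_le_pow_right (by omega) (by omega)
  have q4 : z ^ 1 ≤ z ^ 14 := Nat.pow_le_pow_right (by omega) (by omega)
  have h10 : 8 * z ^ 14 ≤ z ^ 17 := by
    calc 8 * z ^ 14 ≤ z ^ 3 * z ^ 14 := Nat.mul_le_mul_right _ h8
      _ = z ^ 17 := by ring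
  rw [pow_one] at q4
  omega

lemma card_VV {P : Type} [Fintype P] [DecidableEq P] {q z : ℕ} (hcard : Fintype.card P = q ^ 2 + q + 1)
    (hz : q + 1 ≤ z) (P0 : P) : Fintype.card (PD.VV P P P0 q) ≤ z ^ 3 ∧
      Fintype.card (PD.EE P q) ≤ z ^ 3 := by
  have h1 : q ^ 2 + q + 1 ≤ z ^ 2 := by nlinarith
  have h2 : Fintype.card {p : P // p ≠ P0} ≤ Fintype.card P := Fintype.card_subtype_le _
  rw [hcard] at h2
  have h3 : (q ^ 2 + q + 1) * (q + 1) ≤ z ^ 2 * z := Nat.mul_le_mul h1 hz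
  have h4 : z ^ 2 * z = z ^ 3 := by ring
  constructor
  · simp only [PD.VV, Fintype.card_sum, Fintype.card_prod, Fintype.card_fin, hcard]
    have h5 : (q ^ 2 + q + 1) * (q + 1) = (q ^ 2 + q + 1) * q + (q ^ 2 + q + 1) := by ring
    omega
  · simp only [PD.EE, Fintype.card_prod, Fintype.card_fin, hcard]
    omega

/-- the family of graphs -/
theorem family (q : ℕ) (hq : q.Prime) (hodd : Odd q) :
    ∃ (n : ℕ) (G : SimpleGraph (Fin n)) (k : ℕ), 2 ≤ n ∧ (∀ σ : G ≃g G, ∀ v, σ v = v) ∧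
      (∀ (m : ℕ) (H : SimpleGraph (Fin m)) (F : Set (Finset (Fin n × Fin m))),
        CGame G H k F → Nonempty (G ≃g H)) ∧
      (k : ℝ) * Real.log n ≤ 1368 * ((Nat.log 2 q + 1 : ℕ) : ℝ) ^ 2 ∧
      ∀ k' : ℕ, 32 * k' ≤ q + 1 → ∃ (m : ℕ) (H : SimpleGraph (Fin m))
        (F : Set (Finset (Fin n × Fin m))), FOGame G H k' F ∧ ¬ Nonempty (G ≃g H) := by
  classical
  obtain ⟨P, iF, iD, hcard, ⟨A⟩⟩ := exists_plane q hq hodd
  have hq3 : 3 ≤ q := by
    have := hq.two_le
    rcases hodd with ⟨r, hr⟩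
    omega
  have hP : 0 < Fintype.card P := by rw [hcard]; omega
  obtain ⟨P0⟩ : Nonempty P := Fintype.card_pos_iff.mp hP
  set L : ℕ := Nat.log 2 q + 1 with hL
  set z : ℕ := 2 ^ L with hz
  have hqz : q + 1 ≤ z := Nat.lt_pow_succ_log_self (by norm_num) q
  have hL1 : 1 ≤ L := by omega
  obtain ⟨hVc, hEc⟩ := card_VV hcard hqz P0
  let Y := A.sys P0 P0 (by omega : 0 < q)
  have hY : Y.Nice := A.nice P0 P0 (by omega)
  obtain ⟨hCol, hVx⟩ := card_bounds (X := Fin q) (V := PD.VV P P P0 q) (E := PD.EE P q) (m := q) (z := z)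
    (by omega) (by simp; omega) hqz hVc hEc
  -- the code
  have hcode : Nonempty (Col q (PD.VV P P P0 q) (PD.EE P q) ↪ (Fin (11 * L) → Bool)) := by
    apply Function.Embedding.nonempty_of_card_le
    simp only [Fintype.card_pi, Fintype.card_bool, Finset.prod_const, Finset.card_univ,
      Fintype.card_fin]
    refine le_trans hCol ?_
    rw [hz, ← pow_mul, mul_comm]
  obtain ⟨code⟩ := hcode
  let t := tstOf (11 * L) (by omega) code code.injective
  let h := hidN q q (le_refl q)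
  let h' := hidN (q - 1) q (by omega)
  let b := 2 * (11 * L) + 3
  let G0 := gr Y h t
  let H0 := gr Y h' t
  let n := Fintype.card (VT Y h b)
  let e : VT Y h b ≃ Fin n := Fintype.equivFin _
  let e' : VT Y h' b ≃ Fin (Fintype.card (VT Y h' b)) := Fintype.equivFin _
  let G : SimpleGraph (Fin n) := G0.comap e.symm
  let H : SimpleGraph (Fin (Fintype.card (VT Y h' b))) := H0.comap e'.symm
  let φ : G ≃g G0 := ⟨e.symm, Iff.rfl⟩
  have hnb : n ≤ (b + 1) + z ^ 17 := by
    change Fintype.card (VT Y h b) ≤ _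
    rw [Fintype.card_sum]
    exact Nat.add_le_add (card_RR b) (le_trans (Fintype.card_subtype_le _) hVx)
  have hn2 : 2 ≤ n := by
    have h1 : Fintype.card (Fin b) ≤ n := by
      apply Fintype.card_le_of_injective (fun i : Fin b => (.inl (.rho i) : VT Y h b))
      intro i j hij
      simpa using hij
    simp only [Fintype.card_fin, b] at h1
    omega
  refine ⟨n, G, b + 1 + 50, hn2, ?_, ?_, ?_, ?_⟩
  · intro σ v
    have hinj : ∀ x y, (∀ i, h.hd x (.T i) = h.hd y (.T i)) → x = y := by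
      intro x y hxy
      have h1 := hxy x
      change (if x.val = x.val then (1 : F2) else 0) = (if y.val = x.val then 1 else 0) at h1
      by_contra hne
      have h2 : y.val ≠ x.val := fun h3 => hne (Fin.ext h3.symm)
      rw [if_pos rfl, if_neg h2] at h1
      exact absurd h1 (by decide)
    have h1 := asym t hY hinj ((φ.symm.trans σ).trans φ) (φ v)
    have h2 : φ (σ v) = φ v := by
      rw [← h1]
      simp only [RelIso.trans_apply]
      congr 2
      exact (φ.symm_apply_apply v).symm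
    exact φ.injective h2
  · intro m H1 F hF
    have hF2 := hF.pullback (G := G0) (H := H1) e (Equiv.refl _)
      (fun x y => by
        change G0.Adj x y ↔ G0.Adj (e.symm (e x)) (e.symm (e y))
        rw [Equiv.symm_apply_apply, Equiv.symm_apply_apply]) (fun x y => Iff.rfl)
    obtain ⟨ψ⟩ := identify hY (by simp) H1 _ hF2
    exact ⟨φ.trans ψ⟩
  · have hLz : L < z := Nat.lt_two_pow_self
    have hz2 : 2 ≤ z := by omega
    have h3 : (b + 1) + z ^ 17 ≤ z ^ 18 := by
      have h4 : b + 1 ≤ 26 * z := by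
        simp only [b]
        omega
      have h5 : 26 * z ≤ z ^ 17 := by
        calc 26 * z ≤ 2 ^ 5 * z := by omega
          _ ≤ z ^ 5 * z := Nat.mul_le_mul_right _ (Nat.pow_le_pow_left hz2 5)
          _ = z ^ 6 := by ring
          _ ≤ z ^ 17 := Nat.pow_le_pow_right (by omega) (by omega)
      have h6 : 2 * z ^ 17 ≤ z * z ^ 17 := Nat.mul_le_mul_right _ hz2
      have h7 : z * z ^ 17 = z ^ 18 := by ring
      omega
    have h4 : (n : ℝ) ≤ (2 : ℝ) ^ (18 * L) := by
      have h5 : n ≤ 2 ^ (18 * L) := by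
        refine le_trans hnb (le_trans h3 ?_)
        rw [hz, ← pow_mul, mul_comm]
      exact_mod_cast h5
    have hn0 : (0 : ℝ) < n := by
      have : 0 < n := by omega
      exact_mod_cast this
    have h5 : Real.log n ≤ 18 * L := by
      calc Real.log n ≤ Real.log ((2 : ℝ) ^ (18 * L)) := Real.log_le_log hn0 h4
        _ = (18 * L : ℕ) * Real.log 2 := by rw [Real.log_pow]
        _ ≤ (18 * L : ℕ) * 1 := by
          apply mul_le_mul_of_nonneg_left _ (by positivity)
          have := Real.log_two_lt_d9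
          linarith
        _ = 18 * L := by push_cast; ring
    have h6 : ((b + 1 + 50 : ℕ) : ℝ) ≤ 76 * L := by
      have : b + 1 + 50 ≤ 76 * L := by
        simp only [b]
        omega
      exact_mod_cast this
    have h7 : 0 ≤ Real.log n := Real.log_nonneg (by
      have : 1 ≤ n := by omega
      exact_mod_cast this)
    calc ((b + 1 + 50 : ℕ) : ℝ) * Real.log n ≤ (76 * L) * (18 * L) := by
          apply mul_le_mul h6 h5 h7
          positivity
      _ = 1368 * ((L : ℕ) : ℝ) ^ 2 := by ring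
  · intro k' hk'
    have hX1 : Nonempty (Fin q) := ⟨⟨0, by omega⟩⟩
    have hX2 : Nonempty (Fin (q - 1)) := ⟨⟨0, by omega⟩⟩
    have hgap := A.gap P0 P0 (by omega : 0 < q) ((q + 1) / 4) (by omega) (by omega)
    obtain ⟨F, hF⟩ := hide Y h h' hgap.ghost t k' (by omega) (by simp; omega) (by simp; omega)
    let _ : DecidableEq (VT Y h b × VT Y h' b) := instDecidableEqProd
    refine ⟨_, H, _, hF.pullback (G := G) (H := H) e.symm e'.symm (fun x y => Iff.rfl)
      (fun x y => Iff.rfl), ?_⟩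
    rintro ⟨ψ⟩
    have h1 : Nat.card (VT Y h' b) < Nat.card (VT Y h b) := by
      apply card_lt Y h' h (fun x : Fin (q - 1) => (⟨x.val, by have := x.2; omega⟩ : Fin q))
        (fun x y hxy => by
          simp only [Fin.mk.injEq] at hxy
          exact Fin.ext hxy)
        (fun x τ => by cases τ <;> rfl) ⟨q - 1, by omega⟩
      intro x hx
      have := x.2
      simp only [Fin.mk.injEq] at hx
      omega
    have h2 : Nat.card (Fin n) = Nat.card (Fin (Fintype.card (VT Y h' b))) :=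
      Nat.card_congr ψ.toEquiv
    rw [Nat.card_eq_fintype_card, Nat.card_eq_fintype_card, Fintype.card_fin,
      Fintype.card_fin] at h2
    rw [Nat.card_eq_fintype_card, Nat.card_eq_fintype_card] at h1
    have h3 : n = Fintype.card (VT Y h b) := rfl
    omega

open Filter Topology in
/-- suitable large primes -/
lemma exists_q (C : ℝ) : ∃ q : ℕ, q.Prime ∧ Odd q ∧
    C * ((Nat.log 2 q + 1 : ℕ) : ℝ) ^ 2 ≤ q := by
  have h1 := tendsto_pow_const_div_const_pow_of_one_lt 2 (by norm_num : (1 : ℝ) < 2)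
  have hpos : (0 : ℝ) < 1 / (2 * (|C| + 1)) := by positivity
  have h2 := (h1.eventually (gt_mem_nhds hpos))
  obtain ⟨N, hN⟩ := eventually_atTop.mp h2
  obtain ⟨q, hq1, hq2⟩ := Nat.exists_infinite_primes (2 ^ (N + 2))
  have hq4 : 4 ≤ q := by
    refine le_trans ?_ hq1
    calc 4 = 2 ^ 2 := by norm_num
      _ ≤ 2 ^ (N + 2) := Nat.pow_le_pow_right (by norm_num) (by omega)
  refine ⟨q, hq2, hq2.odd_of_ne_two (by omega), ?_⟩
  set L := Nat.log 2 q + 1 with hL
  have hLN : N ≤ L := by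
    have : N + 2 ≤ Nat.log 2 q := Nat.le_log_of_pow_le (by norm_num) hq1
    omega
  have h3 := hN L hLN
  have h4 : 2 ^ L ≤ 2 * q := by
    rw [hL, pow_succ, mul_comm]
    exact Nat.mul_le_mul_left 2 (Nat.pow_log_le_self 2 (by omega))
  have h5 : (2 : ℝ) ^ L ≤ 2 * q := by exact_mod_cast h4
  have hpow : (0 : ℝ) < 2 ^ L := by positivity
  rw [div_lt_div_iff₀ hpow (by positivity)] at h3
  have h6 : C * (L : ℝ) ^ 2 ≤ (|C| + 1) * (L : ℝ) ^ 2 := by
    apply mul_le_mul_of_nonneg_right _ (by positivity)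
    have := le_abs_self C
    linarith
  nlinarith

end Pool.Agent.helper78.HP
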