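import Pool.Agent.helper78.HP.Plane

/-!
The hidden permutation graphs are asymmetric.
-/

set_option autoImplicit false
set_option linter.unusedSectionVars false

namespace Pool.Agent.helper78.HP

section

variable {X V E : Type} {m b : ℕ} [DecidableEq E]

/-- symmetric adjacency on non-ruler vertices -/
def AA (Y : LinSys V E) (u v : Vx X m V E) : Prop := E1 Y u v ∨ E1 Y v u

def Sy.top : Sy X m V → X
  | .a x _ => x
  | .b _ y _ _ _ => y

variable (Y : LinSys V E)

lemma AA_symm {u v : Vx X m V E} : AA Y u v ↔ AA Y v u := or_comm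

lemma AA_BX (σ : Sy X m V) (x : X) : AA Y (.B σ) (.X x) ↔ x = σ.top := by
  cases σ <;> simp [AA, E1, Sy.top]

lemma AA_PB (σ σ' : Sy X m V) (v : V) (c : F2) (hk : σ'.kol = σ.kol) :
    AA Y (.P σ v c) (.B σ') ↔ σ' = σ := by
  rcases σ with ⟨x, τ⟩ | ⟨x, y, i, u, d⟩ <;> rcases σ' with ⟨x', τ'⟩ | ⟨x', y', i', u', d'⟩ <;>
    simp [AA, E1, Sy.kol] at *

lemma AA_PB' (σ : Sy X m V) (x y : X) (i : Fin m) (u : V) (d : F2) (v : V) (c : F2)
    (hk : ∃ τ, σ.kol = .a τ) :
    AA Y (.P σ v c) (.B (.b x y i u d)) ↔ σ = .a x (.T i) ∧ v = u ∧ c = d := by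
  rcases σ with ⟨x', τ'⟩ | ⟨x', y', i', u', d'⟩
  · simp [AA, E1]
  · simp [Sy.kol] at hk

lemma AA_GP (σ σ' : Sy X m V) (e : E) (α : Fin 3 → F2) (v : V) (c : F2) :
    AA Y (.G σ e α) (.P σ' v c) ↔ σ' = σ ∧ ∃ k, Y.inc e k = some v ∧ α k = c := by
  cases σ' <;> simp [AA, E1]

lemma AA_SP (x : X) (s : Sm m) (u : V) (α : Fin 3 → F2) (σ : Sy X m V) (v : V) (c : F2) :
    AA Y (.S x s u α) (.P σ v c) ↔
      v = u ∧ ∃ k τ, sl s k = some τ ∧ σ = .a x τ ∧ α k = c := by
  cases σ <;> simp [AA, E1]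

lemma AA_PP (x y : X) (i : Fin m) (v : V) (c : F2) (w : V) (z : F2)
    (x' y' : X) (i' : Fin m) (v' : V) (c' : F2) (w' : V) (z' : F2) :
    AA Y (.P (.b x y i v c) w z) (.P (.b x' y' i' v' c') w' z') ↔
      x' = y ∧ y' = x ∧ i' = i ∧ v' = w ∧ w' = v ∧ z + z' = c * c' := by
  simp only [AA, E1]
  constructor
  · rintro (h | ⟨rfl, rfl, rfl, rfl, rfl, h⟩)
    · exact h
    · exact ⟨rfl, rfl, rfl, rfl, rfl, by rw [add_comm, h, mul_comm]⟩
  · exact fun h => Or.inl h

lemma AA_PP_a (x : X) (τ : Lb m) (v : V) (c : F2) (σ : Sy X m V) (w : V) (z : F2) :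
    ¬ AA Y (.P (.a x τ) v c) (.P σ w z : Vx X m V E) := by
  cases σ <;> simp [AA, E1]

/-- `D κ = λ t0` forces `λ = 0` and `κ = 0` -/
lemma LinSys.Nice.key [Fintype E] {Y : LinSys V E} (hY : Y.Nice) (κ : V → F2) (c : F2)
    (h : ∀ e, Y.D κ e = c * Y.t0 e) : c = 0 ∧ ∀ v, κ v = 0 := by
  have h1 : c = 0 := by
    have := hY.par κ
    rw [Finset.sum_congr rfl fun e _ => h e, ← Finset.mul_sum] at this
    have h2 : ∑ e, Y.t0 e = 1 := by
      unfold LinSys.t0
      simp
    rw [h2, mul_one] at this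
    exact this
  refine ⟨h1, hY.inj κ fun e => ?_⟩
  rw [h e, h1, zero_mul]

end

section ruler

variable {X V E : Type} {m b : ℕ} [DecidableEq E]
variable {Y : LinSys V E} {h : Hid X m} (t : Tst b (Col m V E))

lemma adj_rho (i : Fin b) (hi : i.val ≤ 2) (u : VT Y h b) :
    (gr Y h t).Adj (.inl (.rho i)) u ↔ (u = .inl .om ∧ 1 ≤ i.val) ∨
      ∃ j : Fin b, u = .inl (.rho j) ∧ (i.val + 1 = j.val ∨ j.val + 1 = i.val) := by
  rcases u with (_ | j) | w
  · change 1 ≤ i.val ↔ _
    simp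
  · change (i.val + 1 = j.val ∨ j.val + 1 = i.val) ↔ _
    simp
  · change t.tst i w.1.col ↔ _
    simp only [reduceCtorEq, false_and, exists_false, or_self, iff_false]
    intro hh
    have := t.low i _ hh
    omega

lemma adj_om (u : VT Y h b) :
    (gr Y h t).Adj (.inl .om) u ↔ ∃ j : Fin b, u = .inl (.rho j) ∧ 1 ≤ j.val := by
  rcases u with (_ | j) | w
  · change False ↔ _
    simp
  · change 1 ≤ j.val ↔ _
    simp
  · change False ↔ _
    simp

/-- every vertex except the first ruler vertex has two neighbours -/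
lemma two_nbr (u : VT Y h b) (hu : ∀ i : Fin b, i.val = 0 → u ≠ .inl (.rho i)) :
    ∃ u1 u2, u1 ≠ u2 ∧ (gr Y h t).Adj u u1 ∧ (gr Y h t).Adj u u2 := by
  have hb := t.big
  rcases u with (_ | j) | w
  · refine ⟨.inl (.rho ⟨1, by omega⟩), .inl (.rho ⟨2, by omega⟩), by simp, ?_, ?_⟩
    · change 1 ≤ 1; omega
    · change 1 ≤ 2; omega
  · have hj : j.val ≠ 0 := fun h0 => hu j h0 rfl
    refine ⟨.inl .om, .inl (.rho ⟨j.val - 1, by have := j.2; omega⟩), by simp, ?_, ?_⟩
    · change 1 ≤ j.val; omega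
    · change j.val + 1 = j.val - 1 ∨ j.val - 1 + 1 = j.val
      omega
  · obtain ⟨i, j, hij, h1, h2⟩ := t.two w.1.col
    exact ⟨.inl (.rho i), .inl (.rho j), by simpa using hij, h1, h2⟩

lemma ruler_fixed (θ : gr Y h t ≃g gr Y h t) : ∀ r : RR b, θ (.inl r) = .inl r := by
  have hb := t.big
  have hadj : ∀ u v, (gr Y h t).Adj u v → (gr Y h t).Adj (θ u) (θ v) := fun u v h =>
    θ.map_adj_iff.mpr h
  have hinj := θ.injective
  let r0 : Fin b := ⟨0, by omega⟩
  let r1 : Fin b := ⟨1, by omega⟩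
  let r2 : Fin b := ⟨2, by omega⟩
  let r3 : Fin b := ⟨3, by omega⟩
  let r4 : Fin b := ⟨4, by omega⟩
  have h0 : θ (.inl (.rho r0)) = .inl (.rho r0) := by
    by_contra hcon
    obtain ⟨u1, u2, hne, ha1, ha2⟩ := two_nbr t (θ (.inl (.rho r0))) (by
      intro i hi hh
      apply hcon
      rw [hh]
      congr 2
      exact Fin.ext hi)
    have key : ∀ u, (gr Y h t).Adj (θ (.inl (.rho r0))) u → u = θ (.inl (.rho r1)) := by
      intro u hu
      obtain ⟨u', rfl⟩ := θ.surjective u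
      rw [θ.map_adj_iff, adj_rho t r0 (by simp [r0])] at hu
      rcases hu with ⟨-, hu⟩ | ⟨j, rfl, hj⟩
      · simp [r0] at hu
      · congr 3
        apply Fin.ext
        simp only [r0, r1] at *
        omega
    exact hne (by rw [key u1 ha1, key u2 ha2])
  have h1 : θ (.inl (.rho r1)) = .inl (.rho r1) := by
    have := hadj (.inl (.rho r0)) (.inl (.rho r1)) (by
      change 0 + 1 = 1 ∨ _
      left; rfl)
    rw [h0, adj_rho t r0 (by simp [r0])] at this
    rcases this with ⟨-, hu⟩ | ⟨j, hh, hj⟩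
    · simp [r0] at hu
    · rw [hh]
      congr 2
      apply Fin.ext
      simp only [r0, r1] at *
      omega
  have hN1 : ∀ u, (gr Y h t).Adj (.inl (.rho r1)) u → u ≠ .inl (.rho r0) →
      θ u = .inl .om ∨ θ u = .inl (.rho r2) := by
    intro u hu hne
    have h2 := hadj _ _ hu
    rw [h1, adj_rho t r1 (by simp [r1])] at h2
    rcases h2 with ⟨hh, -⟩ | ⟨j, hh, hj⟩
    · exact Or.inl hh
    · right
      rw [hh]
      congr 2
      apply Fin.ext
      have : j ≠ r0 := by
        rintro rfl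
        apply hne
        apply hinj
        rw [hh, h0]
      have : j.val ≠ 0 := fun h => this (Fin.ext h)
      simp only [r1, r2] at *
      omega
  have hom : θ (.inl .om) = .inl .om := by
    rcases hN1 (.inl .om) (by change 1 ≤ 1; exact le_refl _) (by simp) with hh | hh
    · exact hh
    · exfalso
      have h2 : θ (.inl (.rho r2)) = .inl .om := by
        rcases hN1 (.inl (.rho r2)) (by change 1 + 1 = 2 ∨ _; left; rfl) (by simp [r0, r2]) with h3 | h3
        · exact h3
        · have := hinj (h3.trans hh.symm)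
          simp at this
      have hN : ∀ j : Fin b, 3 ≤ j.val → θ (.inl (.rho j)) = .inl (.rho r3) := by
        intro j hj
        have h4 := hadj (.inl .om) (.inl (.rho j)) (by change 1 ≤ j.val; omega)
        rw [hh, adj_rho t r2 (by simp [r2])] at h4
        rcases h4 with ⟨h5, -⟩ | ⟨i, h5, hi⟩
        · have := hinj (h5.trans h2.symm)
          simp only [Sum.inl.injEq, RR.rho.injEq] at this
          rw [this] at hj
          simp [r2] at hj
        · rw [h5]
          congr 2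
          apply Fin.ext
          have : i ≠ r1 := by
            rintro rfl
            have := hinj (h5.trans h1.symm)
            simp only [Sum.inl.injEq, RR.rho.injEq] at this
            rw [this] at hj
            simp [r1] at hj
          have : i.val ≠ 1 := fun h => this (Fin.ext h)
          simp only [r2, r3] at *
          omega
      have := hinj ((hN r3 (by simp [r3])).trans (hN r4 (by simp [r4])).symm)
      simp [r3, r4] at this
  have hr : ∀ n (hn : n < b), θ (.inl (.rho ⟨n, hn⟩)) = .inl (.rho ⟨n, hn⟩) := by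
    intro n
    induction n using Nat.strong_induction_on with
    | _ n ih =>
      intro hn
      by_cases h00 : n = 0
      · subst h00; exact h0
      by_cases h11 : n = 1
      · subst h11; exact h1
      obtain ⟨k, rfl⟩ : ∃ k, n = k + 2 := ⟨n - 2, by omega⟩
      have e1 := ih (k + 1) (by omega) (by omega)
      have e0 := ih k (by omega) (by omega)
      have h5 := hadj (.inl .om) (.inl (.rho ⟨k + 2, hn⟩)) (by change 1 ≤ k + 2; omega)
      rw [hom, adj_om] at h5
      obtain ⟨j, hj, hj1⟩ := h5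
      have h6 := hadj (.inl (.rho ⟨k + 1, by omega⟩)) (.inl (.rho ⟨k + 2, hn⟩))
        (by change k + 1 + 1 = k + 2 ∨ _; left; rfl)
      rw [e1, hj] at h6
      change k + 1 + 1 = j.val ∨ j.val + 1 = k + 1 at h6
      rw [hj]
      congr 2
      apply Fin.ext
      simp only
      rcases h6 with h6 | h6
      · omega
      · exfalso
        have : j = ⟨k, by omega⟩ := Fin.ext (by simp only; omega)
        rw [this, ← e0] at hj
        have := hinj hj
        simp at this
  rintro (_ | ⟨i, hi⟩)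
  · exact hom
  · exact hr i hi

end ruler

section cols

variable {X V E : Type} {m : ℕ}

lemma col_X {w : Vx X m V E} (hw : w.col = .X) : ∃ x, w = .X x := by
  cases w <;> simp_all [Vx.col]

lemma col_B {w : Vx X m V E} {κ : Kp m V} (hw : w.col = .B κ) : ∃ σ, w = .B σ ∧ σ.kol = κ := by
  cases w <;> simp_all [Vx.col]

lemma col_P {w : Vx X m V E} {κ : Kp m V} {v : V} (hw : w.col = .P κ v) :
    ∃ σ c, w = .P σ v c ∧ σ.kol = κ := by
  cases w <;> simp_all [Vx.col]

lemma col_G {w : Vx X m V E} {κ : Kp m V} {e : E} (hw : w.col = .G κ e) :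
    ∃ σ α, w = .G σ e α ∧ σ.kol = κ := by
  cases w <;> simp_all [Vx.col]

lemma col_S {w : Vx X m V E} {s : Sm m} {v : V} (hw : w.col = .S s v) :
    ∃ x α, w = .S x s v α := by
  cases w <;> simp_all [Vx.col]

lemma kol_a {σ : Sy X m V} {τ : Lb m} (h : σ.kol = .a τ) : σ = .a σ.top τ := by
  cases σ <;> simp_all [Sy.kol, Sy.top]

lemma kol_b {σ : Sy X m V} {i : Fin m} {v : V} (h : σ.kol = .b i v) :
    ∃ x c, σ = .b x σ.top i v c := by
  cases σ <;> simp_all [Sy.kol, Sy.top]

lemma F2_cases (c : F2) : c = 0 ∨ c = 1 := by revert c; decide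

lemma F2_shift (g : F2 → F2) (hg : Function.Injective g) (c : F2) : g c = c + g 0 := by
  have h01 : g 0 ≠ g 1 := fun h => by
    have := hg h
    revert this
    decide
  have : ∀ a b c : F2, a ≠ b → (if c = 0 then a else b) = c + a := by decide
  have h2 := this (g 0) (g 1) c h01
  rw [← h2]
  rcases F2_cases c with rfl | rfl <;> simp

lemma sl_some (s : Sm m) : ∃ k τ, sl s k = some τ := by
  cases s with
  | ch i => exact ⟨0, _, rfl⟩
  | fst => exact ⟨0, _, rfl⟩
  | lst => exact ⟨0, _, rfl⟩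

lemma sl_inj (s : Sm m) (k k' : Fin 3) (τ : Lb m) (h : sl s k = some τ) (h' : sl s k' = some τ) :
    k = k' := by
  have hh := h.trans h'.symm
  cases s with
  | ch i =>
    fin_cases k <;> fin_cases k' <;> first | rfl | (exfalso; simp [sl, Fin.ext_iff] at hh)
  | fst =>
    fin_cases k <;> fin_cases k' <;>
      first | rfl | (exfalso; simp [sl] at h; done) | (exfalso; simp [sl] at h'; done)
  | lst =>
    fin_cases k <;> fin_cases k' <;>
      first | rfl | (exfalso; simp [sl] at h; done) | (exfalso; simp [sl] at h'; done)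

end cols

section asym

variable {X V E : Type} {m b : ℕ} [DecidableEq E] [Fintype E]
variable {Y : LinSys V E} {h : Hid X m} (t : Tst b (Col m V E))

theorem asym (hY : Y.Nice) (hinj : ∀ x y, (∀ i, h.hd x (.T i) = h.hd y (.T i)) → x = y)
    (θ : gr Y h t ≃g gr Y h t) : ∀ v, θ v = v := by
  have hR := ruler_fixed t θ
  have hnr : ∀ w : {w : Vx X m V E // ok Y h w}, ∃ w', θ (.inr w) = .inr w' := by
    intro w
    rcases hθ : θ (.inr w) with r | w'
    · rw [← hR r] at hθ
      have := θ.injective hθ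
      simp at this
    · exact ⟨w', rfl⟩
  choose f hf using hnr
  have fadj : ∀ u w, AA Y (f u).1 (f w).1 ↔ AA Y u.1 w.1 := by
    intro u w
    have := θ.map_adj_iff (v := .inr u) (w := .inr w)
    rw [hf, hf] at this
    exact this
  have fcol : ∀ w, (f w).1.col = w.1.col := by
    intro w
    apply t.sep
    intro i
    have := θ.map_adj_iff (v := .inl (.rho i)) (w := .inr w)
    rw [hR, hf] at this
    exact this
  have finj : Function.Injective f := by
    intro u w huw
    have : θ (.inr u) = θ (.inr w) := by rw [hf, hf, huw]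
    simpa using θ.injective this
  -- systems
  have sys : ∀ (σ σ' : Sy X m V) (hσ : σ.ok) (hσ' : σ'.ok), σ'.kol = σ.kol →
      (f ⟨.B σ, hσ⟩).1 = .B σ' →
      h.hid σ = h.hid σ' ∧ ∀ v c, (f ⟨.P σ v c, hσ⟩).1 = .P σ' v c := by
    intro σ σ' hσ hσ' hk hB
    have hP : ∀ v c, ∃ c', (f ⟨.P σ v c, hσ⟩).1 = .P σ' v c' := by
      intro v c
      obtain ⟨σ'', c', h1, h2⟩ := col_P (fcol ⟨.P σ v c, hσ⟩)
      have h3 := (fadj ⟨.P σ v c, hσ⟩ ⟨.B σ, hσ⟩).mpr ((AA_PB Y σ σ v c rfl).mpr rfl)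
      rw [h1, hB, AA_PB Y _ _ _ _ (by rw [hk, h2])] at h3
      exact ⟨c', by rw [h1, h3]⟩
    choose g hg using hP
    have hgi : ∀ v, Function.Injective (g v) := by
      intro v c c' hcc
      have h1 : f ⟨.P σ v c, hσ⟩ = f ⟨.P σ v c', hσ⟩ := Subtype.ext (by rw [hg, hg, hcc])
      have h2 := congrArg Subtype.val (finj h1)
      simpa using h2
    have hgs : ∀ v c, g v c = c + g v 0 := fun v c => F2_shift (g v) (hgi v) c
    have hD : ∀ e, Y.D (fun v => g v 0) e = (h.hid σ + h.hid σ') * Y.t0 e := by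
      intro e
      obtain ⟨k0, v0, hk0⟩ := Y.ne e
      have hα : ok Y h (.G σ e (fun k => if k = k0 then h.hid σ * Y.t0 e else 0)) := by
        refine ⟨hσ, ?_, by simp⟩
        intro k hk
        beta_reduce
        rw [if_neg]
        rintro rfl
        rw [hk0] at hk
        simp at hk
      generalize hα' : (fun k : Fin 3 => if k = k0 then h.hid σ * Y.t0 e else 0) = α at hα
      obtain ⟨σ'', α', h1, h2⟩ := col_G (fcol ⟨.G σ e α, hα⟩)
      have hsl : ∀ k v, Y.inc e k = some v → σ' = σ'' ∧ α' k = α k + g v 0 := by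
        intro k v hk
        have h3 := (fadj ⟨.G σ e α, hα⟩ ⟨.P σ v (α k), hσ⟩).mpr
          ((AA_GP Y σ σ e α v (α k)).mpr ⟨rfl, k, hk, rfl⟩)
        rw [h1, hg, AA_GP] at h3
        obtain ⟨h4, k', hk', h5⟩ := h3
        have := Y.inj e k k' v hk hk'
        subst this
        exact ⟨h4, by rw [h5, hgs]⟩
      have hok := (f ⟨.G σ e α, hα⟩).2
      rw [h1] at hok
      obtain ⟨-, h6, h7⟩ := hok
      have h8 : ∀ k, α' k = α k + ev (fun v => g v 0) (Y.inc e k) := by
        intro k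
        cases hk : Y.inc e k with
        | none => rw [h6 k hk, hα.2.1 k hk]; simp
        | some v => exact (hsl k v hk).2
      rw [Finset.sum_congr rfl fun k _ => h8 k, Finset.sum_add_distrib, hα.2.2,
        ← (hsl k0 v0 hk0).1] at h7
      change _ + Y.D (fun v => g v 0) e = _ at h7
      generalize Y.D (fun v => g v 0) e = a1 at *
      generalize h.hid σ = a2 at *
      generalize h.hid σ' = a3 at *
      generalize Y.t0 e = a4 at *
      clear * - h7
      revert a1 a2 a3 a4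
      decide
    obtain ⟨h1, h2⟩ := hY.key _ _ hD
    refine ⟨?_, ?_⟩
    · generalize h.hid σ = a2 at *
      generalize h.hid σ' = a3 at *
      clear * - h1
      revert a2 a3
      decide
    · intro v c
      rw [hg, hgs, h2 v, add_zero]
  -- elements of X
  have hX : ∀ x, (f ⟨.X x, trivial⟩).1 = .X x := by
    intro x
    obtain ⟨y, hy⟩ := col_X (fcol ⟨.X x, trivial⟩)
    rw [hy]
    congr 1
    apply hinj
    intro i
    obtain ⟨σ, h1, h2⟩ := col_B (fcol ⟨.B (.a x (.T i)), trivial⟩)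
    have h3 := (fadj ⟨.B (.a x (.T i)), trivial⟩ ⟨.X x, trivial⟩).mpr
      ((AA_BX Y _ _).mpr rfl)
    rw [h1, hy, AA_BX] at h3
    have h4 := kol_a h2
    rw [← h3] at h4
    have h5 := (sys (.a x (.T i)) σ trivial (by rw [h4]; trivial) h2 h1).1
    rw [h4] at h5
    exact h5.symm
  have hBa : ∀ x τ, (f ⟨.B (.a x τ), trivial⟩).1 = .B (.a x τ) := by
    intro x τ
    obtain ⟨σ, h1, h2⟩ := col_B (fcol ⟨.B (.a x τ), trivial⟩)
    have h3 := (fadj ⟨.B (.a x τ), trivial⟩ ⟨.X x, trivial⟩).mpr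
      ((AA_BX Y _ _).mpr rfl)
    rw [h1, hX, AA_BX] at h3
    have h4 := kol_a h2
    rw [← h3] at h4
    rw [h1, h4]
  have hPa : ∀ x τ v c, (f ⟨.P (.a x τ) v c, trivial⟩).1 = .P (.a x τ) v c := by
    intro x τ v c
    exact (sys (.a x τ) (.a x τ) trivial trivial rfl (hBa x τ)).2 v c
  have hBb : ∀ x y i v c (hne : x ≠ y), (f ⟨.B (.b x y i v c), hne⟩).1 = .B (.b x y i v c) := by
    intro x y i v c hne
    obtain ⟨σ, h1, h2⟩ := col_B (fcol ⟨.B (.b x y i v c), hne⟩)
    obtain ⟨x', c', h4⟩ := kol_b h2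
    have h3 := (fadj ⟨.B (.b x y i v c), hne⟩ ⟨.X y, trivial⟩).mpr
      ((AA_BX Y _ _).mpr rfl)
    rw [h1, hX, AA_BX] at h3
    rw [← h3] at h4
    have h5 := (fadj ⟨.P (.a x (.T i)) v c, trivial⟩ ⟨.B (.b x y i v c), hne⟩).mpr
      ((AA_PB' Y _ x y i v c v c ⟨_, rfl⟩).mpr ⟨rfl, rfl, rfl⟩)
    rw [h1, hPa, h4, AA_PB' _ _ _ _ _ _ _ _ _ ⟨_, rfl⟩] at h5
    obtain ⟨h6, -, h7⟩ := h5
    simp only [Sy.a.injEq, and_true] at h6
    rw [h1, h4, h6, h7]
  have hB : ∀ σ (hσ : σ.ok), (f ⟨.B σ, hσ⟩).1 = .B σ := by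
    rintro (⟨x, τ⟩ | ⟨x, y, i, v, c⟩) hσ
    · exact hBa x τ
    · exact hBb x y i v c hσ
  have hP : ∀ σ (hσ : σ.ok) v c, (f ⟨.P σ v c, hσ⟩).1 = .P σ v c := fun σ hσ v c =>
    (sys _ _ hσ hσ rfl (hB σ hσ)).2 v c
  have hall : ∀ w, (f w).1 = w.1 := by
    rintro ⟨w, hw⟩
    rcases w with x | σ | ⟨σ, v, c⟩ | ⟨σ, e, α⟩ | ⟨x, s, v, α⟩
    · exact hX x
    · exact hB σ hw
    · exact hP σ hw v c
    · obtain ⟨σ', α', h1, h2⟩ := col_G (fcol ⟨.G σ e α, hw⟩)
      have hok := (f ⟨.G σ e α, hw⟩).2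
      rw [h1] at hok
      rw [h1]
      have hsl : ∀ k v, Y.inc e k = some v → σ = σ' ∧ α' k = α k := by
        intro k v hk
        have h3 := (fadj ⟨.G σ e α, hw⟩ ⟨.P σ v (α k), hw.1⟩).mpr
          ((AA_GP Y σ σ e α v (α k)).mpr ⟨rfl, k, hk, rfl⟩)
        rw [h1, hP σ hw.1, AA_GP] at h3
        obtain ⟨h4, k', hk', h5⟩ := h3
        have := Y.inj e k k' v hk hk'
        subst this
        exact ⟨h4, h5⟩
      obtain ⟨k0, v0, hk0⟩ := Y.ne e
      rw [← (hsl k0 v0 hk0).1]
      congr 1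
      funext k
      cases hk : Y.inc e k with
      | none => rw [hok.2.1 k hk, hw.2.1 k hk]
      | some v => exact (hsl k v hk).2
    · obtain ⟨x', α', h1⟩ := col_S (fcol ⟨.S x s v α, hw⟩)
      have hok := (f ⟨.S x s v α, hw⟩).2
      rw [h1] at hok
      rw [h1]
      have hsl : ∀ k τ, sl s k = some τ → x' = x ∧ α' k = α k := by
        intro k τ hk
        have h3 := (fadj ⟨.S x s v α, hw⟩ ⟨.P (.a x τ) v (α k), trivial⟩).mpr
          ((AA_SP Y x s v α _ v (α k)).mpr ⟨rfl, k, τ, hk, rfl, rfl⟩)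
        rw [h1, hPa, AA_SP] at h3
        obtain ⟨-, k', τ', hk', h4, h5⟩ := h3
        simp only [Sy.a.injEq] at h4
        obtain ⟨rfl, rfl⟩ := h4
        have := sl_inj s k k' _ hk hk'
        subst this
        exact ⟨rfl, h5⟩
      obtain ⟨k0, τ0, hk0⟩ := sl_some s
      rw [(hsl k0 τ0 hk0).1]
      congr 1
      funext k
      cases hk : sl s k with
      | none => rw [hok.1 k hk, hw.1 k hk]
      | some τ => exact (hsl k τ hk).2
  rintro (r | w)
  · exact hR r
  · rw [hf]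
    congr 1
    exact Subtype.ext (hall w)

end asym

end Pool.Agent.helper78.HP
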