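import Pool.Agent.helper78.HP.Core

/-!
Hiding: the ordinary back-and-forth game cannot distinguish hidden permutation graphs with
different numbers of elements.
-/

set_option autoImplicit false
set_option linter.unusedSectionVars false

namespace Pool.Agent.helper78.HP

lemma F2_add_self (a : F2) : a + a = 0 := by revert a; decide

section

variable {X X' V E : Type} {m b : ℕ} [DecidableEq E]

/-- partial solutions of the unsolvable system `D κ = t0` -/
structure Ghost [DecidableEq V] (Y : LinSys V E) (K : ℕ) where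
  Val : Finset V → (V → F2) → Prop
  empty : ∀ κ, Val ∅ κ
  mono : ∀ P P' κ, P' ⊆ P → Val P κ → Val P' κ
  congr : ∀ P κ κ', (∀ v ∈ P, κ v = κ' v) → Val P κ → Val P κ'
  ext : ∀ P κ v, Val P κ → P.card < K → ∃ κ', (∀ u ∈ P, κ' u = κ u) ∧ Val (insert v P) κ'
  eq : ∀ P κ e, Val P κ → (∀ k v, Y.inc e k = some v → v ∈ P) → Y.D κ e = Y.t0 e

/-- transport of systems -/
def Sy.T (h : Hid X m) (h' : Hid X' m) (π : X → X') (κ : V → F2) : Sy X m V → Sy X' m V
  | .a x τ => .a (π x) τ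
  | .b x y i v c => .b (π x) (π y) i v (c + (h.hd x (.T i) + h'.hd (π x) (.T i)) * κ v)

/-- transport of vertices -/
def Vx.T (Y : LinSys V E) (h : Hid X m) (h' : Hid X' m) (π : X → X') (κ : V → F2) :
    Vx X m V E → Vx X' m V E
  | .X x => .X (π x)
  | .B σ => .B (σ.T h h' π κ)
  | .P σ v c => .P (σ.T h h' π κ) v (c + (h.hid σ + h'.hid (σ.T h h' π κ)) * κ v)
  | .G σ e α => .G (σ.T h h' π κ) e
      (fun k => α k + (h.hid σ + h'.hid (σ.T h h' π κ)) * ev κ (Y.inc e k))
  | .S x s v α => .S (π x) s v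
      (fun k => α k + (ev (h.hd x) (sl s k) + ev (h'.hd (π x)) (sl s k)) * κ v)

variable [DecidableEq V] [DecidableEq X] [DecidableEq X']

def Sy.xs : Sy X m V → Finset X
  | .a x _ => {x}
  | .b x y _ _ _ => {x, y}

def Sy.vars : Sy X m V → Finset V
  | .a _ _ => ∅
  | .b _ _ _ v _ => {v}

def Vx.xs : Vx X m V E → Finset X
  | .X x => {x}
  | .B σ => σ.xs
  | .P σ _ _ => σ.xs
  | .G σ _ _ => σ.xs
  | .S x _ _ _ => {x}

def LinSys.slots (Y : LinSys V E) (e : E) : Finset V :=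
  Finset.univ.biUnion fun k => (Y.inc e k).toFinset

def Vx.vars (Y : LinSys V E) : Vx X m V E → Finset V
  | .X _ => ∅
  | .B σ => σ.vars
  | .P σ v _ => {v} ∪ σ.vars
  | .G σ e _ => Y.slots e ∪ σ.vars
  | .S _ _ v _ => {v}

lemma Sy.xs_card (σ : Sy X m V) : σ.xs.card ≤ 2 := by
  rcases σ with ⟨x, τ⟩ | ⟨x, y, i, v, c⟩
  · simp [Sy.xs]
  · exact Finset.card_le_two

lemma Vx.xs_card (w : Vx X m V E) : w.xs.card ≤ 2 := by
  rcases w with x | σ | ⟨σ, v, c⟩ | ⟨σ, e, α⟩ | ⟨x, s, v, α⟩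
  · simp [Vx.xs]
  · exact σ.xs_card
  · exact σ.xs_card
  · exact σ.xs_card
  · simp [Vx.xs]

lemma Sy.vars_card (σ : Sy X m V) : σ.vars.card ≤ 1 := by
  rcases σ with ⟨x, τ⟩ | ⟨x, y, i, v, c⟩ <;> simp [Sy.vars]

lemma slots_card (Y : LinSys V E) (e : E) : (Y.slots e).card ≤ 3 := by
  refine le_trans Finset.card_biUnion_le ?_
  refine le_trans (Finset.sum_le_card_nsmul _ _ 1 ?_) ?_
  · intro k _
    cases h : Y.inc e k <;> simp
  · simp

lemma mem_slots (Y : LinSys V E) (e : E) (v : V) : v ∈ Y.slots e ↔ ∃ k, Y.inc e k = some v := by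
  simp [LinSys.slots]

lemma Vx.vars_card (Y : LinSys V E) (w : Vx X m V E) : (w.vars Y).card ≤ 4 := by
  rcases w with x | σ | ⟨σ, v, c⟩ | ⟨σ, e, α⟩ | ⟨x, s, v, α⟩
  · simp [Vx.vars]
  · exact le_trans σ.vars_card (by norm_num)
  · refine le_trans (Finset.card_union_le _ _) ?_
    have := σ.vars_card
    simp only [Finset.card_singleton]
    omega
  · refine le_trans (Finset.card_union_le _ _) ?_
    have := σ.vars_card
    have := slots_card Y e
    omega
  · simp [Vx.vars]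

variable (Y : LinSys V E) (h : Hid X m) (h' : Hid X' m)

lemma Sy.T_vars (π : X → X') (κ : V → F2) (σ : Sy X m V) :
    (σ.T h h' π κ).vars = σ.vars := by
  cases σ <;> rfl

lemma Vx.T_vars (π : X → X') (κ : V → F2) (w : Vx X m V E) :
    (w.T Y h h' π κ).vars Y = w.vars Y := by
  cases w <;> simp [Vx.T, Vx.vars, Sy.T_vars]

lemma Sy.T_kol (π : X → X') (κ : V → F2) (σ : Sy X m V) :
    (σ.T h h' π κ).kol = σ.kol := by
  cases σ <;> rfl

lemma Vx.T_col (π : X → X') (κ : V → F2) (w : Vx X m V E) :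
    (w.T Y h h' π κ).col = w.col := by
  cases w <;> simp [Vx.T, Vx.col, Sy.T_kol]

lemma Sy.T_xs (π : X → X') (κ : V → F2) (σ : Sy X m V) :
    (σ.T h h' π κ).xs = σ.xs.image π := by
  cases σ <;> simp [Sy.T, Sy.xs, Finset.image_insert]

lemma Vx.T_xs (π : X → X') (κ : V → F2) (w : Vx X m V E) :
    (w.T Y h h' π κ).xs = w.xs.image π := by
  cases w <;> simp [Vx.T, Vx.xs, Sy.T_xs]

lemma Sy.T_congr (π π' : X → X') (κ κ' : V → F2) (σ : Sy X m V)
    (hπ : ∀ x ∈ σ.xs, π x = π' x) (hκ : ∀ v ∈ σ.vars, κ v = κ' v) :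
    σ.T h h' π κ = σ.T h h' π' κ' := by
  rcases σ with ⟨x, τ⟩ | ⟨x, y, i, v, c⟩
  · simp only [Sy.xs, Finset.mem_singleton, forall_eq] at hπ
    simp [Sy.T, hπ]
  · simp only [Sy.xs, Finset.mem_insert, Finset.mem_singleton, forall_eq_or_imp, forall_eq] at hπ
    simp only [Sy.vars, Finset.mem_singleton, forall_eq] at hκ
    simp [Sy.T, hπ.1, hπ.2, hκ]

lemma Vx.T_congr (π π' : X → X') (κ κ' : V → F2) (w : Vx X m V E)
    (hπ : ∀ x ∈ w.xs, π x = π' x) (hκ : ∀ v ∈ w.vars Y, κ v = κ' v) :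
    w.T Y h h' π κ = w.T Y h h' π' κ' := by
  rcases w with x | σ | ⟨σ, v, c⟩ | ⟨σ, e, α⟩ | ⟨x, s, v, α⟩
  · simp only [Vx.xs, Finset.mem_singleton, forall_eq] at hπ
    simp [Vx.T, hπ]
  · simp only [Vx.T]
    rw [Sy.T_congr h h' π π' κ κ' σ hπ hκ]
  · simp only [Vx.vars, Finset.mem_union, Finset.mem_singleton] at hκ
    simp only [Vx.T]
    rw [Sy.T_congr h h' π π' κ κ' σ hπ (fun v hv => hκ v (Or.inr hv)), hκ v (Or.inl rfl)]
  · simp only [Vx.vars, Finset.mem_union, mem_slots] at hκ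
    simp only [Vx.T]
    rw [Sy.T_congr h h' π π' κ κ' σ hπ (fun v hv => hκ v (Or.inr hv))]
    congr 1
    funext k
    cases hk : Y.inc e k with
    | none => simp
    | some v => simp [hκ v (Or.inl ⟨k, hk⟩)]
  · simp only [Vx.xs, Finset.mem_singleton, forall_eq] at hπ
    simp only [Vx.vars, Finset.mem_singleton, forall_eq] at hκ
    simp [Vx.T, hπ, hκ]

lemma Sy.T_inv (π : X → X') (ρ : X' → X) (κ : V → F2) (σ : Sy X m V)
    (hπ : ∀ x ∈ σ.xs, ρ (π x) = x) :
    (σ.T h h' π κ).T h' h ρ κ = σ := by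
  rcases σ with ⟨x, τ⟩ | ⟨x, y, i, v, c⟩
  · simp only [Sy.xs, Finset.mem_singleton, forall_eq] at hπ
    simp [Sy.T, hπ]
  · simp only [Sy.xs, Finset.mem_insert, Finset.mem_singleton, forall_eq_or_imp, forall_eq] at hπ
    simp only [Sy.T, hπ.1, hπ.2]
    congr 1
    generalize h.hd x (.T i) = p
    generalize h'.hd (π x) (.T i) = q
    generalize κ v = r
    revert c p q r
    decide

lemma Vx.T_inv (π : X → X') (ρ : X' → X) (κ : V → F2) (w : Vx X m V E)
    (hπ : ∀ x ∈ w.xs, ρ (π x) = x) :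
    (w.T Y h h' π κ).T Y h' h ρ κ = w := by
  have key : ∀ a b c d : F2, a + (b + c) * d + (c + b) * d = a := by decide
  rcases w with x | σ | ⟨σ, v, c⟩ | ⟨σ, e, α⟩ | ⟨x, s, v, α⟩
  · simp only [Vx.xs, Finset.mem_singleton, forall_eq] at hπ
    simp [Vx.T, hπ]
  · simp only [Vx.T]
    rw [Sy.T_inv h h' π ρ κ σ hπ]
  · simp only [Vx.T]
    rw [Sy.T_inv h h' π ρ κ σ hπ, key]
  · simp only [Vx.T]
    rw [Sy.T_inv h h' π ρ κ σ hπ]
    congr 1
    funext k
    rw [key]
  · simp only [Vx.xs, Finset.mem_singleton, forall_eq] at hπ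
    simp only [Vx.T, hπ]
    congr 1
    funext k
    rw [key]

lemma Sy.T_ok (π : X → X') (ρ : X' → X) (κ : V → F2) (σ : Sy X m V)
    (hπ : ∀ x ∈ σ.xs, ρ (π x) = x) (hσ : σ.ok) : (σ.T h h' π κ).ok := by
  rcases σ with ⟨x, τ⟩ | ⟨x, y, i, v, c⟩
  · trivial
  · simp only [Sy.xs, Finset.mem_insert, Finset.mem_singleton, forall_eq_or_imp, forall_eq] at hπ
    simp only [Sy.ok, Sy.T] at *
    intro hc
    apply hσ
    rw [← hπ.1, ← hπ.2, hc]

lemma Vx.T_ok {K : ℕ} (gh : Ghost Y K) (π : X → X') (ρ : X' → X) (κ : V → F2)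
    (w : Vx X m V E) (hπ : ∀ x ∈ w.xs, ρ (π x) = x) (hw : ok Y h w)
    (hv : gh.Val (w.vars Y) κ) : ok Y h' (w.T Y h h' π κ) := by
  rcases w with x | σ | ⟨σ, v, c⟩ | ⟨σ, e, α⟩ | ⟨x, s, v, α⟩
  · trivial
  · exact Sy.T_ok h h' π ρ κ σ hπ hw
  · exact Sy.T_ok h h' π ρ κ σ hπ hw
  · obtain ⟨h1, h2, h3⟩ := hw
    refine ⟨Sy.T_ok h h' π ρ κ σ hπ h1, ?_, ?_⟩
    · intro k hk
      simp [h2 k hk, hk]
    · have he : Y.D κ e = Y.t0 e := by
        apply gh.eq _ κ e hv
        intro k v hk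
        simp only [Vx.vars, Finset.mem_union, mem_slots]
        exact Or.inl ⟨k, hk⟩
      rw [Finset.sum_add_distrib, ← Finset.mul_sum, h3]
      change _ + _ * Y.D κ e = _
      rw [he]
      generalize h.hid σ = p
      generalize h'.hid (σ.T h h' π κ) = q
      generalize Y.t0 e = r
      revert p q r
      decide
  · obtain ⟨h2, h3⟩ := hw
    refine ⟨?_, ?_⟩
    · intro k hk
      simp [h2 k hk, hk]
    · rw [Finset.sum_add_distrib, ← Finset.sum_mul, h3, Finset.sum_add_distrib, h.sum, h'.sum,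
        F2_add_self]
      simp

/-- the key identity -/
lemma key8 : ∀ cx cy dx dy kv kw a b z t : F2, cx * cy = 0 → dx * dy = 0 → z + t = a * b →
    (z + (a * cy + (a + (cx + dx) * kv) * dy) * kw) + (t + (b * cx + (b + (cy + dy) * kw) * dx) * kv)
      = (a + (cx + dx) * kv) * (b + (cy + dy) * kw) := by
  decide

lemma Vx.T_E1 (π : X → X') (ρ : X' → X) (κ : V → F2)
    (w w' : Vx X m V E) (hπ : ∀ x ∈ w.xs, ρ (π x) = x) 
    (hw : ok Y h w) (he : E1 Y w w') :
    E1 Y (w.T Y h h' π κ) (w'.T Y h h' π κ) := by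
  rcases w with x | σ | ⟨σ, v, c⟩ | ⟨σ, e, α⟩ | ⟨x, s, v, α⟩
  · cases w' <;> simp [E1] at he
  · rcases σ with ⟨x, τ⟩ | ⟨x, y, i, v, c⟩
    · cases w' <;> simp_all [E1, Vx.T, Sy.T]
    · rcases w' with x' | σ' | ⟨σ', v', c'⟩ | ⟨σ', e', α'⟩ | ⟨x', s', v', α'⟩
      · simp_all [E1, Vx.T, Sy.T]
      · simp [E1] at he
      · simp only [E1] at he
        obtain ⟨rfl, rfl, rfl⟩ := he
        simp [E1, Vx.T, Sy.T, Hid.hid]
      · simp [E1] at he
      · simp [E1] at he
  · rcases w' with x' | σ' | ⟨σ', v', c'⟩ | ⟨σ', e', α'⟩ | ⟨x', s', v', α'⟩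
    · simp [E1] at he
    · have he' : σ' = σ := by
        cases σ <;> cases σ' <;> exact he
      subst he'
      cases σ' <;> simp [Vx.T, E1]
    · rcases σ with ⟨x, τ⟩ | ⟨x, y, i, u, a⟩
      · simp [E1] at he
      · rcases σ' with ⟨x', τ'⟩ | ⟨x', y', i', u', a'⟩
        · simp [E1] at he
        · simp only [E1] at he
          obtain ⟨rfl, rfl, rfl, rfl, rfl, he⟩ := he
          simp only [Vx.T, Sy.T, E1, Hid.hid, true_and]
          simp only [Vx.xs, Sy.xs, Finset.mem_insert, Finset.mem_singleton, forall_eq_or_imp,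
            forall_eq] at hπ
          have hne : y' ≠ x' := hw
          have hne' : π y' ≠ π x' := by
            intro hc
            apply hne
            rw [← hπ.1, ← hπ.2, hc]
          exact key8 _ _ _ _ _ _ _ _ _ _ (h.prod y' x' i' hne) (h'.prod _ _ i' hne') he
    · simp [E1] at he
    · simp [E1] at he
  · rcases w' with x' | σ' | ⟨σ', v', c'⟩ | ⟨σ', e', α'⟩ | ⟨x', s', v', α'⟩
    · simp [E1] at he
    · simp [E1] at he
    · simp only [E1] at he
      obtain ⟨rfl, k, hk, rfl⟩ := he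
      simp only [Vx.T, E1, true_and]
      exact ⟨k, hk, by simp [hk]⟩
    · simp [E1] at he
    · simp [E1] at he
  · rcases w' with x' | σ' | ⟨σ', v', c'⟩ | ⟨σ', e', α'⟩ | ⟨x', s', v', α'⟩
    · simp [E1] at he
    · simp [E1] at he
    · simp only [E1] at he
      obtain ⟨rfl, k, τ, hk, rfl, rfl⟩ := he
      simp only [Vx.T, E1, true_and]
      exact ⟨k, τ, hk, by simp [Sy.T], by simp [hk, Sy.T, Hid.hid]⟩
    · simp [E1] at he
    · simp [E1] at he

lemma match_ext [Fintype X'] (D : Finset X) (π : X → X') (ρ : X' → X)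
    (hD : ∀ x ∈ D, ρ (π x) = x) (A : Finset X) (hc : D.card + A.card ≤ Fintype.card X') :
    ∃ π' : X → X', ∃ ρ' : X' → X, (∀ x ∈ D, π' x = π x) ∧ (∀ x' ∈ D.image π, ρ' x' = ρ x') ∧
      ∀ x ∈ D ∪ A, ρ' (π' x) = x := by
  induction A using Finset.induction_on with
  | empty => exact ⟨π, ρ, fun _ _ => rfl, fun _ _ => rfl, by simpa using hD⟩
  | insert a A ha ih =>
    rw [Finset.card_insert_of_notMem ha] at hc
    obtain ⟨π1, ρ1, h1, h2, h3⟩ := ih (by omega)
    by_cases haD : a ∈ D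
    · refine ⟨π1, ρ1, h1, h2, ?_⟩
      intro x hx
      apply h3
      simp only [Finset.mem_union, Finset.mem_insert] at hx ⊢
      rcases hx with hx | rfl | hx
      · exact Or.inl hx
      · exact Or.inl haD
      · exact Or.inr hx
    · have hlt : ((D ∪ A).image π1).card < Fintype.card X' := by
        refine lt_of_le_of_lt Finset.card_image_le ?_
        refine lt_of_le_of_lt (Finset.card_union_le _ _) ?_
        omega
      obtain ⟨x', hx'⟩ : ∃ x', x' ∉ (D ∪ A).image π1 := by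
        by_contra hcon
        push Not at hcon
        rw [Finset.eq_univ_iff_forall.mpr hcon, Finset.card_univ] at hlt
        exact lt_irrefl _ hlt
      have hne : ∀ x ∈ D ∪ A, π1 x ≠ x' := by
        intro x hx hxx
        apply hx'
        rw [← hxx]
        exact Finset.mem_image_of_mem _ hx
      have haDA : a ∉ D ∪ A := by simp [haD, ha]
      refine ⟨Function.update π1 a x', Function.update ρ1 x' a, ?_, ?_, ?_⟩
      · intro x hx
        have : x ≠ a := by rintro rfl; exact haD hx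
        rw [Function.update_of_ne this]
        exact h1 x hx
      · intro y hy
        have : y ≠ x' := by
          rintro rfl
          obtain ⟨x, hx, hxy⟩ := Finset.mem_image.mp hy
          exact hne x (Finset.mem_union_left _ hx) (by rw [h1 x hx, hxy])
        rw [Function.update_of_ne this]
        exact h2 y hy
      · intro x hx
        by_cases hxa : x = a
        · subst hxa
          simp
        · have hx' : x ∈ D ∪ A := by
            simp only [Finset.mem_union, Finset.mem_insert] at hx ⊢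
            tauto
          rw [Function.update_of_ne hxa, Function.update_of_ne (hne x hx')]
          exact h3 x hx'

lemma val_ext {Y : LinSys V E} {K : ℕ} (gh : Ghost Y K) (P : Finset V) (κ : V → F2)
    (hP : gh.Val P κ) (A : Finset V) (hc : P.card + A.card ≤ K) :
    ∃ κ', (∀ u ∈ P, κ' u = κ u) ∧ gh.Val (P ∪ A) κ' := by
  induction A using Finset.induction_on with
  | empty => exact ⟨κ, fun _ _ => rfl, by simpa using hP⟩
  | insert a A ha ih =>
    rw [Finset.card_insert_of_notMem ha] at hc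
    obtain ⟨κ1, h1, h2⟩ := ih (by omega)
    obtain ⟨κ2, h3, h4⟩ := gh.ext _ κ1 a h2 (lt_of_le_of_lt (Finset.card_union_le _ _) (by omega))
    refine ⟨κ2, ?_, ?_⟩
    · intro u hu
      rw [h3 u (Finset.mem_union_left _ hu), h1 u hu]
    · rw [Finset.union_insert]
      exact h4

lemma Vx.inv_of_eq (π : X → X') (ρ : X' → X) (κ : V → F2) (w : Vx X m V E)
    (hw : w = (w.T Y h h' π κ).T Y h' h ρ κ) : ∀ x ∈ w.xs, ρ (π x) = x := by
  have key : ∀ σ : Sy X m V, σ = (σ.T h h' π κ).T h' h ρ κ → ∀ x ∈ σ.xs, ρ (π x) = x := by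
    intro σ hσ
    rcases σ with ⟨x, τ⟩ | ⟨x, y, i, v, c⟩
    · simp only [Sy.T, Sy.a.injEq] at hσ
      simp only [Sy.xs, Finset.mem_singleton, forall_eq]
      exact hσ.1.symm
    · simp only [Sy.T, Sy.b.injEq] at hσ
      simp only [Sy.xs, Finset.mem_insert, Finset.mem_singleton, forall_eq_or_imp, forall_eq]
      exact ⟨hσ.1.symm, hσ.2.1.symm⟩
  rcases w with x | σ | ⟨σ, v, c⟩ | ⟨σ, e, α⟩ | ⟨x, s, v, α⟩
  · simp only [Vx.T, Vx.X.injEq] at hw
    simp only [Vx.xs, Finset.mem_singleton, forall_eq]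
    exact hw.symm
  · simp only [Vx.T, Vx.B.injEq] at hw
    exact key σ hw
  · simp only [Vx.T, Vx.P.injEq] at hw
    exact key σ hw.1
  · simp only [Vx.T, Vx.G.injEq] at hw
    exact key σ hw.1
  · simp only [Vx.T, Vx.S.injEq] at hw
    simp only [Vx.xs, Finset.mem_singleton, forall_eq]
    exact hw.1.symm

def vT {Y : LinSys V E} {h : Hid X m} : VT Y h b → Finset V
  | .inl _ => ∅
  | .inr w => w.1.vars Y

def xT {Y : LinSys V E} {h : Hid X m} : VT Y h b → Finset X
  | .inl _ => ∅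
  | .inr w => w.1.xs

def relT {Y : LinSys V E} {h : Hid X m} {h' : Hid X' m} (π : X → X') (ρ : X' → X) (κ : V → F2) :
    VT Y h b → VT Y h' b → Prop
  | .inl r, .inl r' => r = r'
  | .inr w, .inr w' => w'.1 = w.1.T Y h h' π κ ∧ w.1 = w'.1.T Y h' h ρ κ
  | _, _ => False

lemma relT_symm {Y : LinSys V E} {h : Hid X m} {h' : Hid X' m} {π : X → X'} {ρ : X' → X}
    {κ : V → F2} {u : VT Y h b} {u' : VT Y h' b} (hr : relT π ρ κ u u') : relT ρ π κ u' u := by
  rcases u with r | w <;> rcases u' with r' | w'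
  · exact Eq.symm hr
  · exact hr
  · exact hr
  · exact ⟨hr.2, hr.1⟩

lemma relT_inv {Y : LinSys V E} {h : Hid X m} {h' : Hid X' m} {π : X → X'} {ρ : X' → X}
    {κ : V → F2} {u : VT Y h b} {u' : VT Y h' b} (hr : relT π ρ κ u u') :
    ∀ x ∈ xT u, ρ (π x) = x := by
  rcases u with r | w <;> rcases u' with r' | w'
  · simp [xT]
  · simp [xT]
  · exact hr.elim
  · apply Vx.inv_of_eq Y h h' π ρ κ w.1
    rw [← hr.1]
    exact hr.2

lemma relT_vT {Y : LinSys V E} {h : Hid X m} {h' : Hid X' m} {π : X → X'} {ρ : X' → X}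
    {κ : V → F2} {u : VT Y h b} {u' : VT Y h' b} (hr : relT π ρ κ u u') : vT u' = vT u := by
  rcases u with r | w <;> rcases u' with r' | w'
  · rfl
  · exact hr.elim
  · exact hr.elim
  · simp only [vT]
    rw [hr.1, Vx.T_vars]

lemma relT_xT {Y : LinSys V E} {h : Hid X m} {h' : Hid X' m} {π : X → X'} {ρ : X' → X}
    {κ : V → F2} {u : VT Y h b} {u' : VT Y h' b} (hr : relT π ρ κ u u') :
    xT u' = (xT u).image π := by
  rcases u with r | w <;> rcases u' with r' | w'
  · rfl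
  · exact hr.elim
  · exact hr.elim
  · simp only [xT]
    rw [hr.1, Vx.T_xs]

lemma relT_adj {Y : LinSys V E} {h : Hid X m} {h' : Hid X' m} (t : Tst b (Col m V E))
    {π : X → X'} {ρ : X' → X}
    {κ : V → F2} {u v : VT Y h b} {u' v' : VT Y h' b} (hu : relT π ρ κ u u')
    (hv : relT π ρ κ v v') (huv : (gr Y h t).Adj u v) : (gr Y h' t).Adj u' v' := by
  have hxu := relT_inv hu
  have hxv := relT_inv hv
  rcases u with r | w <;> rcases u' with r' | w'
  · rcases v with s | z <;> rcases v' with s' | z'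
    · have h1 : r = r' := hu
      have h2 : s = s' := hv
      subst h1 h2
      exact huv
    · exact hv.elim
    · exact hv.elim
    · have h1 : r = r' := hu
      subst h1
      change rA t r z'.1.col
      rw [hv.1, Vx.T_col]
      exact huv
  · exact hu.elim
  · exact hu.elim
  · rcases v with s | z <;> rcases v' with s' | z'
    · have h2 : s = s' := hv
      subst h2
      change rA t s w'.1.col
      rw [hu.1, Vx.T_col]
      exact huv
    · exact hv.elim
    · exact hv.elim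
    · change E1 Y w'.1 z'.1 ∨ E1 Y z'.1 w'.1
      rw [hu.1, hv.1]
      rcases huv with he | he
      · exact Or.inl (Vx.T_E1 Y h h' π ρ κ _ _ hxu w.2 he)
      · exact Or.inr (Vx.T_E1 Y h h' π ρ κ _ _ hxv z.2 he)

lemma relT_func {Y : LinSys V E} {h : Hid X m} {h' : Hid X' m}
    {π : X → X'} {ρ : X' → X}
    {κ : V → F2} {u v : VT Y h b} {u' v' : VT Y h' b} (hu : relT π ρ κ u u')
    (hv : relT π ρ κ v v') (huv : u = v) : u' = v' := by
  subst huv
  rcases u with r | w
  · rcases u' with r' | w' <;> rcases v' with s' | z'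
    · have h1 : r = r' := hu
      have h2 : r = s' := hv
      rw [← h1, ← h2]
    · exact hv.elim
    · exact hu.elim
    · exact hu.elim
  · rcases u' with r' | w' <;> rcases v' with s' | z'
    · exact hu.elim
    · exact hu.elim
    · exact hv.elim
    · congr 1
      apply Subtype.ext
      rw [hu.1, hv.1]

/-- families for the ordinary game -/
structure FOGame {A B : Type} [DecidableEq (A × B)] (G : SimpleGraph A) (H : SimpleGraph B)
    (k : ℕ) (F : Set (Finset (A × B))) : Prop where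
  empty : ∅ ∈ F
  card : ∀ p ∈ F, p.card ≤ k
  iso : ∀ p ∈ F, ∀ x ∈ p, ∀ y ∈ p, (x.1 = y.1 ↔ x.2 = y.2) ∧ (G.Adj x.1 y.1 ↔ H.Adj x.2 y.2)
  sub : ∀ p ∈ F, ∀ q, q ⊆ p → q ∈ F
  forth : ∀ p ∈ F, p.card < k → ∀ a, ∃ b, insert (a, b) p ∈ F
  back : ∀ p ∈ F, p.card < k → ∀ b, ∃ a, insert (a, b) p ∈ F

structure Good {Y : LinSys V E} {K : ℕ} (gh : Ghost Y K) {h : Hid X m} {h' : Hid X' m}
    (π : X → X') (ρ : X' → X) (κ : V → F2) (p : Finset (VT Y h b × VT Y h' b)) : Prop where
  val : gh.Val (p.biUnion fun q => vT q.1 ∪ vT q.2) κ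
  rel : ∀ q ∈ p, relT π ρ κ q.1 q.2

variable [DecidableEq (VT Y h b)] [DecidableEq (VT Y h' b)]

lemma Good.swap {Y : LinSys V E} {K : ℕ} {gh : Ghost Y K} {h : Hid X m} {h' : Hid X' m}
    [DecidableEq (VT Y h b)] [DecidableEq (VT Y h' b)]
    {π : X → X'} {ρ : X' → X} {κ : V → F2} {p : Finset (VT Y h b × VT Y h' b)}
    (hg : Good gh π ρ κ p) : Good gh ρ π κ (p.image Prod.swap) := by
  constructor
  · apply gh.mono _ _ κ _ hg.val
    intro v hv
    simp only [Finset.mem_biUnion, Finset.mem_image] at hv ⊢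
    obtain ⟨q, ⟨q', hq', rfl⟩, hv⟩ := hv
    exact ⟨q', hq', by simpa [or_comm] using hv⟩
  · intro q hq
    obtain ⟨q', hq', rfl⟩ := Finset.mem_image.mp hq
    exact relT_symm (hg.rel q' hq')

lemma card_vT {Y : LinSys V E} {h : Hid X m} (u : VT Y h b) : (vT u).card ≤ 4 := by
  rcases u with r | w
  · simp [vT]
  · exact Vx.vars_card Y w.1

lemma card_xT {Y : LinSys V E} {h : Hid X m} (u : VT Y h b) : (xT u).card ≤ 2 := by
  rcases u with r | w
  · simp [xT]
  · exact Vx.xs_card w.1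

lemma Good.forth {Y : LinSys V E} {K : ℕ} {gh : Ghost Y K} {h : Hid X m} {h' : Hid X' m}
    [DecidableEq (VT Y h b)] [DecidableEq (VT Y h' b)] [Fintype X']
    {π : X → X'} {ρ : X' → X} {κ : V → F2} {p : Finset (VT Y h b × VT Y h' b)}
    (hg : Good gh π ρ κ p) (k : ℕ) (hp : p.card < k) (hK : 8 * k ≤ K)
    (hX : 2 * k ≤ Fintype.card X') (a : VT Y h b) :
    ∃ a' : VT Y h' b, ∃ π' ρ' κ', Good gh π' ρ' κ' (insert (a, a') p) := by
  classical
  -- used elements
  set D : Finset X := p.biUnion fun q => xT q.1 with hD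
  have hDc : D.card ≤ 2 * p.card := by
    refine le_trans Finset.card_biUnion_le ?_
    refine le_trans (Finset.sum_le_card_nsmul _ _ 2 fun q _ => card_xT q.1) ?_
    simp [mul_comm]
  have hDinv : ∀ x ∈ D, ρ (π x) = x := by
    intro x hx
    obtain ⟨q, hq, hx⟩ := Finset.mem_biUnion.mp hx
    exact relT_inv (hg.rel q hq) x hx
  set P : Finset V := p.biUnion fun q => vT q.1 ∪ vT q.2 with hP
  have hPc : P.card ≤ 8 * p.card := by
    refine le_trans Finset.card_biUnion_le ?_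
    refine le_trans (Finset.sum_le_card_nsmul _ _ 8 fun q _ => ?_) ?_
    · refine le_trans (Finset.card_union_le _ _) ?_
      have := card_vT q.1
      have := card_vT q.2
      omega
    · simp [mul_comm]
  obtain ⟨π', ρ', h1, h2, h3⟩ := match_ext D π ρ hDinv (xT a) (by
    have := card_xT a
    omega)
  obtain ⟨κ', h4, h5⟩ := val_ext gh P κ hg.val (vT a) (by
    have := card_vT a
    omega)
  -- old pairs are still related
  have hold : ∀ q ∈ p, relT π' ρ' κ' q.1 q.2 := by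
    intro q hq
    have hr := hg.rel q hq
    have hx1 : ∀ x ∈ xT q.1, x ∈ D := fun x hx => Finset.mem_biUnion.mpr ⟨q, hq, hx⟩
    have hv1 : ∀ v ∈ vT q.1, v ∈ P := fun v hv => Finset.mem_biUnion.mpr
      ⟨q, hq, Finset.mem_union_left _ hv⟩
    have hv2 : ∀ v ∈ vT q.2, v ∈ P := fun v hv => Finset.mem_biUnion.mpr
      ⟨q, hq, Finset.mem_union_right _ hv⟩
    have hx2 : ∀ x ∈ xT q.2, x ∈ D.image π := by
      intro x hx
      rw [relT_xT hr] at hx
      exact Finset.image_subset_image hx1 hx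
    rcases q with ⟨u, u'⟩
    rcases u with r | w <;> rcases u' with r' | w'
    · exact hr
    · exact hr.elim
    · exact hr.elim
    · refine ⟨?_, ?_⟩
      · rw [hr.1]
        apply Vx.T_congr
        · intro x hx
          exact (h1 x (hx1 x hx)).symm
        · intro v hv
          exact (h4 v (hv1 v hv)).symm
      · rw [hr.2]
        have : w'.1 = w'.1 := rfl
        conv_lhs => rw [← hr.2]
        rw [hr.2]
        apply Vx.T_congr
        · intro x hx
          exact (h2 x (hx2 x hx)).symm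
        · intro v hv
          exact (h4 v (hv2 v hv)).symm
  rcases a with r | w
  · refine ⟨.inl r, π', ρ', κ', ?_, ?_⟩
    · apply gh.mono _ _ κ' _ h5
      intro v hv
      simp only [Finset.mem_biUnion, Finset.mem_insert] at hv
      obtain ⟨q, rfl | hq, hv⟩ := hv
      · simp [vT] at hv
      · exact Finset.mem_union_left _ (Finset.mem_biUnion.mpr ⟨q, hq, hv⟩)
    · intro q hq
      rcases Finset.mem_insert.mp hq with rfl | hq
      · rfl
      · exact hold q hq
  · have hxw : ∀ x ∈ w.1.xs, ρ' (π' x) = x := fun x hx => h3 x (Finset.mem_union_right _ hx)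
    have hok : ok Y h' (w.1.T Y h h' π' κ') :=
      Vx.T_ok Y h h' gh π' ρ' κ' w.1 hxw w.2
        (gh.mono _ _ κ' (fun v hv => Finset.mem_union_right _ hv) h5)
    have hrel : relT π' ρ' κ' (Sum.inr w : VT Y h b) (Sum.inr ⟨_, hok⟩ : VT Y h' b) :=
      ⟨rfl, (Vx.T_inv Y h h' π' ρ' κ' w.1 hxw).symm⟩
    refine ⟨.inr ⟨_, hok⟩, π', ρ', κ', ?_, ?_⟩
    · apply gh.mono _ _ κ' _ h5
      intro v hv
      simp only [Finset.mem_biUnion, Finset.mem_insert] at hv
      obtain ⟨q, rfl | hq, hv⟩ := hv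
      · simp only [relT_vT hrel, Finset.union_self] at hv
        exact Finset.mem_union_right _ hv
      · exact Finset.mem_union_left _ (Finset.mem_biUnion.mpr ⟨q, hq, hv⟩)
    · intro q hq
      rcases Finset.mem_insert.mp hq with rfl | hq
      · exact hrel
      · exact hold q hq

theorem hide [Fintype X] [Fintype X'] [Nonempty X] [Nonempty X'] {K : ℕ} (gh : Ghost Y K)
    (t : Tst b (Col m V E)) (k : ℕ) (hK : 8 * k ≤ K)
    (hX : 2 * k ≤ Fintype.card X) (hX' : 2 * k ≤ Fintype.card X') :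
    ∃ F : Set (Finset (VT Y h b × VT Y h' b)), FOGame (gr Y h t) (gr Y h' t) k F := by
  classical
  refine ⟨{p | p.card ≤ k ∧ ∃ π ρ κ, Good gh π ρ κ p}, ?_, ?_, ?_, ?_, ?_, ?_⟩
  · refine ⟨by simp, fun _ => Classical.arbitrary _, fun _ => Classical.arbitrary _, fun _ => 0,
      ?_, ?_⟩
    · simpa using gh.empty _
    · simp
  · intro p hp
    exact hp.1
  · rintro p ⟨-, π, ρ, κ, hg⟩ x hx y hy
    refine ⟨⟨relT_func (hg.rel x hx) (hg.rel y hy),
      relT_func (relT_symm (hg.rel x hx)) (relT_symm (hg.rel y hy))⟩,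
      ⟨relT_adj t (hg.rel x hx) (hg.rel y hy),
      relT_adj t (relT_symm (hg.rel x hx)) (relT_symm (hg.rel y hy))⟩⟩
  · rintro p ⟨hc, π, ρ, κ, hg⟩ q hq
    refine ⟨le_trans (Finset.card_le_card hq) hc, π, ρ, κ, ?_, fun x hx => hg.rel x (hq hx)⟩
    exact gh.mono _ _ κ (Finset.biUnion_subset_biUnion_of_subset_left _ hq) hg.val
  · rintro p ⟨hc, π, ρ, κ, hg⟩ hlt a
    obtain ⟨a', π', ρ', κ', hg'⟩ := hg.forth k hlt hK hX' a
    refine ⟨a', le_trans (Finset.card_insert_le _ _) (by omega), π', ρ', κ', ?_⟩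
    convert hg'
  · rintro p ⟨hc, π, ρ, κ, hg⟩ hlt a
    have hc2 : (p.image Prod.swap).card < k := lt_of_le_of_lt Finset.card_image_le hlt
    obtain ⟨a', π', ρ', κ', hg'⟩ := hg.swap.forth k hc2 hK hX a
    refine ⟨a', le_trans (Finset.card_insert_le _ _) (by omega), ρ', π', κ', ?_⟩
    have := hg'.swap
    convert this
    ext ⟨u, u'⟩
    simp only [Finset.mem_insert, Finset.mem_image, Prod.mk.injEq, Prod.exists, Prod.swap_prod_mk]
    constructor
    · rintro (⟨rfl, rfl⟩ | h0)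
      · exact ⟨u', u, Or.inl ⟨rfl, rfl⟩, rfl, rfl⟩
      · exact ⟨u', u, Or.inr ⟨u, u', h0, rfl, rfl⟩, rfl, rfl⟩
    · rintro ⟨c, d, ⟨rfl, rfl⟩ | ⟨e, f, h0, rfl, rfl⟩, rfl, rfl⟩
      · exact Or.inl ⟨rfl, rfl⟩
      · exact Or.inr h0

end

end Pool.Agent.helper78.HP
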