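import Pool.Agent.helper78.HP.Gap

/-!
Incidence data from a finite projective plane of odd order.
-/

set_option autoImplicit false

namespace Pool.Agent.helper78.HP

open Configuration

lemma exists_PD (P L : Type) [Fintype P] [Fintype L] [DecidableEq P] [DecidableEq L]
    [Membership P L] [ProjectivePlane P L] (q : ℕ) (hq : ProjectivePlane.order P L = q)
    (hodd : Odd q) : Nonempty (PD P L q) := by
  classical
  have hc : ∀ l : L, Nonempty (Fin (q + 1) ≃ {p : P // p ∈ l}) := by
    intro l
    have := ProjectivePlane.pointCount_eq P l
    rw [pointCount, hq] at this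
    exact ⟨(Fintype.equivFinOfCardEq (by rw [← Nat.card_eq_fintype_card, this])).symm⟩
  have hI : ∀ (l : L) (p : P), (∑ i, if ((hc l).some i).1 = p then (1 : F2) else 0) =
      if p ∈ l then 1 else 0 := by
    intro l p
    by_cases hp : p ∈ l
    · rw [if_pos hp, Finset.sum_eq_single ((hc l).some.symm ⟨p, hp⟩)]
      · simp
      · intro i _ hi
        rw [if_neg]
        intro h
        apply hi
        rw [Equiv.eq_symm_apply]
        exact Subtype.ext h
      · simp
    · rw [if_neg hp]
      apply Finset.sum_eq_zero
      intro i _
      rw [if_neg]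
      intro h
      exact hp (h ▸ ((hc l).some i).2)
  have heven : ((q + 1 : ℕ) : F2) = 0 := by
    rw [ZMod.natCast_eq_zero_iff]
    obtain ⟨k, hk⟩ := hodd
    exact ⟨k + 1, by omega⟩
  refine ⟨{ pt := fun l i => ((hc l).some i).1, inj := ?_, meet := ?_, J1 := ?_, J2 := ?_ }⟩
  · intro l i j h
    exact (hc l).some.injective (Subtype.ext h)
  · intro l l' hl i j i' j' h h'
    have h1 := ((hc l).some i).2
    have h2 := ((hc l).some i').2
    have h3 := ((hc l').some j).2
    have h4 := ((hc l').some j').2
    rw [← h] at h3
    rw [← h'] at h4
    rcases Nondegenerate.eq_or_eq h1 h2 h3 h4 with h5 | h5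
    · exact (hc l).some.injective (Subtype.ext h5)
    · exact (hl h5).elim
  · intro p r
    have e1 : ∀ l, (∑ i, if ((hc l).some i).1 = p then (1 : F2) else 0) *
        (∑ i, if ((hc l).some i).1 = r then (1 : F2) else 0) =
        if (p ∈ l ∧ r ∈ l) then 1 else 0 := by
      intro l
      rw [hI, hI]
      by_cases h1 : p ∈ l <;> by_cases h2 : r ∈ l <;> simp [h1, h2]
    rw [Finset.sum_congr rfl fun l _ => e1 l, Finset.sum_boole]
    by_cases hpr : p = r
    · subst hpr
      rw [if_pos rfl]
      have : (Finset.univ.filter fun l : L => p ∈ l ∧ p ∈ l).card = q + 1 := by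
        have h1 := ProjectivePlane.lineCount_eq L p
        rw [lineCount, hq, Nat.card_eq_fintype_card, Fintype.card_subtype] at h1
        rw [← h1]
        congr 1
        ext l
        simp
      rw [this]
      exact heven
    · rw [if_neg hpr]
      obtain ⟨l, hl, hu⟩ := HasLines.existsUnique_line P L p r hpr
      have : (Finset.univ.filter fun l : L => p ∈ l ∧ r ∈ l) = {l} := by
        ext l'
        simp only [Finset.mem_filter, Finset.mem_univ, true_and, Finset.mem_singleton]
        constructor
        · intro h
          exact hu l' h
        · rintro rfl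
          exact hl
      rw [this]
      simp
  · intro l l'
    have e1 : ∀ p, (∑ i, if ((hc l).some i).1 = p then (1 : F2) else 0) *
        (∑ i, if ((hc l').some i).1 = p then (1 : F2) else 0) =
        if (p ∈ l ∧ p ∈ l') then 1 else 0 := by
      intro p
      rw [hI, hI]
      by_cases h1 : p ∈ l <;> by_cases h2 : p ∈ l' <;> simp [h1, h2]
    rw [Finset.sum_congr rfl fun l _ => e1 l, Finset.sum_boole]
    by_cases hll : l = l'
    · subst hll
      rw [if_pos rfl]
      have : (Finset.univ.filter fun p : P => p ∈ l ∧ p ∈ l).card = q + 1 := by
        have h1 := ProjectivePlane.pointCount_eq P l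
        rw [pointCount, hq, Nat.card_eq_fintype_card, Fintype.card_subtype] at h1
        rw [← h1]
        congr 1
        ext l
        simp
      rw [this]
      exact heven
    · rw [if_neg hll]
      obtain ⟨p, hp, hu⟩ := HasPoints.existsUnique_point P L l l' hll
      have : (Finset.univ.filter fun p : P => p ∈ l ∧ p ∈ l') = {p} := by
        ext l'
        simp only [Finset.mem_filter, Finset.mem_univ, true_and, Finset.mem_singleton]
        constructor
        · intro h
          exact hu l' h
        · rintro rfl
          exact hp
      rw [this]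
      simp

/-- For every odd prime `p` there are point and line types of size `p^2+p+1` with incidence data. -/
theorem exists_plane (p : ℕ) (hp : p.Prime) (hodd : Odd p) :
    ∃ (P : Type) (_ : Fintype P) (_ : DecidableEq P), Fintype.card P = p ^ 2 + p + 1 ∧
      Nonempty (PD P P p) := by
  classical
  have : Fact p.Prime := ⟨hp⟩
  let K := ZMod p
  let PP := Projectivization K (Fin 3 → K)
  have : Finite PP := inferInstance
  letI : Fintype PP := Fintype.ofFinite PP
  have hcard : Nat.card PP = p ^ 2 + p + 1 := by
    rw [Projectivization.card_of_finrank K (Fin 3 → K) (n := 3) (by simp)]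
    simp only [Finset.sum_range_succ, Finset.sum_range_zero, Nat.card_zmod, K]
    ring
  have hord : ProjectivePlane.order PP PP = p := by
    have h1 := ProjectivePlane.card_points PP PP
    rw [← Nat.card_eq_fintype_card, hcard] at h1
    nlinarith [h1]
  exact ⟨PP, inferInstance, inferInstance, by rw [← Nat.card_eq_fintype_card, hcard],
    exists_PD PP PP p hord hodd⟩

end Pool.Agent.helper78.HP
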