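import Pool.Agent.helper78.HP.Perm
import Pool.Agent.helper78.HP.Hide
import Pool.Agent.helper78.HP.PlaneInst

/-!
Cardinalities, the concrete hidden data and the concrete colour tests.
-/

set_option autoImplicit false
set_option linter.unusedSectionVars false

namespace Pool.Agent.helper78.HP

/-- the identity data on an initial segment -/
def hidN (N m : ℕ) (hN : N ≤ m) : Hid (Fin N) m where
  hd x τ := match τ with
    | .T i => if x.val = i.val then 1 else 0
    | .U j => if x.val < j.val then 1 else 0
  sum x s := by
    rcases s with i | _ | _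
    · simp only [Fin.sum_univ_three, sl, eps]
      change (if x.val < i.val then (1 : F2) else 0) + (if x.val = i.val then 1 else 0) +
        (if x.val < i.val + 1 then 1 else 0) = 0
      rcases lt_trichotomy x.val i.val with h1 | h1 | h1
      · rw [if_pos h1, if_neg h1.ne, if_pos (by omega)]
        decide
      · rw [if_neg (by omega), if_pos h1, if_pos (by omega)]
        decide
      · rw [if_neg (by omega), if_neg h1.ne', if_neg (by omega)]
        decide
    · simp [Fin.sum_univ_three, sl, eps]
    · simp only [Fin.sum_univ_three, sl, eps]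
      change (if x.val < m then (1 : F2) else 0) + 0 + 0 = 1
      rw [if_pos (by have := x.2; omega)]
      decide
  prod x y i hxy := by
    by_cases h1 : x.val = i.val
    · have : y.val ≠ i.val := fun h2 => hxy (Fin.ext (h1.trans h2.symm))
      simp [this]
    · simp [h1]

/-- tests from a code -/
def tstOf (B0 : ℕ) (hB : 2 ≤ B0) {C : Type} (code : C → Fin B0 → Bool)
    (hc : Function.Injective code) : Tst (2 * B0 + 3) C where
  tst i γ := ∃ j : Fin B0, (i.val = 3 + 2 * j.val ∧ code γ j = true) ∨
    (i.val = 4 + 2 * j.val ∧ code γ j = false)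
  sep γ γ' hh := by
    apply hc
    funext j
    have h1 : ∀ γ : C, (∃ j' : Fin B0, ((⟨3 + 2 * j.val, by have := j.2; omega⟩ :
        Fin (2 * B0 + 3)).val = 3 + 2 * j'.val ∧ code γ j' = true) ∨
        ((⟨3 + 2 * j.val, by have := j.2; omega⟩ :
        Fin (2 * B0 + 3)).val = 4 + 2 * j'.val ∧ code γ j' = false)) ↔ code γ j = true := by
      intro γ
      constructor
      · rintro ⟨j', ⟨h1, h2⟩ | ⟨h1, h2⟩⟩
        · have : j = j' := Fin.ext (by simp only at h1; omega)
          rw [this]
          exact h2
        · simp only at h1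
          omega
      · intro h2
        exact ⟨j, Or.inl ⟨rfl, h2⟩⟩
    have h2 := hh ⟨3 + 2 * j.val, by have := j.2; omega⟩
    rw [h1, h1] at h2
    exact Bool.eq_iff_iff.mpr h2
  two γ := by
    have h1 : ∀ j : Fin B0, ∃ i : Fin (2 * B0 + 3), (i.val = 3 + 2 * j.val ∨
        i.val = 4 + 2 * j.val) ∧ ∃ j : Fin B0, (i.val = 3 + 2 * j.val ∧ code γ j = true) ∨
        (i.val = 4 + 2 * j.val ∧ code γ j = false) := by
      intro j
      cases hj : code γ j with
      | true => exact ⟨⟨3 + 2 * j.val, by have := j.2; omega⟩, Or.inl rfl, j, Or.inl ⟨rfl, hj⟩⟩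
      | false => exact ⟨⟨4 + 2 * j.val, by have := j.2; omega⟩, Or.inr rfl, j, Or.inr ⟨rfl, hj⟩⟩
    obtain ⟨i0, h2, h3⟩ := h1 ⟨0, by omega⟩
    obtain ⟨i1, h4, h5⟩ := h1 ⟨1, by omega⟩
    refine ⟨i0, i1, ?_, h3, h5⟩
    intro hh
    rw [hh] at h2
    simp only at h2 h4
    omega
  low i γ := by
    rintro ⟨j, ⟨h1, -⟩ | ⟨h1, -⟩⟩ <;> omega
  big := by omega

section card

variable {X V E : Type} {m : ℕ} [Fintype X] [Fintype V] [Fintype E]

lemma card_Lb : Fintype.card (Lb m) ≤ 2 * m + 1 := by
  have : Fintype.card (Lb m) ≤ Fintype.card (Fin m ⊕ Fin (m + 1)) := by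
    refine Fintype.card_le_of_injective (fun r => match r with | .T i => .inl i | .U i => .inr i) ?_
    intro r r' hr
    cases r <;> cases r' <;> simp_all
  simp only [Fintype.card_sum, Fintype.card_fin] at this
  omega

lemma card_Sm : Fintype.card (Sm m) ≤ m + 2 := by
  have : Fintype.card (Sm m) ≤ Fintype.card (Fin m ⊕ Bool) := by
    refine Fintype.card_le_of_injective (fun r => match r with
      | .ch i => .inl i | .fst => .inr false | .lst => .inr true) ?_
    intro r r' hr
    cases r <;> cases r' <;> simp_all
  simpa using this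

lemma card_Kp : Fintype.card (Kp m V) ≤ 2 * m + 1 + m * Fintype.card V := by
  have : Fintype.card (Kp m V) ≤ Fintype.card (Lb m ⊕ (Fin m × V)) := by
    refine Fintype.card_le_of_injective (fun r => match r with
      | .a τ => .inl τ | .b i v => .inr (i, v)) ?_
    intro r r' hr
    cases r <;> cases r' <;> simp_all
  simp only [Fintype.card_sum, Fintype.card_prod, Fintype.card_fin] at this
  have := card_Lb (m := m)
  omega

lemma card_Col : Fintype.card (Col m V E) ≤ 1 + Fintype.card (Kp m V) +
    Fintype.card (Kp m V) * Fintype.card V + Fintype.card (Kp m V) * Fintype.card E +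
    (m + 2) * Fintype.card V := by
  have : Fintype.card (Col m V E) ≤
      Fintype.card (Unit ⊕ Kp m V ⊕ (Kp m V × V) ⊕ (Kp m V × E) ⊕ (Sm m × V)) := by
    refine Fintype.card_le_of_injective (fun r => match r with
      | .X => .inl ()
      | .B κ => .inr (.inl κ)
      | .P κ v => .inr (.inr (.inl (κ, v)))
      | .G κ e => .inr (.inr (.inr (.inl (κ, e))))
      | .S s v => .inr (.inr (.inr (.inr (s, v))))) ?_
    intro r r' hr
    cases r <;> cases r' <;> simp_all
  simp only [Fintype.card_sum, Fintype.card_prod, Fintype.card_unit] at this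
  have h2 := Nat.mul_le_mul_right (Fintype.card V) (card_Sm (m := m))
  omega

lemma card_Sy : Fintype.card (Sy X m V) ≤ Fintype.card X * (2 * m + 1) +
    Fintype.card X * (Fintype.card X * (m * (Fintype.card V * 2))) := by
  have : Fintype.card (Sy X m V) ≤ Fintype.card ((X × Lb m) ⊕ (X × X × Fin m × V × F2)) := by
    refine Fintype.card_le_of_injective (fun r => match r with
      | .a x τ => .inl (x, τ) | .b x y i v c => .inr (x, y, i, v, c)) ?_
    intro r r' hr
    cases r <;> cases r' <;> simp_all
  simp only [Fintype.card_sum, Fintype.card_prod, Fintype.card_fin, ZMod.card] at this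
  have h2 := Nat.mul_le_mul_left (Fintype.card X) (card_Lb (m := m))
  omega

lemma card_Vx : Fintype.card (Vx X m V E) ≤ Fintype.card X + Fintype.card (Sy X m V) +
    Fintype.card (Sy X m V) * (Fintype.card V * 2) +
    Fintype.card (Sy X m V) * (Fintype.card E * 8) +
    Fintype.card X * ((m + 2) * (Fintype.card V * 8)) := by
  have : Fintype.card (Vx X m V E) ≤
      Fintype.card (X ⊕ Sy X m V ⊕ (Sy X m V × V × F2) ⊕ (Sy X m V × E × (Fin 3 → F2)) ⊕
        (X × Sm m × V × (Fin 3 → F2))) := by
    refine Fintype.card_le_of_injective (fun r => match r with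
      | .X x => .inl x
      | .B κ => .inr (.inl κ)
      | .P κ v c => .inr (.inr (.inl (κ, v, c)))
      | .G κ e α => .inr (.inr (.inr (.inl (κ, e, α))))
      | .S x s v α => .inr (.inr (.inr (.inr (x, s, v, α))))) ?_
    intro r r' hr
    cases r <;> cases r' <;> simp_all
  simp only [Fintype.card_sum, Fintype.card_prod, Fintype.card_pi, ZMod.card, Finset.prod_const,
    Finset.card_univ, Fintype.card_fin] at this
  have h2 := Nat.mul_le_mul_left (Fintype.card X)
    (Nat.mul_le_mul_right (Fintype.card V * 8) (card_Sm (m := m)))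
  norm_num at this
  omega

end card

end Pool.Agent.helper78.HP
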