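import Mathlib

/-!
Core definitions for the hidden permutation graphs (problem MP_5f3fa1_lc).
-/

set_option autoImplicit false

namespace Pool.Agent.helper78.HP

abbrev F2 := ZMod 2

/-- Abstract linear system over F2: every equation has at most three variables. -/
structure LinSys (V E : Type) where
  inc : E → Fin 3 → Option V
  inj : ∀ e k k' v, inc e k = some v → inc e k' = some v → k = k'
  ne : ∀ e, ∃ k v, inc e k = some v
  e0 : E

/-- evaluation at an optional variable -/
def ev {V : Type} (κ : V → F2) : Option V → F2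
  | none => 0
  | some v => κ v

@[simp] lemma ev_none {V : Type} (κ : V → F2) : ev κ none = 0 := rfl
@[simp] lemma ev_some {V : Type} (κ : V → F2) (v : V) : ev κ (some v) = κ v := rfl

/-- left hand sides of the equations -/
def LinSys.D {V E : Type} (Y : LinSys V E) (κ : V → F2) (e : E) : F2 :=
  ∑ k : Fin 3, ev κ (Y.inc e k)

/-- canonical twist -/
def LinSys.t0 {V E : Type} [DecidableEq E] (Y : LinSys V E) (e : E) : F2 :=
  if e = Y.e0 then 1 else 0

/-- labels of the systems of the first layer -/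
inductive Lb (m : ℕ)
  | T (i : Fin m)
  | U (j : Fin (m + 1))
  deriving DecidableEq, Fintype

/-- labels of sum relations -/
inductive Sm (m : ℕ)
  | ch (i : Fin m)
  | fst
  | lst
  deriving DecidableEq, Fintype

/-- slots of sum relations -/
def sl {m : ℕ} : Sm m → Fin 3 → Option (Lb m)
  | .ch i => ![some (.U i.castSucc), some (.T i), some (.U i.succ)]
  | .fst => ![some (.U 0), none, none]
  | .lst => ![some (.U (Fin.last m)), none, none]

def eps {m : ℕ} : Sm m → F2
  | .ch _ => 0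
  | .fst => 0
  | .lst => 1

/-- systems: first layer `a x τ`, second layer `b x y i v c`, where `(x, T i, v, c)` is a point of
the first layer and `y` another element -/
inductive Sy (X : Type) (m : ℕ) (V : Type)
  | a (x : X) (τ : Lb m)
  | b (x y : X) (i : Fin m) (v : V) (c : F2)
  deriving DecidableEq, Fintype

inductive Vx (X : Type) (m : ℕ) (V E : Type)
  | X (x : X)
  | B (σ : Sy X m V)
  | P (σ : Sy X m V) (v : V) (c : F2)
  | G (σ : Sy X m V) (e : E) (α : Fin 3 → F2)
  | S (x : X) (s : Sm m) (v : V) (α : Fin 3 → F2)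
  deriving DecidableEq, Fintype

/-- colours of systems -/
inductive Kp (m : ℕ) (V : Type)
  | a (τ : Lb m)
  | b (i : Fin m) (v : V)
  deriving DecidableEq, Fintype

inductive Col (m : ℕ) (V E : Type)
  | X
  | B (κ : Kp m V)
  | P (κ : Kp m V) (v : V)
  | G (κ : Kp m V) (e : E)
  | S (s : Sm m) (v : V)
  deriving DecidableEq, Fintype

def Sy.kol {X V : Type} {m : ℕ} : Sy X m V → Kp m V
  | .a _ τ => .a τ
  | .b _ _ i v _ => .b i v

def Vx.col {X V E : Type} {m : ℕ} : Vx X m V E → Col m V E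
  | .X _ => .X
  | .B σ => .B σ.kol
  | .P σ v _ => .P σ.kol v
  | .G σ e _ => .G σ.kol e
  | .S _ s v _ => .S s v

/-- hidden data: a hidden 0/1 matrix with odd rows and disjoint columns, together with the
partial row sums -/
structure Hid (X : Type) (m : ℕ) where
  hd : X → Lb m → F2
  sum : ∀ x s, ∑ k : Fin 3, ev (hd x) (sl s k) = eps s
  prod : ∀ x y i, x ≠ y → hd x (.T i) * hd y (.T i) = 0

def Sy.ok {X V : Type} {m : ℕ} : Sy X m V → Prop
  | .a _ _ => True
  | .b x y _ _ _ => x ≠ y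

def Hid.hid {X V : Type} {m : ℕ} (h : Hid X m) : Sy X m V → F2
  | .a x τ => h.hd x τ
  | .b _ y i _ c => c * h.hd y (.T i)

/-- vertices that are present -/
def ok {X V E : Type} {m : ℕ} [DecidableEq E] (Y : LinSys V E) (h : Hid X m) :
    Vx X m V E → Prop
  | .X _ => True
  | .B σ => σ.ok
  | .P σ _ _ => σ.ok
  | .G σ e α => σ.ok ∧ (∀ k, Y.inc e k = none → α k = 0) ∧ ∑ k, α k = h.hid σ * Y.t0 e
  | .S _ s _ α => (∀ k, sl s k = none → α k = 0) ∧ ∑ k, α k = 0

/-- directed adjacency -/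
def E1 {X V E : Type} {m : ℕ} (Y : LinSys V E) : Vx X m V E → Vx X m V E → Prop
  | .B (.a x _), .X x' => x' = x
  | .B (.b _ y _ _ _), .X x' => x' = y
  | .B (.b x _ i v c), .P σ v' c' => σ = .a x (.T i) ∧ v' = v ∧ c' = c
  | .P σ _ _, .B σ' => σ' = σ
  | .G σ e α, .P σ' v c => σ' = σ ∧ ∃ k, Y.inc e k = some v ∧ α k = c
  | .S x s v α, .P σ v' c => v' = v ∧ ∃ k τ, sl s k = some τ ∧ σ = .a x τ ∧ α k = c
  | .P (.b x y i v c) w z, .P (.b x' y' i' v' c') w' z' =>
      x' = y ∧ y' = x ∧ i' = i ∧ v' = w ∧ w' = v ∧ z + z' = c * c'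
  | _, _ => False

/-- the ruler -/
inductive RR (b : ℕ)
  | om
  | rho (i : Fin b)
  deriving DecidableEq, Fintype

def rAdj {b : ℕ} : RR b → RR b → Prop
  | .om, .rho i => 1 ≤ i.val
  | .rho i, .om => 1 ≤ i.val
  | .rho i, .rho j => i.val + 1 = j.val ∨ j.val + 1 = i.val
  | _, _ => False

/-- colour tests: the ruler vertex `rho i` is joined to the vertices `w` with `tst i (col w)` -/
structure Tst (b : ℕ) (C : Type) where
  tst : Fin b → C → Prop
  sep : ∀ γ γ', (∀ i, tst i γ ↔ tst i γ') → γ = γ'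
  two : ∀ γ, ∃ i j, i ≠ j ∧ tst i γ ∧ tst j γ
  low : ∀ i γ, tst i γ → 3 ≤ i.val
  big : 5 ≤ b

def rA {b : ℕ} {C : Type} (t : Tst b C) : RR b → C → Prop
  | .rho i, γ => t.tst i γ
  | .om, _ => False

section graph

variable {X V E : Type} {m b : ℕ} [DecidableEq E]

/-- vertex type of the graph -/
abbrev VT (Y : LinSys V E) (h : Hid X m) (b : ℕ) : Type := RR b ⊕ {w : Vx X m V E // ok Y h w}

def adjT (Y : LinSys V E) (h : Hid X m) (t : Tst b (Col m V E)) : VT Y h b → VT Y h b → Prop
  | .inl r, .inl r' => rAdj r r'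
  | .inl r, .inr w => rA t r w.1.col
  | .inr w, .inl r => rA t r w.1.col
  | .inr w, .inr w' => E1 Y w.1 w'.1 ∨ E1 Y w'.1 w.1

lemma rAdj_symm {r r' : RR b} (h : rAdj r r') : rAdj r' r := by
  cases r <;> cases r' <;> simp_all [rAdj] <;> omega

lemma rAdj_irrefl (r : RR b) : ¬ rAdj r r := by
  cases r <;> simp [rAdj]

lemma E1_irrefl (Y : LinSys V E) (h : Hid X m) (w : Vx X m V E) (hw : ok Y h w) :
    ¬ E1 Y w w := by
  rcases w with x | σ | ⟨σ, v, c⟩ | ⟨σ, e, α⟩ | ⟨x, s, v, α⟩
  · simp [E1]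
  · cases σ <;> simp [E1]
  · rcases σ with ⟨x, τ⟩ | ⟨x, y, i, u, c'⟩
    · simp [E1]
    · simp only [E1, ok, Sy.ok] at *
      rintro ⟨h1, -⟩
      exact hw h1
  · simp [E1]
  · simp [E1]

/-- the hidden permutation graph -/
def gr (Y : LinSys V E) (h : Hid X m) (t : Tst b (Col m V E)) : SimpleGraph (VT Y h b) where
  Adj := adjT Y h t
  symm := ⟨fun u v huv => by
    rcases u with r | w <;> rcases v with r' | w'
    · exact rAdj_symm huv
    · exact huv
    · exact huv
    · exact Or.symm huv⟩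
  loopless := ⟨fun u hu => by
    rcases u with r | w
    · exact rAdj_irrefl r hu
    · rcases hu with hu | hu
      · exact E1_irrefl Y h w.1 w.2 hu
      · exact E1_irrefl Y h w.1 w.2 hu⟩

end graph

end Pool.Agent.helper78.HP
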