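import Pool.Agent.helper78.HP.Asym

/-!
The counting game between a hidden permutation graph and another graph, after the ruler has been
pebbled.
-/

set_option autoImplicit false
set_option linter.unusedSectionVars false

namespace Pool.Agent.helper78.HP

/-- families for the counting game -/
structure CGame {A B : Type} [DecidableEq (A × B)] (G : SimpleGraph A) (H : SimpleGraph B)
    (k : ℕ) (F : Set (Finset (A × B))) : Prop where
  empty : ∅ ∈ F
  card : ∀ p ∈ F, p.card ≤ k
  iso : ∀ p ∈ F, ∀ x ∈ p, ∀ y ∈ p, (x.1 = y.1 ↔ x.2 = y.2) ∧ (G.Adj x.1 y.1 ↔ H.Adj x.2 y.2)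
  sub : ∀ p ∈ F, ∀ q, q ⊆ p → q ∈ F
  ext : ∀ p ∈ F, p.card < k → ∃ f : A ≃ B, ∀ a, insert (a, f a) p ∈ F

section fam

variable {A B : Type} [DecidableEq (A × B)] {G : SimpleGraph A} {H : SimpleGraph B} {k : ℕ}
  {F : Set (Finset (A × B))}

lemma CGame.push (hF : CGame G H k F) [Nonempty B] (s : Finset (A × B)) (hs : s ∈ F)
    {ι : Type} [DecidableEq ι] (g : ι → A) (I : Finset ι) (hc : s.card + I.card ≤ k) :
    ∃ h : ι → B, s ∪ I.image (fun i => (g i, h i)) ∈ F := by
  induction I using Finset.induction_on with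
  | empty => exact ⟨fun _ => Classical.arbitrary B, by simpa using hs⟩
  | insert j I hj ih =>
    rw [Finset.card_insert_of_notMem hj] at hc
    obtain ⟨h, hh⟩ := ih (by omega)
    have h1 := Finset.card_union_le s (I.image fun i => (g i, h i))
    have h2 : (I.image fun i => (g i, h i)).card ≤ I.card := Finset.card_image_le
    obtain ⟨f, hf⟩ := hF.ext _ hh (by omega)
    refine ⟨Function.update h j (f (g j)), ?_⟩
    have := hf (g j)
    convert this using 1
    rw [Finset.image_insert, Finset.union_insert, Function.update_self]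
    congr 2
    apply Finset.image_congr
    intro i hi
    have : i ≠ j := by rintro rfl; exact hj hi
    simp [this]

lemma CGame.pull (hF : CGame G H k F) [Nonempty A] (s : Finset (A × B)) (hs : s ∈ F)
    {ι : Type} [DecidableEq ι] (h : ι → B) (I : Finset ι) (hc : s.card + I.card ≤ k) :
    ∃ g : ι → A, s ∪ I.image (fun i => (g i, h i)) ∈ F := by
  induction I using Finset.induction_on with
  | empty => exact ⟨fun _ => Classical.arbitrary A, by simpa using hs⟩
  | insert j I hj ih =>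
    rw [Finset.card_insert_of_notMem hj] at hc
    obtain ⟨g, hg⟩ := ih (by omega)
    have h1 := Finset.card_union_le s (I.image fun i => (g i, h i))
    have h2 : (I.image fun i => (g i, h i)).card ≤ I.card := Finset.card_image_le
    obtain ⟨f, hf⟩ := hF.ext _ hg (by omega)
    refine ⟨Function.update g j (f.symm (h j)), ?_⟩
    have := hf (f.symm (h j))
    rw [Equiv.apply_symm_apply] at this
    convert this using 1
    rw [Finset.image_insert, Finset.union_insert, Function.update_self]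
    congr 2
    apply Finset.image_congr
    intro i hi
    have : i ≠ j := by rintro rfl; exact hj hi
    simp [this]

end fam

section

variable {X V E : Type} {m b : ℕ} [DecidableEq E]
variable {Y : LinSys V E} {h : Hid X m} {t : Tst b (Col m V E)}
variable {B : Type} [DecidableEq (VT Y h b × B)] {H : SimpleGraph B}
  {F : Set (Finset (VT Y h b × B))}

/-- colour of a vertex of the given graph -/
def cG (γ : Col m V E) (a : VT Y h b) : Prop := ∃ w, a = .inr w ∧ w.1.col = γ

/-- colour of a vertex of the other graph, relative to the images of the ruler -/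
def cH (t : Tst b (Col m V E)) (H : SimpleGraph B) (ρ : RR b → B) (γ : Col m V E) (u : B) : Prop :=
  (∀ r, u ≠ ρ r) ∧ ∀ i, H.Adj (ρ (.rho i)) u ↔ t.tst i γ

lemma cH_unique {ρ : RR b → B} {γ γ' : Col m V E} {u : B} (h1 : cH t H ρ γ u)
    (h2 : cH t H ρ γ' u) : γ = γ' := by
  apply t.sep
  intro i
  rw [← h1.2 i, ← h2.2 i]

lemma cG_iff (γ : Col m V E) (a : VT Y h b) :
    cG γ a ↔ (∀ r, a ≠ .inl r) ∧ ∀ i, (gr Y h t).Adj (.inl (.rho i)) a ↔ t.tst i γ := by
  constructor
  · rintro ⟨w, rfl, rfl⟩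
    refine ⟨by simp, fun i => Iff.rfl⟩
  · rintro ⟨h1, h2⟩
    rcases a with r | w
    · exact (h1 r rfl).elim
    · refine ⟨w, rfl, t.sep _ _ fun i => ?_⟩
      rw [← h2 i]
      rfl

/-- the position given by the ruler and a family of pairs -/
def Mt (F : Set (Finset (VT Y h b × B))) (ρ : RR b → B) {ι : Type} [Fintype ι]
    (g : ι → VT Y h b) (u : ι → B) : Prop :=
  (Finset.univ.image (fun r => ((.inl r : VT Y h b), ρ r)) ∪
    Finset.univ.image (fun i => (g i, u i))) ∈ F

variable {ρ : RR b → B}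

lemma mt_iso {k : ℕ} (hF : CGame (gr Y h t) H k F) {ι : Type} [Fintype ι]
    {g : ι → VT Y h b} {u : ι → B} (hm : Mt F ρ g u) (i j : ι) :
    (g i = g j ↔ u i = u j) ∧ ((gr Y h t).Adj (g i) (g j) ↔ H.Adj (u i) (u j)) := by
  have h1 : (g i, u i) ∈ (Finset.univ.image (fun r => ((.inl r : VT Y h b), ρ r)) ∪
    Finset.univ.image (fun i => (g i, u i))) :=
      Finset.mem_union_right _ (Finset.mem_image_of_mem (fun i => (g i, u i)) (Finset.mem_univ i))
  have h2 : (g j, u j) ∈ (Finset.univ.image (fun r => ((.inl r : VT Y h b), ρ r)) ∪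
    Finset.univ.image (fun i => (g i, u i))) :=
      Finset.mem_union_right _ (Finset.mem_image_of_mem (fun i => (g i, u i)) (Finset.mem_univ j))
  exact hF.iso _ hm _ h1 _ h2

lemma mt_iso_r {k : ℕ} (hF : CGame (gr Y h t) H k F) {ι : Type} [Fintype ι]
    {g : ι → VT Y h b} {u : ι → B} (hm : Mt F ρ g u) (r : RR b) (j : ι) :
    ((.inl r : VT Y h b) = g j ↔ ρ r = u j) ∧
      ((gr Y h t).Adj (.inl r) (g j) ↔ H.Adj (ρ r) (u j)) := by
  have h1 : ((.inl r : VT Y h b), ρ r) ∈
    (Finset.univ.image (fun r => ((.inl r : VT Y h b), ρ r)) ∪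
    Finset.univ.image (fun i => (g i, u i))) := by simp
  have h2 : (g j, u j) ∈ (Finset.univ.image (fun r => ((.inl r : VT Y h b), ρ r)) ∪
    Finset.univ.image (fun i => (g i, u i))) :=
      Finset.mem_union_right _ (Finset.mem_image_of_mem (fun i => (g i, u i)) (Finset.mem_univ j))
  exact hF.iso _ hm _ h1 _ h2

lemma mt_col {k : ℕ} (hF : CGame (gr Y h t) H k F) {ι : Type} [Fintype ι]
    {g : ι → VT Y h b} {u : ι → B} (hm : Mt F ρ g u) (γ : Col m V E) (i : ι) :
    cG γ (g i) ↔ cH t H ρ γ (u i) := by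
  rw [cG_iff (t := t)]
  unfold cH
  constructor
  · rintro ⟨h1, h2⟩
    refine ⟨fun r hr => h1 r ((mt_iso_r hF hm r i).1.mpr hr.symm).symm, fun j => ?_⟩
    rw [← h2 j]
    exact (mt_iso_r hF hm (.rho j) i).2.symm
  · rintro ⟨h1, h2⟩
    refine ⟨fun r hr => h1 r ((mt_iso_r hF hm r i).1.mp hr.symm).symm, fun j => ?_⟩
    rw [← h2 j]
    exact (mt_iso_r hF hm (.rho j) i).2

lemma card_RR (b : ℕ) : Fintype.card (RR b) ≤ b + 1 := by
  have : Fintype.card (RR b) ≤ Fintype.card (Option (Fin b)) := by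
    refine Fintype.card_le_of_injective (fun r => match r with | .om => none | .rho i => some i) ?_
    intro r r' hr
    cases r <;> cases r' <;> simp_all
  simpa using this

lemma mt_card {ι : Type} [Fintype ι] (g : ι → VT Y h b) (u : ι → B) :
    (Finset.univ.image (fun r => ((.inl r : VT Y h b), ρ r)) ∪
    Finset.univ.image (fun i => (g i, u i))).card ≤ b + 1 + Fintype.card ι := by
  refine le_trans (Finset.card_union_le _ _) (Nat.add_le_add ?_ ?_)
  · refine le_trans Finset.card_image_le ?_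
    rw [Finset.card_univ]
    exact card_RR b
  · refine le_trans Finset.card_image_le ?_
    rw [Finset.card_univ]

lemma mt_push {c : ℕ} (hF : CGame (gr Y h t) H (b + 1 + c) F) {ι₀ ι : Type} [Fintype ι₀]
    [Fintype ι] {g₀ : ι₀ → VT Y h b} {u₀ : ι₀ → B} (hm : Mt F ρ g₀ u₀) (g : ι → VT Y h b)
    (hc : Fintype.card ι₀ + Fintype.card ι ≤ c) :
    ∃ u : ι → B, Mt F ρ (Sum.elim g₀ g) (Sum.elim u₀ u) := by
  classical
  have : Nonempty B := ⟨ρ .om⟩
  have h1 := mt_card (ρ := ρ) g₀ u₀
  obtain ⟨u, hu⟩ := hF.push _ hm g Finset.univ (by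
    rw [Finset.card_univ]
    omega)
  refine ⟨u, ?_⟩
  unfold Mt
  convert hu using 1
  ext ⟨x, y⟩
  simp only [Finset.mem_union, Finset.mem_image, Finset.mem_univ, true_and, Sum.exists,
    Sum.elim_inl, Sum.elim_inr, or_assoc]

lemma mt_pull {c : ℕ} (hF : CGame (gr Y h t) H (b + 1 + c) F) {ι₀ ι : Type} [Fintype ι₀]
    [Fintype ι] {g₀ : ι₀ → VT Y h b} {u₀ : ι₀ → B} (hm : Mt F ρ g₀ u₀) (u : ι → B)
    (hc : Fintype.card ι₀ + Fintype.card ι ≤ c) :
    ∃ g : ι → VT Y h b, Mt F ρ (Sum.elim g₀ g) (Sum.elim u₀ u) := by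
  classical
  have : Nonempty (VT Y h b) := ⟨.inl .om⟩
  have h1 := mt_card (ρ := ρ) g₀ u₀
  obtain ⟨g, hg⟩ := hF.pull _ hm u Finset.univ (by
    rw [Finset.card_univ]
    omega)
  refine ⟨g, ?_⟩
  unfold Mt
  convert hg using 1
  ext ⟨x, y⟩
  simp only [Finset.mem_union, Finset.mem_image, Finset.mem_univ, true_and, Sum.exists,
    Sum.elim_inl, Sum.elim_inr, or_assoc]

/-- one more pebble, with a bijection -/
lemma mt_one {c : ℕ} (hF : CGame (gr Y h t) H (b + 1 + c) F) {ι : Type} [Fintype ι]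
    {g : ι → VT Y h b} {u : ι → B} (hm : Mt F ρ g u) (hc : Fintype.card ι < c) :
    ∃ f : VT Y h b ≃ B, ∀ a, (∀ γ, cG γ a ↔ cH t H ρ γ (f a)) ∧
      (∀ i, (gr Y h t).Adj (g i) a ↔ H.Adj (u i) (f a)) ∧ (∀ i, g i = a ↔ u i = f a) := by
  have h1 := mt_card (ρ := ρ) g u
  obtain ⟨f, hf⟩ := hF.ext _ hm (by omega)
  refine ⟨f, fun a => ?_⟩
  have h2 : Mt F ρ (Sum.elim g fun _ : Unit => a) (Sum.elim u fun _ : Unit => f a) := by
    unfold Mt
    convert hf a using 1
    ext ⟨x, y⟩
    simp only [Finset.mem_union, Finset.mem_image, Finset.mem_univ, true_and, Sum.exists,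
      Sum.elim_inl, Sum.elim_inr, Finset.mem_insert, Prod.mk.injEq, exists_const]
    constructor
    · rintro (h | h | h)
      · exact Or.inr (Or.inl h)
      · exact Or.inr (Or.inr h)
      · exact Or.inl ⟨h.1.symm, h.2.symm⟩
    · rintro (h | h | h)
      · exact Or.inr (Or.inr ⟨h.1.symm, h.2.symm⟩)
      · exact Or.inl h
      · exact Or.inr (Or.inl h)
  refine ⟨fun γ => mt_col hF h2 γ (.inr ()), fun i => (mt_iso hF h2 (.inl i) (.inr ())).2,
    fun i => (mt_iso hF h2 (.inl i) (.inr ())).1⟩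

/-- existence of the ruler position -/
lemma exists_ruler {c : ℕ} (hF : CGame (gr Y h t) H (b + 1 + c) F) [Nonempty B] :
    ∃ ρ : RR b → B, Mt F ρ (Empty.elim : Empty → VT Y h b) (Empty.elim : Empty → B) := by
  classical
  obtain ⟨u, hu⟩ := hF.push _ hF.empty (fun r : RR b => (.inl r : VT Y h b)) Finset.univ (by
    rw [Finset.card_univ, Finset.card_empty]
    have := card_RR b
    omega)
  refine ⟨u, ?_⟩
  unfold Mt
  simpa using hu

end

end Pool.Agent.helper78.HP
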