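import Pool.Agent.helper78.HP.Plane

/-!
Ghost solutions from a gap property, and the gap property of the plane system.
-/

set_option autoImplicit false
set_option linter.unusedSectionVars false

namespace Pool.Agent.helper78.HP

section ghost

variable {V E : Type} [Fintype V] [Fintype E] [DecidableEq V] [DecidableEq E]

/-- transpose of `D` -/
def LinSys.dT (Y : LinSys V E) (c : E → F2) (v : V) : F2 :=
  ∑ e, c e * ∑ k : Fin 3, if Y.inc e k = some v then 1 else 0

def wt {A : Type} [Fintype A] (c : A → F2) : ℕ := (Finset.univ.filter fun a => c a ≠ 0).card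

lemma LinSys.dual (Y : LinSys V E) (c : E → F2) (κ : V → F2) :
    ∑ e, c e * Y.D κ e = ∑ v, Y.dT c v * κ v := by
  unfold LinSys.dT LinSys.D
  have h1 : ∀ e k, ev κ (Y.inc e k) = ∑ v, (if Y.inc e k = some v then 1 else 0) * κ v := by
    intro e k
    cases h : Y.inc e k with
    | none => simp
    | some u => simp
  have h2 : ∀ v, (∑ e, c e * ∑ k : Fin 3, if Y.inc e k = some v then (1 : F2) else 0) * κ v =
      ∑ e, c e * ∑ k : Fin 3, (if Y.inc e k = some v then 1 else 0) * κ v := by
    intro v
    rw [Finset.sum_mul]
    apply Finset.sum_congr rfl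
    intro e _
    rw [mul_assoc, Finset.sum_mul]
  rw [Finset.sum_congr rfl fun v _ => h2 v, Finset.sum_comm]
  apply Finset.sum_congr rfl
  intro e _
  rw [← Finset.mul_sum, Finset.sum_comm]
  congr 1
  apply Finset.sum_congr rfl
  intro k _
  exact h1 e k

lemma F2_ne_zero {a : F2} (h : a ≠ 0) : a = 1 := by
  revert a; decide

/-- the gap property -/
structure Gap (Y : LinSys V E) (K s : ℕ) : Prop where
  gap : ∀ c : E → F2, wt c ≤ 2 * s → wt (Y.dT c) ≤ K → wt c ≤ s
  zero : ∀ c : E → F2, wt c ≤ 2 * s → (∀ v, Y.dT c v = 0) → ∀ e, c e = 0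
  pos : 1 ≤ s

def GVal (Y : LinSys V E) (s : ℕ) (P : Finset V) (κ : V → F2) : Prop :=
  ∀ c : E → F2, wt c ≤ s → (∀ v, v ∉ P → Y.dT c v = 0) → ∑ e, c e * (Y.D κ e + Y.t0 e) = 0

lemma wt_add {A : Type} [Fintype A] (c d : A → F2) : wt (fun a => c a + d a) ≤ wt c + wt d := by
  classical
  unfold wt
  refine le_trans (Finset.card_le_card ?_) (Finset.card_union_le _ _)
  intro a ha
  simp only [Finset.mem_filter, Finset.mem_univ, true_and, Finset.mem_union] at *
  by_contra hcon
  push Not at hcon
  rw [hcon.1, hcon.2] at ha
  simp at ha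

lemma dT_add (Y : LinSys V E) (c d : E → F2) (v : V) :
    Y.dT (fun e => c e + d e) v = Y.dT c v + Y.dT d v := by
  unfold LinSys.dT
  rw [← Finset.sum_add_distrib]
  apply Finset.sum_congr rfl
  intro e _
  ring

lemma GVal_sum (Y : LinSys V E) (P : Finset V) (κ κ' : V → F2) (h : ∀ v ∈ P, κ v = κ' v)
    (c : E → F2) (hc : ∀ v, v ∉ P → Y.dT c v = 0) :
    ∑ e, c e * (Y.D κ e + Y.t0 e) = ∑ e, c e * (Y.D κ' e + Y.t0 e) := by
  simp only [mul_add, Finset.sum_add_distrib]
  rw [Y.dual, Y.dual]
  congr 1
  apply Finset.sum_congr rfl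
  intro v _
  by_cases hv : v ∈ P
  · rw [h v hv]
  · rw [hc v hv]
    simp

def Gap.ghost {Y : LinSys V E} {K s : ℕ} (g : Gap Y K s) : Ghost Y K where
  Val := GVal Y s
  empty := by
    intro κ c hc hv
    have := g.zero c (by omega) (fun v => hv v (by simp))
    apply Finset.sum_eq_zero
    intro e _
    rw [this e, zero_mul]
  mono := by
    intro P P' κ hP hv c hc hcv
    exact hv c hc fun v hvP => hcv v fun h => hvP (hP h)
  congr := by
    intro P κ κ' h hv c hc hcv
    rw [← GVal_sum Y P κ κ' h c hcv]
    exact hv c hc hcv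
  ext := by
    intro P κ v hv hcard
    by_cases hvP : v ∈ P
    · refine ⟨κ, fun _ _ => rfl, ?_⟩
      rw [Finset.insert_eq_of_mem hvP]
      exact hv
    by_cases hex : ∃ c1 : E → F2, wt c1 ≤ s ∧ (∀ u, u ∉ insert v P → Y.dT c1 u = 0) ∧
        Y.dT c1 v ≠ 0
    · obtain ⟨c1, h1, h2, h3⟩ := hex
      -- choose the value at v
      set a : F2 := κ v + ∑ e, c1 e * (Y.D κ e + Y.t0 e) with ha
      set κ' : V → F2 := Function.update κ v a with hκ'
      have hagree : ∀ u ∈ P, κ u = κ' u := by
        intro u hu
        have : u ≠ v := by rintro rfl; exact hvP hu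
        rw [hκ', Function.update_of_ne this]
      have hc1 : ∑ e, c1 e * (Y.D κ' e + Y.t0 e) = 0 := by
        have hd : ∑ e, c1 e * Y.D κ' e = ∑ e, c1 e * Y.D κ e + (a + κ v) := by
          rw [Y.dual, Y.dual]
          have : ∀ u, Y.dT c1 u * κ' u = Y.dT c1 u * κ u + if u = v then a + κ v else 0 := by
            intro u
            by_cases huv : u = v
            · subst huv
              rw [F2_ne_zero h3]
              simp only [hκ', Function.update_self, if_true, one_mul]
              generalize κ u = b
              generalize a = d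
              revert b d
              decide
            · rw [if_neg huv, hκ', Function.update_of_ne huv, add_zero]
          rw [Finset.sum_congr rfl fun u _ => this u, Finset.sum_add_distrib]
          simp
        simp only [mul_add, Finset.sum_add_distrib] at ha ⊢
        rw [hd, ha]
        generalize κ v = x1
        generalize ∑ e, c1 e * Y.D κ e = x2
        generalize ∑ e, c1 e * Y.t0 e = x3
        revert x1 x2 x3
        decide
      refine ⟨κ', fun u hu => (hagree u hu).symm, ?_⟩
      intro c hc hcv
      by_cases hcv0 : Y.dT c v = 0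
      · have hcP : ∀ u, u ∉ P → Y.dT c u = 0 := by
          intro u hu
          by_cases huv : u = v
          · rw [huv, hcv0]
          · exact hcv u (by simp [huv, hu])
        rw [← GVal_sum Y P κ κ' hagree c hcP]
        exact hv c hc hcP
      · have hsum : ∀ u, u ∉ P → Y.dT (fun e => c e + c1 e) u = 0 := by
          intro u hu
          rw [dT_add]
          by_cases huv : u = v
          · rw [huv, F2_ne_zero hcv0, F2_ne_zero h3]
            exact F2_add_self 1
          · rw [hcv u (by simp [huv, hu]), h2 u (by simp [huv, hu]), add_zero]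
        have hw1 : wt (fun e => c e + c1 e) ≤ 2 * s := le_trans (wt_add c c1) (by omega)
        have hw2 : wt (Y.dT fun e => c e + c1 e) ≤ K := by
          refine le_trans (Finset.card_le_card (t := P) ?_) (le_of_lt hcard)
          intro u hu
          simp only [Finset.mem_filter, Finset.mem_univ, true_and] at hu
          by_contra hcon
          exact hu (hsum u hcon)
        have hw := g.gap _ hw1 hw2
        have h4 := hv _ hw hsum
        rw [GVal_sum Y P κ κ' hagree _ hsum] at h4
        simp only [add_mul, Finset.sum_add_distrib] at h4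
        rw [hc1, add_zero] at h4
        exact h4
    · refine ⟨κ, fun _ _ => rfl, ?_⟩
      intro c hc hcv
      apply hv c hc
      intro u hu
      by_cases huv : u = v
      · subst huv
        by_contra hcon
        exact hex ⟨c, hc, hcv, hcon⟩
      · exact hcv u (by simp [huv, hu])
  eq := by
    intro P κ e hv hP
    have h1 := hv (fun e' => if e' = e then 1 else 0) (by
      refine le_trans ?_ g.pos
      unfold wt
      refine le_trans (Finset.card_le_card (t := {e}) ?_) (by simp)
      intro e' he'
      simp only [ne_eq, ite_eq_right_iff, one_ne_zero, imp_false, not_not, Finset.mem_filter,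
        Finset.mem_univ, true_and] at he'
      simp [he']) (by
      intro v hvP
      unfold LinSys.dT
      apply Finset.sum_eq_zero
      intro e' _
      by_cases he : e' = e
      · subst he
        have : ∀ k, (if Y.inc e' k = some v then (1 : F2) else 0) = 0 := by
          intro k
          rw [if_neg]
          intro hk
          exact hvP (hP k v hk)
        simp [this]
      · simp [he])
    simp only [ite_mul, one_mul, zero_mul, Finset.sum_ite_eq', Finset.mem_univ, if_true] at h1
    generalize Y.D κ e = a at h1
    generalize Y.t0 e = b at h1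
    revert a b
    decide

end ghost

namespace PD

variable {P L : Type} [Fintype P] [Fintype L] [DecidableEq P] [DecidableEq L] {q : ℕ}
variable (A : PD P L q) (P0 : P) (l0 : L) (hq : 0 < q)

lemma dT_inr (c : EE L q → F2) (l : L) (j : Fin q) :
    (sys A P0 l0 hq).dT c (.inr (l, j)) = c (l, j.castSucc) + c (l, j.succ) := by
  classical
  -- evaluate by duality with the indicator of the variable
  have h := (sys A P0 l0 hq).dual c (fun v => if v = .inr (l, j) then 1 else 0)
  simp only [mul_ite, mul_one, mul_zero, Finset.sum_ite_eq', Finset.mem_univ, if_true] at h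
  rw [← h, Fintype.sum_prod_type]
  have hpv : ∀ p, pv (P := P) (L := L) (q := q) P0 (fun v => if v = .inr (l, j) then 1 else 0) p = 0 := by
    intro p
    unfold pv
    split_ifs <;> simp_all
  have huv : ∀ l' n, uv P0 (fun v : VV P L P0 q => if v = .inr (l, j) then (1 : F2) else 0) l' n =
      if l' = l ∧ n = j.val + 1 then 1 else 0 := by
    intro l' n
    unfold uv
    by_cases h1 : 0 < n ∧ n ≤ q
    · rw [dif_pos h1]
      beta_reduce
      by_cases h2 : l' = l ∧ n = j.val + 1
      · rw [if_pos h2, if_pos]
        obtain ⟨rfl, rfl⟩ := h2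
        simp
      · rw [if_neg h2, if_neg]
        intro h3
        apply h2
        simp only [Sum.inr.injEq, Prod.mk.injEq, Fin.ext_iff] at h3
        exact ⟨h3.1, by omega⟩
    · rw [dif_neg h1, if_neg]
      rintro ⟨-, rfl⟩
      have := j.2
      omega
  have hD : ∀ l' i, (sys A P0 l0 hq).D (fun v => if v = .inr (l, j) then 1 else 0) (l', i) =
      (if l' = l ∧ i = j.succ then 1 else 0) + (if l' = l ∧ i = j.castSucc then 1 else 0) := by
    intro l' i
    rw [D_eq, hpv, huv, huv, zero_add]
    congr 1
    · congr 1
      simp [Fin.ext_iff]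
    · congr 1
      simp [Fin.ext_iff]
  rw [Finset.sum_congr rfl fun l' _ => Finset.sum_congr rfl fun i _ => by rw [hD]]
  simp only [mul_add, Finset.sum_add_distrib, mul_ite, mul_one, mul_zero, ite_and]
  simp [add_comm]

lemma dT_inl (c : EE L q → F2) (p : {p : P // p ≠ P0}) :
    (sys A P0 l0 hq).dT c (.inl p) = ∑ l, ∑ i, if A.pt l i = p.1 then c (l, i) else 0 := by
  classical
  have h := (sys A P0 l0 hq).dual c (fun v => if v = .inl p then 1 else 0)
  simp only [mul_ite, mul_one, mul_zero, Finset.sum_ite_eq', Finset.mem_univ, if_true] at h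
  rw [← h, Fintype.sum_prod_type]
  have hpv : ∀ r, pv (P := P) (L := L) (q := q) P0 (fun v => if v = .inl p then 1 else 0) r =
      if r = p.1 then 1 else 0 := by
    intro r
    unfold pv
    by_cases h1 : r ≠ P0
    · rw [dif_pos h1]
      simp [Subtype.ext_iff]
    · rw [dif_neg h1, if_neg]
      push Not at h1
      rw [h1]
      exact fun h => p.2 h.symm
  have huv : ∀ l' n, uv P0 (fun v : VV P L P0 q => if v = .inl p then (1 : F2) else 0) l' n = 0 := by
    intro l' n
    unfold uv
    split_ifs <;> simp_all
  apply Finset.sum_congr rfl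
  intro l _
  apply Finset.sum_congr rfl
  intro i _
  rw [D_eq, hpv, huv, huv]
  simp

lemma gap_aux (K : ℕ) (hK : 1 ≤ K) (hqK : 4 * K ≤ q + 1) (c : EE L q → F2)
    (hc : wt c ≤ 2 * (2 * K ^ 2)) (hW : wt ((sys A P0 l0 hq).dT c) ≤ K) :
    wt c ≤ 2 * wt ((sys A P0 l0 hq).dT c) ^ 2 ∧
      (Finset.univ.filter fun l : L => ∃ i, c (l, i) ≠ 0).card ≤ wt ((sys A P0 l0 hq).dT c) := by
  classical
  have : Nonempty (Fin q) := ⟨⟨0, hq⟩⟩
  have : Nonempty L := ⟨l0⟩
  set W := wt ((sys A P0 l0 hq).dT c) with hWdef
  set T : Finset L := Finset.univ.filter fun l : L => ∃ i, c (l, i) ≠ 0 with hT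
  set F : Finset L := Finset.univ.filter fun l : L => ∀ i, c (l, i) ≠ 0 with hF
  set S : L → Finset (Fin (q + 1)) := fun l => Finset.univ.filter fun i => c (l, i) ≠ 0 with hS
  have hSU : (Finset.univ.filter fun x : L × Fin q =>
      (sys A P0 l0 hq).dT c (.inr x) ≠ 0).card ≤ W := by
    refine Finset.card_le_card_of_injOn Sum.inr ?_ (Sum.inr_injective.injOn)
    intro x hx
    simpa using hx
  have hSP : (Finset.univ.filter fun x : {p : P // p ≠ P0} =>
      (sys A P0 l0 hq).dT c (.inl x) ≠ 0).card ≤ W := by
    refine Finset.card_le_card_of_injOn Sum.inl ?_ (Sum.inl_injective.injOn)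
    intro x hx
    simpa using hx
  -- few full lines
  have hFc : F.card * (q + 1) ≤ wt c := by
    have : (F ×ˢ (Finset.univ : Finset (Fin (q + 1)))).card = F.card * (q + 1) := by
      rw [Finset.card_product, Finset.card_univ, Fintype.card_fin]
    rw [← this]
    apply Finset.card_le_card
    rintro ⟨l, i⟩ hx
    simp only [Finset.mem_product, Finset.mem_univ, and_true, hF, Finset.mem_filter, true_and] at hx
    simp [hx i]
  have hFK : F.card ≤ K := by
    have h1 : F.card * (4 * K) ≤ 2 * (2 * K ^ 2) :=
      le_trans (Nat.mul_le_mul_left _ hqK) (le_trans hFc hc)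
    have h2 : (4 * K) * F.card ≤ (4 * K) * K := by nlinarith
    exact Nat.le_of_mul_le_mul_left h2 (by omega)
  -- touched lines which are not full
  have hTF : (T \ F).card ≤ W := by
    refine le_trans ?_ hSU
    have hex : ∀ l ∈ T \ F, ∃ j : Fin q, (sys A P0 l0 hq).dT c (.inr (l, j)) ≠ 0 := by
      intro l hl
      by_contra hcon
      push Not at hcon
      have hconst : ∀ i : Fin (q + 1), c (l, i) = c (l, 0) := by
        intro i
        induction i using Fin.induction with
        | zero => rfl
        | succ j ih =>
          have := hcon j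
          rw [dT_inr] at this
          rw [← ih]
          generalize c (l, j.castSucc) = a at this
          generalize c (l, j.succ) = b at this
          revert a b
          decide
      simp only [hT, hF, Finset.mem_sdiff, Finset.mem_filter, Finset.mem_univ, true_and] at hl
      obtain ⟨⟨i, hi⟩, h2⟩ := hl
      apply h2
      intro i'
      rw [hconst i', ← hconst i]
      exact hi
    choose! f hf using hex
    refine Finset.card_le_card_of_injOn (fun l => (l, f l)) ?_ ?_
    · intro l hl
      simpa using hf l hl
    · intro l _ l' _ h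
      exact (Prod.mk.injEq _ _ _ _ ▸ h).1
  have hTc : T.card ≤ W + F.card := by
    have h1 : T ⊆ (T \ F) ∪ F := by
      intro x hx
      by_cases hxF : x ∈ F
      · exact Finset.mem_union_right _ hxF
      · exact Finset.mem_union_left _ (Finset.mem_sdiff.mpr ⟨hx, hxF⟩)
    have h2 := Finset.card_le_card h1
    have h3 := Finset.card_union_le (T \ F) F
    omega
  -- size of the support on a touched line
  have hSl : ∀ l ∈ T, (S l).card ≤ W + T.card := by
    intro l hl
    set A1 := (S l).filter fun i => A.pt l i = P0 with hA1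
    set A2 := (S l).filter fun i => ∃ h : A.pt l i ≠ P0,
      (sys A P0 l0 hq).dT c (.inl ⟨A.pt l i, h⟩) ≠ 0 with hA2
    set A3 := (S l).filter fun i => ∃ h : A.pt l i ≠ P0,
      (sys A P0 l0 hq).dT c (.inl ⟨A.pt l i, h⟩) = 0 with hA3
    have hcov : S l ⊆ A1 ∪ (A2 ∪ A3) := by
      intro i hi
      simp only [hA1, hA2, hA3, Finset.mem_union, Finset.mem_filter, hi, true_and]
      by_cases h : A.pt l i = P0
      · exact Or.inl h
      · right
        by_cases h2 : (sys A P0 l0 hq).dT c (.inl ⟨A.pt l i, h⟩) = 0
        · exact Or.inr ⟨h, h2⟩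
        · exact Or.inl ⟨h, h2⟩
    have h1 : A1.card ≤ 1 := by
      rw [Finset.card_le_one]
      intro i hi j hj
      simp only [hA1, Finset.mem_filter] at hi hj
      exact A.inj l (by rw [hi.2, hj.2])
    have h2 : A2.card ≤ W := by
      have e1 : (A2.image (A.pt l)).card = A2.card :=
        Finset.card_image_of_injective _ (A.inj l)
      rw [← e1]
      refine le_trans (Finset.card_le_card (t := (Finset.univ.filter fun x : {p : P // p ≠ P0} =>
        (sys A P0 l0 hq).dT c (.inl x) ≠ 0).image Subtype.val) ?_)
        (le_trans Finset.card_image_le hSP)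
      intro p hp
      obtain ⟨i, hi, rfl⟩ := Finset.mem_image.mp hp
      simp only [hA2, Finset.mem_filter] at hi
      obtain ⟨-, h, hd⟩ := hi
      exact Finset.mem_image.mpr ⟨⟨_, h⟩, by simpa using hd, rfl⟩
    have h3 : A3.card ≤ (T.erase l).card := by
      have hex : ∀ i ∈ A3, ∃ l' ∈ T.erase l, ∃ i', A.pt l' i' = A.pt l i := by
        intro i hi
        simp only [hA3, hS, Finset.mem_filter, Finset.mem_univ, true_and] at hi
        obtain ⟨hci, hne, hz⟩ := hi
        rw [dT_inl] at hz
        by_contra hcon
        push Not at hcon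
        have hone : ∀ l' i', (if A.pt l' i' = A.pt l i then c (l', i') else 0) =
            if (l', i') = (l, i) then (1 : F2) else 0 := by
          intro l' i'
          by_cases hpt : A.pt l' i' = A.pt l i
          · rw [if_pos hpt]
            by_cases hll : l' = l
            · subst hll
              have : i' = i := A.inj l' hpt
              subst this
              rw [if_pos rfl]
              exact F2_ne_zero hci
            · rw [if_neg (by simp [hll])]
              by_contra hcc
              refine hcon l' ?_ i' hpt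
              simp only [hT, Finset.mem_erase, Finset.mem_filter, Finset.mem_univ, true_and]
              exact ⟨hll, i', hcc⟩
          · rw [if_neg hpt, if_neg]
            intro h
            simp only [Prod.mk.injEq] at h
            rw [h.1, h.2] at hpt
            exact hpt rfl
        rw [Finset.sum_congr rfl fun l' _ => Finset.sum_congr rfl fun i' _ => hone l' i'] at hz
        rw [← Fintype.sum_prod_type'
          (f := fun l' i' => if (l', i') = (l, i) then (1 : F2) else 0)] at hz
        simp at hz
      choose! f hf g hg using hex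
      refine Finset.card_le_card_of_injOn f (fun i hi => hf i hi) ?_
      intro i hi j hj hij
      have hne : l ≠ f i := by
        have := hf i hi
        simp only [Finset.mem_erase] at this
        exact fun h => this.1 h.symm
      refine A.meet l (f i) hne i (g i) j (g j) (hg i hi).symm ?_
      rw [hij]
      exact (hg j hj).symm
    have h4 : (T.erase l).card + 1 = T.card := Finset.card_erase_add_one hl
    have h5 := Finset.card_le_card hcov
    have h6 := Finset.card_union_le A1 (A2 ∪ A3)
    have h7 := Finset.card_union_le A2 A3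
    omega
  have hFe : F.card = 0 := by
    rw [Finset.card_eq_zero]
    by_contra hcon
    obtain ⟨l, hl⟩ := Finset.nonempty_iff_ne_empty.mpr hcon
    simp only [hF, Finset.mem_filter, Finset.mem_univ, true_and] at hl
    have hlT : l ∈ T := by
      simp only [hT, Finset.mem_filter, Finset.mem_univ, true_and]
      exact ⟨0, hl 0⟩
    have hSu : S l = Finset.univ := by
      ext i
      simp [hS, hl i]
    have := hSl l hlT
    rw [hSu, Finset.card_univ, Fintype.card_fin] at this
    omega
  have hTW : T.card ≤ W := by omega
  refine ⟨?_, hTW⟩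
  have hwt : wt c ≤ ∑ l ∈ T, (S l).card := by
    rw [← Finset.card_sigma]
    refine Finset.card_le_card_of_injOn (fun x => ⟨x.1, x.2⟩) ?_ ?_
    · rintro ⟨l, i⟩ hx
      simp only [Finset.coe_filter, Finset.mem_univ, true_and, Set.mem_ofPred_eq] at hx
      simp only [Finset.coe_sigma, Set.mem_sigma_iff, Finset.mem_coe, hT, hS, Finset.mem_filter,
        Finset.mem_univ, true_and]
      exact ⟨⟨i, hx⟩, hx⟩
    · rintro ⟨l, i⟩ _ ⟨l', i'⟩ _ h
      simpa using h
  have hsum : ∑ l ∈ T, (S l).card ≤ T.card * (W + T.card) := by
    have := Finset.sum_le_card_nsmul T (fun l => (S l).card) (W + T.card) hSl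
    simpa using this
  calc wt c ≤ T.card * (W + T.card) := le_trans hwt hsum
    _ ≤ W * (W + W) := Nat.mul_le_mul hTW (by omega)
    _ = 2 * W ^ 2 := by ring

theorem gap (K : ℕ) (hK : 1 ≤ K) (hqK : 4 * K ≤ q + 1) : Gap (sys A P0 l0 hq) K (2 * K ^ 2) := by
  constructor
  · intro c hc hW
    refine le_trans (gap_aux A P0 l0 hq K hK hqK c hc hW).1 ?_
    exact Nat.mul_le_mul_left _ (Nat.pow_le_pow_left hW 2)
  · intro c hc hz e
    have hW0 : wt ((sys A P0 l0 hq).dT c) = 0 := by
      unfold wt
      rw [Finset.card_eq_zero, Finset.filter_eq_empty_iff]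
      intro v _
      simp [hz v]
    have h2 := (gap_aux A P0 l0 hq K hK hqK c hc (by omega)).2
    rw [hW0, Nat.le_zero, Finset.card_eq_zero, Finset.filter_eq_empty_iff] at h2
    by_contra hcon
    exact h2 (Finset.mem_univ e.1) ⟨e.2, hcon⟩
  · nlinarith [hK]

end PD

end Pool.Agent.helper78.HP
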