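import Pool.Agent.helper78.HP.Game

/-!
Identification, part 1: systems in the other graph have canonical coordinates.
-/

set_option autoImplicit false
set_option linter.unusedSectionVars false

namespace Pool.Agent.helper78.HP

section

variable {X V E : Type} {m b : ℕ} [DecidableEq E]
variable {Y : LinSys V E} {h : Hid X m} {t : Tst b (Col m V E)}
variable {B : Type} [DecidableEq (VT Y h b × B)] {H : SimpleGraph B}
  {F : Set (Finset (VT Y h b × B))} {ρ : RR b → B}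

/-- the vertices of the graph -/
def vX (Y : LinSys V E) (h : Hid X m) (b : ℕ) (x : X) : VT Y h b := .inr ⟨.X x, trivial⟩
def vB (Y : LinSys V E) (h : Hid X m) (b : ℕ) (σ : Sy X m V) (hσ : σ.ok) : VT Y h b :=
  .inr ⟨.B σ, hσ⟩
def vP (Y : LinSys V E) (h : Hid X m) (b : ℕ) (σ : Sy X m V) (hσ : σ.ok) (v : V) (c : F2) :
    VT Y h b := .inr ⟨.P σ v c, hσ⟩

lemma cX_iff (a : VT Y h b) : cG .X a ↔ ∃ x, a = vX Y h b x := by
  constructor
  · rintro ⟨⟨w, hw⟩, rfl, hcol⟩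
    obtain ⟨x, rfl⟩ := col_X hcol
    exact ⟨x, rfl⟩
  · rintro ⟨x, rfl⟩
    exact ⟨_, rfl, rfl⟩

lemma cB_iff (κ : Kp m V) (a : VT Y h b) :
    cG (.B κ) a ↔ ∃ σ hσ, a = vB Y h b σ hσ ∧ σ.kol = κ := by
  constructor
  · rintro ⟨⟨w, hw⟩, rfl, hcol⟩
    obtain ⟨σ, rfl, hk⟩ := col_B hcol
    exact ⟨σ, hw, rfl, hk⟩
  · rintro ⟨σ, hσ, rfl, rfl⟩
    exact ⟨_, rfl, rfl⟩

lemma cP_iff (κ : Kp m V) (v : V) (a : VT Y h b) :
    cG (.P κ v) a ↔ ∃ σ hσ c, a = vP Y h b σ hσ v c ∧ σ.kol = κ := by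
  constructor
  · rintro ⟨⟨w, hw⟩, rfl, hcol⟩
    obtain ⟨σ, c, rfl, hk⟩ := col_P hcol
    exact ⟨σ, hw, c, rfl, hk⟩
  · rintro ⟨σ, hσ, c, rfl, rfl⟩
    exact ⟨_, rfl, rfl⟩

lemma vX_inj {x x' : X} : vX Y h b x = vX Y h b x' ↔ x = x' :=
  ⟨fun hh => Vx.X.inj (congrArg Subtype.val (Sum.inr.inj hh)), fun hh => by rw [hh]⟩

lemma vB_inj {σ σ' : Sy X m V} {hσ : σ.ok} {hσ' : σ'.ok} :
    vB Y h b σ hσ = vB Y h b σ' hσ' ↔ σ = σ' :=
  ⟨fun hh => Vx.B.inj (congrArg Subtype.val (Sum.inr.inj hh)), by rintro rfl; rfl⟩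

lemma vP_inj {σ σ' : Sy X m V} {hσ : σ.ok} {hσ' : σ'.ok} {v v' : V} {c c' : F2} :
    vP Y h b σ hσ v c = vP Y h b σ' hσ' v' c' ↔ σ = σ' ∧ v = v' ∧ c = c' :=
  ⟨fun hh => Vx.P.inj (congrArg Subtype.val (Sum.inr.inj hh)), by rintro ⟨rfl, rfl, rfl⟩; rfl⟩

lemma adj_BX (σ : Sy X m V) (hσ : σ.ok) (x : X) :
    (gr Y h t).Adj (vB Y h b σ hσ) (vX Y h b x) ↔ x = σ.top := AA_BX Y σ x

lemma adj_PB (σ σ' : Sy X m V) (hσ : σ.ok) (hσ' : σ'.ok) (v : V) (c : F2)
    (hk : σ'.kol = σ.kol) :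
    (gr Y h t).Adj (vP Y h b σ hσ v c) (vB Y h b σ' hσ') ↔ σ' = σ := AA_PB Y σ σ' v c hk

lemma adj_PB' (σ : Sy X m V) (hσ : σ.ok) (x y : X) (i : Fin m) (u : V) (d : F2)
    (hxy : (Sy.b x y i u d : Sy X m V).ok) (v : V) (c : F2)
    (hk : ∃ τ, σ.kol = .a τ) :
    (gr Y h t).Adj (vP Y h b σ hσ v c) (vB Y h b (.b x y i u d) hxy) ↔
      σ = .a x (.T i) ∧ v = u ∧ c = d := AA_PB' Y σ x y i u d v c hk

lemma adj_PP (x y : X) (i : Fin m) (v : V) (c : F2) (hσ : (Sy.b x y i v c : Sy X m V).ok)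
    (w : V) (z : F2) (x' y' : X) (i' : Fin m) (v' : V) (c' : F2)
    (hσ' : (Sy.b x' y' i' v' c' : Sy X m V).ok) (w' : V) (z' : F2) :
    (gr Y h t).Adj (vP Y h b (.b x y i v c) hσ w z) (vP Y h b (.b x' y' i' v' c') hσ' w' z') ↔
      x' = y ∧ y' = x ∧ i' = i ∧ v' = w ∧ w' = v ∧ z + z' = c * c' :=
  AA_PP Y x y i v c w z x' y' i' v' c' w' z'

lemma cG_vX (x : X) : cG .X (vX Y h b x) := ⟨_, rfl, rfl⟩
lemma cG_vB (σ : Sy X m V) (hσ : σ.ok) : cG (.B σ.kol) (vB Y h b σ hσ) := ⟨_, rfl, rfl⟩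
lemma cG_vP (σ : Sy X m V) (hσ : σ.ok) (v : V) (c : F2) :
    cG (.P σ.kol v) (vP Y h b σ hσ v c) := ⟨_, rfl, rfl⟩

lemma mt_reindex {k : ℕ} (hF : CGame (gr Y h t) H k F) {ι κ : Type} [Fintype ι] [Fintype κ]
    {g : ι → VT Y h b} {u : ι → B} (hm : Mt F ρ g u) (φ : κ → ι) :
    Mt F ρ (fun i => g (φ i)) (fun i => u (φ i)) := by
  apply hF.sub _ hm
  intro x hx
  simp only [Finset.mem_union, Finset.mem_image, Finset.mem_univ, true_and] at hx ⊢
  rcases hx with hx | ⟨i, rfl⟩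
  · exact Or.inl hx
  · exact Or.inr ⟨φ i, rfl⟩

/-- standing assumptions -/
structure Std {Y : LinSys V E} {h : Hid X m} (t : Tst b (Col m V E)) 
    {B : Type} [DecidableEq (VT Y h b × B)] (H : SimpleGraph B)
    (F : Set (Finset (VT Y h b × B))) (ρ : RR b → B) (c : ℕ) : Prop where
  game : CGame (gr Y h t) H (b + 1 + c) F
  rul : Mt F ρ (Empty.elim : Empty → VT Y h b) (Empty.elim : Empty → B)
  big : 50 ≤ c

variable {c : ℕ}

lemma Std.pull (S : Std t H F ρ c) {ι : Type} [Fintype ι] (u : ι → B)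
    (hc : Fintype.card ι ≤ 50) : ∃ g : ι → VT Y h b, Mt F ρ g u := by
  obtain ⟨g, hg⟩ := mt_pull S.game S.rul u (by have := S.big; simp; omega)
  exact ⟨g, mt_reindex S.game hg (fun i => Sum.inr i)⟩

lemma Std.push (S : Std t H F ρ c) {ι : Type} [Fintype ι] (g : ι → VT Y h b)
    (hc : Fintype.card ι ≤ 50) : ∃ u : ι → B, Mt F ρ g u := by
  obtain ⟨u, hu⟩ := mt_push S.game S.rul g (by have := S.big; simp; omega)
  exact ⟨u, mt_reindex S.game hu (fun i => Sum.inr i)⟩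

/-- transfer of unique neighbours -/
lemma Std.ex1 (S : Std t H F ρ c) {γ γ' : Col m V E}
    (hG : ∀ a : VT Y h b, cG γ a → ∃! a', cG γ' a' ∧ (gr Y h t).Adj a a') :
    ∀ u, cH t H ρ γ u → ∃! u', cH t H ρ γ' u' ∧ H.Adj u u' := by
  intro u hu
  obtain ⟨g, hg⟩ := S.pull (fun _ : Unit => u) (by simp)
  obtain ⟨a', ⟨h1, h2⟩, h3⟩ := hG (g ()) ((mt_col S.game hg γ ()).mpr hu)
  obtain ⟨f, hf⟩ := mt_one S.game hg (by have := S.big; simp; omega)
  refine ⟨f a', ⟨((hf a').1 γ').mp h1, ((hf a').2.1 ()).mp h2⟩, ?_⟩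
  rintro u' ⟨h4, h5⟩
  obtain ⟨a, rfl⟩ := f.surjective u'
  rw [h3 a ⟨((hf a).1 γ').mpr h4, ((hf a).2.1 ()).mpr h5⟩]

/-- a system in the other graph, with canonical coordinates -/
structure SysH (Y : LinSys V E) (t : Tst b (Col m V E)) (H : SimpleGraph B) (ρ : RR b → B)
    (κ : Kp m V) (u : B) (pt : V → F2 → B) (hid : F2) : Prop where
  col : cH t H ρ (.B κ) u
  ptc : ∀ v c, cH t H ρ (.P κ v) (pt v c) ∧ H.Adj (pt v c) u
  sur : ∀ v p, cH t H ρ (.P κ v) p → H.Adj p u → ∃ c, p = pt v c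
  inj : ∀ v, Function.Injective (pt v)
  gad : ∀ e (α : Fin 3 → F2), (∀ k, Y.inc e k = none → α k = 0) →
    ((∃ g, cH t H ρ (.G κ e) g ∧ ∀ k v, Y.inc e k = some v → H.Adj g (pt v (α k))) ↔
      ∑ k, α k = hid * Y.t0 e)

lemma G_gad (σ : Sy X m V) (hσ : σ.ok) (e : E) (β : Fin 3 → F2)
    (hβ : ∀ k, Y.inc e k = none → β k = 0) :
    (∃ a : VT Y h b, cG (.G σ.kol e) a ∧ ∀ k v, Y.inc e k = some v →
      (gr Y h t).Adj a (vP Y h b σ hσ v (β k))) ↔ ∑ k, β k = h.hid σ * Y.t0 e := by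
  constructor
  · rintro ⟨a, ⟨⟨w, hw⟩, rfl, hcol⟩, hadj⟩
    obtain ⟨σ', α, rfl, hk⟩ := col_G hcol
    have hsl : ∀ k v, Y.inc e k = some v → σ = σ' ∧ α k = β k := by
      intro k v hkv
      obtain ⟨h2, k', hk', h3⟩ := (AA_GP Y σ' σ e α v (β k)).mp (hadj k v hkv)
      have := Y.inj e k k' v hkv hk'
      subst this
      exact ⟨h2, h3⟩
    obtain ⟨k0, v0, hk0⟩ := Y.ne e
    have hσσ := (hsl k0 v0 hk0).1
    subst hσσ
    rw [← hw.2.2]
    apply Finset.sum_congr rfl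
    intro k _
    cases hk : Y.inc e k with
    | none => rw [hβ k hk, hw.2.1 k hk]
    | some v => exact (hsl k v hk).2.symm
  · intro hs
    refine ⟨.inr ⟨.G σ e β, ⟨hσ, hβ, hs⟩⟩, ⟨_, rfl, rfl⟩, ?_⟩
    intro k v hk
    exact (AA_GP Y σ σ e β v (β k)).mpr ⟨rfl, k, hk, rfl⟩

/-- two points over each base vertex -/
lemma Std.two_points (S : Std t H F ρ c) (κ : Kp m V) (u : B) (hu : cH t H ρ (.B κ) u) (v : V) :
    ∃ p : F2 → B, Function.Injective p ∧ (∀ c, cH t H ρ (.P κ v) (p c) ∧ H.Adj (p c) u) ∧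
      ∀ q, cH t H ρ (.P κ v) q → H.Adj q u → ∃ c, q = p c := by
  obtain ⟨g, hg⟩ := S.pull (fun _ : Unit => u) (by simp)
  obtain ⟨σ, hσ, hgw, rfl⟩ := (cB_iff _ _).mp ((mt_col S.game hg (.B κ) ()).mpr hu)
  obtain ⟨f, hf⟩ := mt_one S.game hg (by have := S.big; simp; omega)
  refine ⟨fun c => f (vP Y h b σ hσ v c), ?_, ?_, ?_⟩
  · intro c c' hcc
    exact (vP_inj.mp (f.injective hcc)).2.2
  · intro c
    refine ⟨((hf _).1 _).mp (cG_vP _ _ _ _), ?_⟩
    rw [H.adj_comm]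
    refine ((hf _).2.1 ()).mp ?_
    rw [hgw, SimpleGraph.adj_comm, adj_PB _ _ _ _ _ _ rfl]
  · intro q h1 h2
    obtain ⟨a, rfl⟩ := f.surjective q
    have h3 := ((hf a).1 _).mpr h1
    rw [H.adj_comm] at h2
    have h4 := ((hf a).2.1 ()).mpr h2
    obtain ⟨σ', hσ', c', rfl, hk'⟩ := (cP_iff _ _ _).mp h3
    rw [hgw, SimpleGraph.adj_comm, adj_PB _ _ _ _ _ _ hk'.symm] at h4
    subst h4
    exact ⟨c', rfl⟩

lemma Std.exists_sysH [Fintype E] (hY : Y.Nice) (S : Std t H F ρ c) (κ : Kp m V) (u : B)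
    (hu : cH t H ρ (.B κ) u) : ∃ pt hid, SysH Y t H ρ κ u pt hid := by
  choose pt0 hinj hpt hsur using S.two_points κ u hu
  have hr : ∀ e, ∃ r : F2, ∀ α : Fin 3 → F2, (∀ k, Y.inc e k = none → α k = 0) →
      ((∃ g, cH t H ρ (.G κ e) g ∧ ∀ k v, Y.inc e k = some v → H.Adj g (pt0 v (α k))) ↔
      ∑ k, α k = r) := by
    intro e
    obtain ⟨g, hg⟩ := S.pull (fun i : Option (Fin 3 × F2) => match i with
      | none => u
      | some (k, c) => match Y.inc e k with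
        | none => u
        | some v => pt0 v c) (by simp)
    obtain ⟨σ, hσ, hgw, rfl⟩ := (cB_iff _ _).mp ((mt_col S.game hg (.B κ) none).mpr hu)
    have hd : ∀ k, ∃ d : F2 → F2, Function.Injective d ∧ ∀ v, Y.inc e k = some v → ∀ c,
        g (some (k, c)) = vP Y h b σ hσ v (d c) := by
      intro k
      cases hk : Y.inc e k with
      | none => exact ⟨id, Function.injective_id, by simp⟩
      | some v =>
        have hd1 : ∀ c, ∃ d, g (some (k, c)) = vP Y h b σ hσ v d := by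
          intro c
          have h1 := (mt_col S.game hg (.P σ.kol v) (some (k, c))).mpr (by
            simp only [hk]
            exact (hpt v c).1)
          obtain ⟨σ', hσ', c', hg', hk'⟩ := (cP_iff _ _ _).mp h1
          have h2 := (mt_iso S.game hg (some (k, c)) none).2.mpr (by
            simp only [hk]
            exact (hpt v c).2)
          rw [hg', hgw, adj_PB _ _ _ _ _ _ hk'.symm] at h2
          subst h2
          exact ⟨c', hg'⟩
        choose d hd1 using hd1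
        refine ⟨d, ?_, ?_⟩
        · intro c c' hcc
          have h3 := (mt_iso S.game hg (some (k, c)) (some (k, c'))).1.mp (by
            rw [hd1, hd1, hcc])
          simp only [hk] at h3
          exact hinj v h3
        · intro v' hv' c
          simp only [Option.some.injEq] at hv'
          subst hv'
          exact hd1 c
    choose d hdi hd using hd
    obtain ⟨f, hf⟩ := mt_one S.game hg (by have := S.big; simp; omega)
    refine ⟨h.hid σ * Y.t0 e + ∑ k, ev (fun _ : V => d k 0) (Y.inc e k), ?_⟩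
    intro α hα
    have h1 := G_gad (t := t) (h := h) (Y := Y) (b := b) σ hσ e
      (fun k => α k + ev (fun _ : V => d k 0) (Y.inc e k))
      (by intro k hk; rw [hα k hk, hk]; simp)
    have h2 : (∃ g', cH t H ρ (.G σ.kol e) g' ∧ ∀ k v, Y.inc e k = some v →
        H.Adj g' (pt0 v (α k))) ↔ (∃ a : VT Y h b, cG (.G σ.kol e) a ∧ ∀ k v, Y.inc e k = some v →
      (gr Y h t).Adj a (vP Y h b σ hσ v (α k + ev (fun _ : V => d k 0) (Y.inc e k)))) := by
      have h3 : ∀ a, (∀ k v, Y.inc e k = some v → H.Adj (f a) (pt0 v (α k))) ↔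
          (∀ k v, Y.inc e k = some v →
          (gr Y h t).Adj a (vP Y h b σ hσ v (α k + ev (fun _ : V => d k 0) (Y.inc e k)))) := by
        intro a
        apply forall_congr'
        intro k
        apply forall_congr'
        intro v
        apply imp_congr_right
        intro hk
        have h4 := (hf a).2.1 (some (k, α k))
        rw [hd k v hk] at h4
        simp only [hk] at h4
        rw [F2_shift (d k) (hdi k)] at h4
        rw [H.adj_comm, ← h4, hk, SimpleGraph.adj_comm]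
        rfl
      constructor
      · rintro ⟨g', h4, h5⟩
        obtain ⟨a, rfl⟩ := f.surjective g'
        exact ⟨a, ((hf a).1 _).mpr h4, (h3 a).mp h5⟩
      · rintro ⟨a, h4, h5⟩
        exact ⟨f a, ((hf a).1 _).mp h4, (h3 a).mpr h5⟩
    rw [h2, h1, Finset.sum_add_distrib]
    generalize ∑ k, α k = x1
    generalize ∑ k, ev (fun _ : V => d k 0) (Y.inc e k) = x2
    generalize h.hid σ * Y.t0 e = x3
    revert x1 x2 x3
    decide
  choose r hr using hr
  have ht0 : ∑ e, Y.t0 e = 1 := by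
    unfold LinSys.t0
    simp
  obtain ⟨κ0, hκ0⟩ := hY.sur (fun e => r e + (∑ e', r e') * Y.t0 e) (by
    rw [Finset.sum_add_distrib, ← Finset.mul_sum, ht0, mul_one, F2_add_self])
  refine ⟨fun v c => pt0 v (c + κ0 v), ∑ e', r e', hu, ?_, ?_, ?_, ?_⟩
  · intro v c
    exact hpt v _
  · intro v p h1 h2
    obtain ⟨c, rfl⟩ := hsur v p h1 h2
    refine ⟨c + κ0 v, ?_⟩
    rw [add_assoc, F2_add_self, add_zero]
  · intro v c c' hcc
    exact add_right_cancel (hinj v hcc)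
  · intro e α hα
    have h1 := hr e (fun k => α k + ev κ0 (Y.inc e k)) (by intro k hk; simp [hα k hk, hk])
    have h2 : ∑ k, (α k + ev κ0 (Y.inc e k)) = ∑ k, α k + (r e + (∑ e', r e') * Y.t0 e) := by
      rw [Finset.sum_add_distrib, ← hκ0 e]
      rfl
    rw [h2] at h1
    have h3 : (∃ g, cH t H ρ (.G κ e) g ∧ ∀ k v, Y.inc e k = some v →
        H.Adj g (pt0 v (α k + κ0 v))) ↔
        (∃ g, cH t H ρ (.G κ e) g ∧ ∀ k v, Y.inc e k = some v →
        H.Adj g (pt0 v (α k + ev κ0 (Y.inc e k)))) := by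
      apply exists_congr
      intro g
      apply and_congr_right
      intro _
      apply forall_congr'
      intro k
      apply forall_congr'
      intro v
      apply imp_congr_right
      intro hk
      rw [hk]
      rfl
    rw [h3, h1]
    generalize ∑ k, α k = x1
    generalize r e = x2
    generalize (∑ e', r e') * Y.t0 e = x3
    revert x1 x2 x3
    decide

end

end Pool.Agent.helper78.HP
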