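import Pool.Agent.helper78.HP.Ident1

/-!
Identification, part 2: the first layer.
-/

set_option autoImplicit false
set_option linter.unusedSectionVars false

namespace Pool.Agent.helper78.HP

lemma F2_iff : ∀ a b a' b' : F2, ((a = b) ↔ (a' = b')) → a + a' = b + b' := by decide

lemma okA {X V : Type} {m : ℕ} (x : X) (τ : Lb m) : (Sy.a x τ : Sy X m V).ok := trivial

section

variable {X V E : Type} {m b : ℕ} [DecidableEq E]
variable {Y : LinSys V E} {h : Hid X m} {t : Tst b (Col m V E)}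
variable {B : Type} [DecidableEq (VT Y h b × B)] {H : SimpleGraph B}
  {F : Set (Finset (VT Y h b × B))} {ρ : RR b → B} {c : ℕ}

/-- the image of a point over a pebbled base vertex -/
lemma Std.PT (S : Std t H F ρ c) {ι : Type} [Fintype ι] {g : ι → VT Y h b} {u : ι → B}
    (hm : Mt F ρ g u) (σ : Sy X m V) (hσ : σ.ok) (i0 : ι) (hi0 : g i0 = vB Y h b σ hσ)
    {pt : V → F2 → B} {hid : F2} (hs : SysH Y t H ρ σ.kol (u i0) pt hid) (i : ι) (v : V) (z : F2)
    (hi : g i = vP Y h b σ hσ v z) : ∃ z', u i = pt v z' := by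
  apply hs.sur
  · rw [← mt_col S.game hm, hi]
    exact cG_vP _ _ _ _
  · rw [← (mt_iso S.game hm i i0).2, hi, hi0, adj_PB _ _ _ _ _ _ rfl]

/-- transfer of equation gadgets -/
lemma Std.GT (S : Std t H F ρ c) {ι : Type} [Fintype ι] (hcard : Fintype.card ι < 50)
    {g : ι → VT Y h b} {u : ι → B}
    (hm : Mt F ρ g u) (σ : Sy X m V) (hσ : σ.ok) (i0 : ι)
    {pt : V → F2 → B} {hid : F2} (hs : SysH Y t H ρ σ.kol (u i0) pt hid) (e : E)
    (β β' : Fin 3 → F2) (hβ : ∀ k, Y.inc e k = none → β k = 0)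
    (hβ' : ∀ k, Y.inc e k = none → β' k = 0)
    (idx : Fin 3 → ι) (hg : ∀ k v, Y.inc e k = some v → g (idx k) = vP Y h b σ hσ v (β k))
    (hu : ∀ k v, Y.inc e k = some v → u (idx k) = pt v (β' k)) :
    ∑ k, β k + ∑ k, β' k = (h.hid σ + hid) * Y.t0 e := by
  rw [add_mul]
  apply F2_iff
  rw [← G_gad (t := t) (b := b) σ hσ e β hβ, ← hs.gad e β' hβ']
  obtain ⟨f, hf⟩ := mt_one S.game hm (by have := S.big; omega)
  have h3 : ∀ a, (∀ k v, Y.inc e k = some v → H.Adj (f a) (pt v (β' k))) ↔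
      (∀ k v, Y.inc e k = some v → (gr Y h t).Adj a (vP Y h b σ hσ v (β k))) := by
    intro a
    apply forall_congr'
    intro k
    apply forall_congr'
    intro v
    apply imp_congr_right
    intro hk
    rw [← hg k v hk, ← hu k v hk, H.adj_comm, ← (hf a).2.1 (idx k), SimpleGraph.adj_comm]
  constructor
  · rintro ⟨a, h4, h5⟩
    exact ⟨f a, ((hf a).1 _).mp h4, (h3 a).mpr h5⟩
  · rintro ⟨g', h4, h5⟩
    obtain ⟨a, rfl⟩ := f.surjective g'
    exact ⟨a, ((hf a).1 _).mpr h4, (h3 a).mp h5⟩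

lemma G_sgad (x : X) (s : Sm m) (v : V) (β : Fin 3 → F2) (hβ : ∀ k, sl s k = none → β k = 0) :
    (∃ a : VT Y h b, cG (.S s v) a ∧ ∀ k τ, sl s k = some τ →
      (gr Y h t).Adj a (vP Y h b (.a x τ) (okA x τ) v (β k))) ↔ ∑ k, β k = 0 := by
  constructor
  · rintro ⟨a, ⟨⟨w, hw⟩, rfl, hcol⟩, hadj⟩
    obtain ⟨x', α, rfl⟩ := col_S hcol
    have hsl : ∀ k τ, sl s k = some τ → α k = β k := by
      intro k τ hkv
      obtain ⟨-, k', τ', hk', h2, h3⟩ := (AA_SP Y x' s v α (.a x τ) v (β k)).mp (hadj k τ hkv)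
      simp only [Sy.a.injEq] at h2
      obtain ⟨rfl, rfl⟩ := h2
      have := sl_inj s k k' _ hkv hk'
      subst this
      exact h3
    rw [← hw.2]
    apply Finset.sum_congr rfl
    intro k _
    cases hk : sl s k with
    | none => rw [hβ k hk, hw.1 k hk]
    | some v => exact (hsl k v hk).symm
  · intro hs
    refine ⟨.inr ⟨.S x s v β, ⟨hβ, hs⟩⟩, ⟨_, rfl, rfl⟩, ?_⟩
    intro k τ hk
    exact (AA_SP Y x s v β _ v (β k)).mpr ⟨rfl, k, τ, hk, rfl, rfl⟩

/-- an element of the pure set of the other graph, with its systems -/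
structure XH (Y : LinSys V E) (t : Tst b (Col m V E)) (H : SimpleGraph B) (ρ : RR b → B)
    (x' : B) (bs : Lb m → B) (pt : Lb m → V → F2 → B) (hd : Lb m → F2) : Prop where
  col : cH t H ρ .X x'
  adj : ∀ τ, H.Adj (bs τ) x'
  sys : ∀ τ, SysH Y t H ρ (.a τ) (bs τ) (pt τ) (hd τ)

lemma Std.uniq_bs (S : Std t H F ρ c) (τ : Lb m) : ∀ u, cH t H ρ .X u →
    ∃! u', cH t H ρ (.B (.a τ)) u' ∧ H.Adj u u' := by
  apply S.ex1
  intro a ha
  obtain ⟨x, rfl⟩ := (cX_iff _).mp ha
  refine ⟨vB Y h b (.a x τ) (okA x τ), ⟨⟨_, rfl, rfl⟩, ?_⟩, ?_⟩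
  · rw [SimpleGraph.adj_comm, adj_BX]
    rfl
  · rintro a' ⟨h1, h2⟩
    obtain ⟨σ, hσ, rfl, hk⟩ := (cB_iff _ _).mp h1
    rw [SimpleGraph.adj_comm, adj_BX] at h2
    rw [vB_inj, kol_a hk, ← h2]

lemma Std.exists_XH [Fintype E] (hY : Y.Nice) (S : Std t H F ρ c) (x' : B)
    (hx : cH t H ρ .X x') : ∃ bs pt hd, XH Y t H ρ x' bs pt hd := by
  have h1 : ∀ τ, ∃ u, cH t H ρ (.B (.a τ)) u ∧ H.Adj x' u := fun τ =>
    (S.uniq_bs τ x' hx).exists
  choose bs hbs hadj using h1
  choose pt hd hs using fun τ => S.exists_sysH hY (.a τ) (bs τ) (hbs τ)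
  exact ⟨bs, pt, hd, hx, fun τ => (hadj τ).symm, hs⟩

/-- a base vertex of the first layer over a pebbled element -/
lemma Std.im_bs (S : Std t H F ρ c) {x' : B} {bs : Lb m → B} {pt : Lb m → V → F2 → B}
    {hd : Lb m → F2} (hx : XH Y t H ρ x' bs pt hd) {ι : Type} [Fintype ι] {g : ι → VT Y h b}
    {u : ι → B} (hm : Mt F ρ g u) (i j : ι) (x : X) (τ : Lb m) (hi : g i = vX Y h b x)
    (hui : u i = x') (hj : g j = vB Y h b (.a x τ) (okA x τ)) : u j = bs τ := by
  apply (S.uniq_bs τ x' hx.col).unique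
  · rw [← mt_col S.game hm, hj, ← hui, ← (mt_iso S.game hm i j).2, hi, hj, SimpleGraph.adj_comm,
      adj_BX]
    exact ⟨cG_vB _ _, rfl⟩
  · exact ⟨(hx.sys τ).col, (hx.adj τ).symm⟩

/-- the other way: preimages of base vertices -/
lemma Std.pre_bs (S : Std t H F ρ c) {x' : B} {bs : Lb m → B} {pt : Lb m → V → F2 → B}
    {hd : Lb m → F2} (hx : XH Y t H ρ x' bs pt hd) {ι : Type} [Fintype ι] {g : ι → VT Y h b}
    {u : ι → B} (hm : Mt F ρ g u) (i j : ι) (x : X) (τ : Lb m) (hi : g i = vX Y h b x)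
    (hui : u i = x') (huj : u j = bs τ) : g j = vB Y h b (.a x τ) (okA x τ) := by
  have h1 := (mt_col S.game hm (.B (.a τ)) j).mpr (by rw [huj]; exact (hx.sys τ).col)
  obtain ⟨σ, hσ, hgj, hk⟩ := (cB_iff _ _).mp h1
  have h2 := (mt_iso S.game hm j i).2.mpr (by rw [huj, hui]; exact hx.adj τ)
  rw [hgj, hi, adj_BX] at h2
  rw [hgj, vB_inj, kol_a hk, ← h2]

/-- preimages of points -/
lemma Std.pre_pt (S : Std t H F ρ c) {κ : Kp m V} {ub : B} {pt : V → F2 → B}
    {hid : F2} (hs : SysH Y t H ρ κ ub pt hid) {ι : Type} [Fintype ι] {g : ι → VT Y h b}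
    {u : ι → B} (hm : Mt F ρ g u) (i j : ι) (σ : Sy X m V) (hσ : σ.ok) (hk : σ.kol = κ)
    (hi : g i = vB Y h b σ hσ) (hui : u i = ub) (v : V) (z : F2) (huj : u j = pt v z) :
    ∃ z', g j = vP Y h b σ hσ v z' := by
  subst hk
  have h1 := (mt_col S.game hm (.P σ.kol v) j).mpr (by rw [huj]; exact (hs.ptc v z).1)
  obtain ⟨σ', hσ', z', hgj, hk⟩ := (cP_iff _ _ _).mp h1
  have h2 := (mt_iso S.game hm j i).2.mpr (by rw [huj, hui]; exact (hs.ptc v z).2)
  rw [hgj, hi, adj_PB _ _ _ _ _ _ hk.symm] at h2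
  subst h2
  exact ⟨z', hgj⟩

/-- sum gadgets in the other graph: parity -/
lemma Std.sgad_par (S : Std t H F ρ c) {x' : B} {bs : Lb m → B} {pt : Lb m → V → F2 → B}
    {hd : Lb m → F2} (hx : XH Y t H ρ x' bs pt hd) (s : Sm m) (v : V) :
    ∃ r : F2, ∀ α : Fin 3 → F2, (∀ k, sl s k = none → α k = 0) →
      ((∃ g, cH t H ρ (.S s v) g ∧ ∀ k τ, sl s k = some τ → H.Adj g (pt τ v (α k))) ↔
      ∑ k, α k = r) := by
  obtain ⟨g, hg⟩ := S.pull (fun i : Option (Fin 3 × Option F2) => match i with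
    | none => x'
    | some (k, o) => match sl s k, o with
      | none, _ => x'
      | some τ, none => bs τ
      | some τ, some c => pt τ v c) (by simp)
  obtain ⟨x, hgx⟩ := (cX_iff _).mp ((mt_col S.game hg .X none).mpr hx.col)
  have hb : ∀ k τ, sl s k = some τ → g (some (k, none)) = vB Y h b (.a x τ) (okA x τ) := by
    intro k τ hk
    apply S.pre_bs hx hg none _ x τ hgx rfl
    simp only [hk]
  have hd' : ∀ k, ∃ d : F2 → F2, Function.Injective d ∧ ∀ τ, sl s k = some τ → ∀ c,
      g (some (k, some c)) = vP Y h b (.a x τ) (okA x τ) v (d c) := by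
    intro k
    cases hk : sl s k with
    | none => exact ⟨id, Function.injective_id, by simp⟩
    | some τ =>
      have hd1 : ∀ c, ∃ d, g (some (k, some c)) = vP Y h b (.a x τ) (okA x τ) v d := by
        intro c
        apply S.pre_pt (hx.sys τ) hg (some (k, none)) _ (.a x τ) (okA x τ) rfl (hb k τ hk)
          (by simp only [hk]) v c
        simp only [hk]
      choose d hd1 using hd1
      refine ⟨d, ?_, ?_⟩
      · intro c c' hcc
        have h3 := (mt_iso S.game hg (some (k, some c)) (some (k, some c'))).1.mp (by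
          rw [hd1, hd1, hcc])
        simp only [hk] at h3
        exact (hx.sys τ).inj v h3
      · intro v' hv' c
        simp only [Option.some.injEq] at hv'
        subst hv'
        exact hd1 c
  choose d hdi hdd using hd'
  obtain ⟨f, hf⟩ := mt_one S.game hg (by have := S.big; simp; omega)
  refine ⟨∑ k, ev (fun _ : Lb m => d k 0) (sl s k), ?_⟩
  intro α hα
  have h1 := G_sgad (t := t) (h := h) (Y := Y) (b := b) x s v
    (fun k => α k + ev (fun _ : Lb m => d k 0) (sl s k))
    (by intro k hk; rw [hα k hk, hk]; simp)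
  have h2 : (∃ g', cH t H ρ (.S s v) g' ∧ ∀ k τ, sl s k = some τ →
      H.Adj g' (pt τ v (α k))) ↔ (∃ a : VT Y h b, cG (.S s v) a ∧ ∀ k τ, sl s k = some τ →
    (gr Y h t).Adj a (vP Y h b (.a x τ) (okA x τ) v (α k + ev (fun _ : Lb m => d k 0) (sl s k)))) := by
    have h3 : ∀ a, (∀ k τ, sl s k = some τ → H.Adj (f a) (pt τ v (α k))) ↔
        (∀ k τ, sl s k = some τ →
        (gr Y h t).Adj a (vP Y h b (.a x τ) (okA x τ) v
          (α k + ev (fun _ : Lb m => d k 0) (sl s k)))) := by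
      intro a
      apply forall_congr'
      intro k
      apply forall_congr'
      intro τ
      apply imp_congr_right
      intro hk
      have h4 := (hf a).2.1 (some (k, some (α k)))
      rw [hdd k τ hk] at h4
      simp only [hk] at h4
      rw [F2_shift (d k) (hdi k)] at h4
      rw [H.adj_comm, ← h4, hk, SimpleGraph.adj_comm]
      rfl
    constructor
    · rintro ⟨g', h4, h5⟩
      obtain ⟨a, rfl⟩ := f.surjective g'
      exact ⟨a, ((hf a).1 _).mpr h4, (h3 a).mp h5⟩
    · rintro ⟨a, h4, h5⟩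
      exact ⟨f a, ((hf a).1 _).mp h4, (h3 a).mpr h5⟩
  rw [h2, h1, Finset.sum_add_distrib]
  generalize ∑ k, α k = x1
  generalize ∑ k, ev (fun _ : Lb m => d k 0) (sl s k) = x2
  revert x1 x2
  decide

/-- the sum relations in the other graph -/
lemma Std.sgad [Fintype E] (hY : Y.Nice) (S : Std t H F ρ c) {x' : B} {bs : Lb m → B}
    {pt : Lb m → V → F2 → B} {hd : Lb m → F2} (hx : XH Y t H ρ x' bs pt hd) (s : Sm m) :
    ∑ k, ev hd (sl s k) = eps s ∧
    ∀ v (α : Fin 3 → F2), (∀ k, sl s k = none → α k = 0) →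
      ((∃ g, cH t H ρ (.S s v) g ∧ ∀ k τ, sl s k = some τ → H.Adj g (pt τ v (α k))) ↔
      ∑ k, α k = 0) := by
  choose r hr using S.sgad_par hx s
  have hD : ∀ e, Y.D r e = (eps s + ∑ k, ev hd (sl s k)) * Y.t0 e := by
    intro e
    obtain ⟨g0, hg0⟩ := S.pull (fun _ : Unit => x') (by simp)
    obtain ⟨x, hgx⟩ := (cX_iff _).mp ((mt_col S.game hg0 .X ()).mpr hx.col)
    obtain ⟨u1, hu1⟩ := mt_push S.game hg0 (fun i : Fin 3 × Option (Fin 3) => match sl s i.1, i.2 with
      | none, _ => vX Y h b x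
      | some τ, none => vB Y h b (.a x τ) (okA x τ)
      | some τ, some l => match Y.inc e l with
        | none => vX Y h b x
        | some v => vP Y h b (.a x τ) (okA x τ) v 0) (by have := S.big; simp; omega)
    have hb : ∀ k τ, sl s k = some τ → u1 (k, none) = bs τ := by
      intro k τ hk
      apply S.im_bs hx hu1 (Sum.inl ()) (Sum.inr (k, none)) x τ hgx rfl
      simp only [Sum.elim_inr, hk]
    have hp : ∀ k l, ∃ z, (sl s k = none → z = 0) ∧ (Y.inc e l = none → z = 0) ∧
        ∀ τ v, sl s k = some τ → Y.inc e l = some v → u1 (k, some l) = pt τ v z := by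
      intro k l
      cases hk : sl s k with
      | none => exact ⟨0, by simp, by simp, by simp⟩
      | some τ =>
        cases hl : Y.inc e l with
        | none => exact ⟨0, by simp, by simp, by simp⟩
        | some v =>
          obtain ⟨z, hz⟩ := S.PT hu1 (.a x τ) (okA x τ) (Sum.inr (k, none)) (by
            simp only [Sum.elim_inr, hk]) (hid := hd τ) (pt := pt τ) (by
            simp only [Sum.elim_inr]
            rw [hb k τ hk]
            exact hx.sys τ) (Sum.inr (k, some l)) v 0 (by simp only [Sum.elim_inr, hk, hl])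
          refine ⟨z, by simp, by simp, ?_⟩
          intro τ' v' h1 h2
          simp only [Option.some.injEq] at h1 h2
          subst h1 h2
          exact hz
    choose z hz1 hz2 hz using hp
    -- rows
    have hrow : ∀ k, ∑ l, z k l = (ev (h.hd x) (sl s k) + ev hd (sl s k)) * Y.t0 e := by
      intro k
      cases hk : sl s k with
      | none =>
        rw [Finset.sum_eq_zero fun l _ => hz1 k l hk]
        simp
      | some τ =>
        have h1 := S.GT (by simp) hu1 (.a x τ) (okA x τ) (Sum.inr (k, none)) (pt := pt τ)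
          (hid := hd τ) (by
            simp only [Sum.elim_inr]
            rw [hb k τ hk]
            exact hx.sys τ) e (fun _ => 0) (z k) (by simp) (fun l hl => hz2 k l hl)
            (fun l => Sum.inr (k, some l)) (by
              intro l v hl
              simp only [Sum.elim_inr, hk, hl]) (by
              intro l v hl
              simp only [Sum.elim_inr]
              exact hz k l τ v hk hl)
        simp only [Finset.sum_const_zero, zero_add] at h1
        rw [h1]
        rfl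
    -- columns
    have hcol : ∀ l, ∑ k, z k l = ev r (Y.inc e l) := by
      intro l
      cases hl : Y.inc e l with
      | none =>
        rw [Finset.sum_eq_zero fun k _ => hz2 k l hl]
        rfl
      | some v =>
        change _ = r v
        rw [← hr v (fun k => z k l) (fun k hk => hz1 k l hk)]
        obtain ⟨f, hf⟩ := mt_one S.game hu1 (by have := S.big; simp; omega)
        obtain ⟨a, ha1, ha2⟩ := (G_sgad (t := t) (h := h) (Y := Y) (b := b) x s v (fun _ => 0)
          (by simp)).mpr (by simp)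
        refine ⟨f a, ((hf a).1 _).mp ha1, ?_⟩
        intro k τ hk
        have h4 := (hf a).2.1 (Sum.inr (k, some l))
        simp only [Sum.elim_inr, hk, hl] at h4
        rw [hz k l τ v hk hl] at h4
        exact (h4.mp (ha2 k τ hk).symm).symm
    unfold LinSys.D
    rw [Finset.sum_congr rfl fun l _ => (hcol l).symm, Finset.sum_comm,
      Finset.sum_congr rfl fun k _ => hrow k, ← Finset.sum_mul, Finset.sum_add_distrib, h.sum]
  obtain ⟨h1, h2⟩ := hY.key r _ hD
  refine ⟨?_, ?_⟩
  · generalize eps s = x1 at *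
    generalize ∑ k, ev hd (sl s k) = x2 at *
    clear * - h1
    revert x1 x2
    decide
  · intro v α hα
    rw [hr v α hα, h2 v]

end

end Pool.Agent.helper78.HP
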