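import Pool.Agent.helper78.HP.Ident2

/-!
Identification, part 3: the second layer.
-/

set_option autoImplicit false
set_option linter.unusedSectionVars false

namespace Pool.Agent.helper78.HP

lemma okB {X V : Type} {m : ℕ} {x y : X} (hxy : x ≠ y) (i : Fin m) (v : V) (c : F2) :
    (Sy.b x y i v c : Sy X m V).ok := hxy

section

variable {X V E : Type} {m b : ℕ} [DecidableEq E]
variable {Y : LinSys V E} {h : Hid X m} {t : Tst b (Col m V E)}
variable {B : Type} [DecidableEq (VT Y h b × B)] {H : SimpleGraph B}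
  {F : Set (Finset (VT Y h b × B))} {ρ : RR b → B} {c : ℕ}

lemma cBa_iff (τ : Lb m) (a : VT Y h b) :
    cG (.B (.a τ)) a ↔ ∃ x, a = vB Y h b (.a x τ) (okA x τ) := by
  rw [cB_iff]
  constructor
  · rintro ⟨σ, hσ, rfl, hk⟩
    exact ⟨σ.top, vB_inj.mpr (kol_a hk)⟩
  · rintro ⟨x, rfl⟩
    exact ⟨_, _, rfl, rfl⟩

lemma cPa_iff (τ : Lb m) (v : V) (a : VT Y h b) :
    cG (.P (.a τ) v) a ↔ ∃ x z, a = vP Y h b (.a x τ) (okA x τ) v z := by
  rw [cP_iff]
  constructor
  · rintro ⟨σ, hσ, z, rfl, hk⟩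
    exact ⟨σ.top, z, vP_inj.mpr ⟨kol_a hk, rfl, rfl⟩⟩
  · rintro ⟨x, z, rfl⟩
    exact ⟨_, _, z, rfl, rfl⟩

lemma cBb_iff (i : Fin m) (v : V) (a : VT Y h b) :
    cG (.B (.b i v)) a ↔ ∃ x y z, ∃ hxy : x ≠ y,
      a = vB Y h b (.b x y i v z) (okB hxy i v z) := by
  rw [cB_iff]
  constructor
  · rintro ⟨σ, hσ, rfl, hk⟩
    obtain ⟨x, z, hs⟩ := kol_b hk
    have hxy : x ≠ σ.top := by
      rw [hs] at hσ
      exact hσ
    exact ⟨x, σ.top, z, hxy, vB_inj.mpr hs⟩
  · rintro ⟨x, y, z, hxy, rfl⟩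
    exact ⟨_, _, rfl, rfl⟩

lemma adj_pj (x0 : X) (i : Fin m) (v : V) (z : F2) (x y : X) (u : V) (d : F2)
    (hσ : (Sy.b x y i u d : Sy X m V).ok) :
    (gr Y h t).Adj (vP Y h b (.a x0 (.T i)) (okA x0 (.T i)) v z)
      (vB Y h b (.b x y i u d) hσ) ↔ x0 = x ∧ v = u ∧ z = d := by
  rw [adj_PB' _ _ _ _ _ _ _ _ _ _ ⟨_, rfl⟩]
  simp

lemma adj_jx (x y : X) (i : Fin m) (u : V) (d : F2) (hσ : (Sy.b x y i u d : Sy X m V).ok)
    (x0 : X) :
    (gr Y h t).Adj (vB Y h b (.b x y i u d) hσ) (vX Y h b x0) ↔ x0 = y := by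
  rw [adj_BX]
  rfl

lemma Std.uniq_J (S : Std t H F ρ c) (i : Fin m) (v : V) {p y' j1 j2 : B}
    (hp : cH t H ρ (.P (.a (.T i)) v) p) (hy : cH t H ρ .X y')
    (h1 : cH t H ρ (.B (.b i v)) j1) (h2 : cH t H ρ (.B (.b i v)) j2)
    (a1 : H.Adj p j1) (a2 : H.Adj p j2) (b1 : H.Adj j1 y') (b2 : H.Adj j2 y') : j1 = j2 := by
  obtain ⟨g, hg⟩ := S.pull ![p, y', j1, j2] (by simp)
  obtain ⟨x, z, hg0⟩ := (cPa_iff _ _ _).mp ((mt_col S.game hg (.P (.a (.T i)) v) 0).mpr hp)
  obtain ⟨y, hg1⟩ := (cX_iff _).mp ((mt_col S.game hg .X 1).mpr hy)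
  obtain ⟨x1, y1, z1, hxy1, hg2⟩ := (cBb_iff _ _ _).mp ((mt_col S.game hg _ 2).mpr h1)
  obtain ⟨x2, y2, z2, hxy2, hg3⟩ := (cBb_iff _ _ _).mp ((mt_col S.game hg _ 3).mpr h2)
  have e1 := (mt_iso S.game hg 0 2).2.mpr a1
  have e2 := (mt_iso S.game hg 0 3).2.mpr a2
  have e3 := (mt_iso S.game hg 2 1).2.mpr b1
  have e4 := (mt_iso S.game hg 3 1).2.mpr b2
  rw [hg0, hg2, adj_pj] at e1
  rw [hg0, hg3, adj_pj] at e2
  rw [hg2, hg1, adj_jx] at e3
  rw [hg3, hg1, adj_jx] at e4
  have e5 : g 2 = g 3 := by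
    rw [hg2, hg3, vB_inj, ← e1.1, ← e2.1, ← e1.2.2, ← e2.2.2, ← e3, ← e4]
  exact (mt_iso S.game hg 2 3).1.mp e5

lemma Std.pre_J (S : Std t H F ρ c) {i : Fin m} {v : V} {ι : Type} [Fintype ι]
    {g : ι → VT Y h b} {u : ι → B} (hm : Mt F ρ g u) (ip iy j : ι) {x y : X} {z : F2}
    (hp : g ip = vP Y h b (.a x (.T i)) (okA x (.T i)) v z) (hy : g iy = vX Y h b y)
    (hxy : x ≠ y) (hj : cH t H ρ (.B (.b i v)) (u j)) (h1 : H.Adj (u ip) (u j))
    (h2 : H.Adj (u j) (u iy)) : g j = vB Y h b (.b x y i v z) (okB hxy i v z) := by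
  obtain ⟨x1, y1, z1, hxy1, hgj⟩ := (cBb_iff _ _ _).mp ((mt_col S.game hm _ j).mpr hj)
  have e1 := (mt_iso S.game hm ip j).2.mpr h1
  have e2 := (mt_iso S.game hm j iy).2.mpr h2
  rw [hp, hgj, adj_pj] at e1
  rw [hgj, hy, adj_jx] at e2
  rw [hgj, vB_inj, ← e1.1, ← e1.2.2, ← e2]

/-- the systems of the second layer between `x'` and `y'` -/
structure JH (Y : LinSys V E) (t : Tst b (Col m V E)) (H : SimpleGraph B) (ρ : RR b → B)
    (i : Fin m) (pt : Lb m → V → F2 → B) (y' : B) (J : V → F2 → B)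
    (jpt : V → F2 → V → F2 → B) (χ : V → F2 → F2) : Prop where
  adj1 : ∀ v a, H.Adj (pt (.T i) v a) (J v a)
  adj2 : ∀ v a, H.Adj (J v a) y'
  sys : ∀ v a, SysH Y t H ρ (.b i v) (J v a) (jpt v a) (χ v a)

lemma Std.ex_J (S : Std t H F ρ c) {x' y' : B} {bs : Lb m → B} {pt : Lb m → V → F2 → B}
    {hd : Lb m → F2} (hx : XH Y t H ρ x' bs pt hd) (hy : cH t H ρ .X y') (hne : x' ≠ y')
    (i : Fin m) (v : V) (a : F2) :
    ∃ j, cH t H ρ (.B (.b i v)) j ∧ H.Adj (pt (.T i) v a) j ∧ H.Adj j y' := by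
  obtain ⟨g, hg⟩ := S.pull ![x', y', bs (.T i), pt (.T i) v a] (by simp)
  obtain ⟨x, hg0⟩ := (cX_iff _).mp ((mt_col S.game hg .X 0).mpr hx.col)
  obtain ⟨y, hg1⟩ := (cX_iff _).mp ((mt_col S.game hg .X 1).mpr hy)
  have hxy : x ≠ y := by
    rintro rfl
    exact hne ((mt_iso S.game hg 0 1).1.mp (by rw [hg0, hg1]))
  have hg2 := S.pre_bs hx hg 0 2 x (.T i) hg0 rfl rfl
  obtain ⟨z, hg3⟩ := S.pre_pt (hx.sys (.T i)) hg 2 3 (.a x (.T i)) (okA _ _) rfl hg2 rfl v a rfl
  obtain ⟨f, hf⟩ := mt_one S.game hg (by have := S.big; simp; omega)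
  refine ⟨f (vB Y h b (.b x y i v z) (okB hxy i v z)), ((hf _).1 _).mp (cG_vB _ _), ?_, ?_⟩
  · refine ((hf _).2.1 3).mp ?_
    rw [hg3, adj_pj]
    exact ⟨rfl, rfl, rfl⟩
  · rw [H.adj_comm]
    refine ((hf _).2.1 1).mp ?_
    rw [hg1, SimpleGraph.adj_comm, adj_jx]

lemma Std.exists_JH [Fintype E] (hY : Y.Nice) (S : Std t H F ρ c) {x' y' : B} {bs : Lb m → B}
    {pt : Lb m → V → F2 → B}
    {hd : Lb m → F2} (hx : XH Y t H ρ x' bs pt hd) (hy : cH t H ρ .X y') (hne : x' ≠ y')
    (i : Fin m) : ∃ J jpt χ, JH Y t H ρ i pt y' J jpt χ := by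
  choose J h1 h2 h3 using S.ex_J hx hy hne i
  choose jpt χ hs using fun v a => S.exists_sysH hY (.b i v) (J v a) (h1 v a)
  exact ⟨J, jpt, χ, h2, h3, hs⟩

lemma Std.im_J (S : Std t H F ρ c) {x' y' : B} {bs : Lb m → B} {pt : Lb m → V → F2 → B}
    {hd : Lb m → F2} (hx : XH Y t H ρ x' bs pt hd) (hy : cH t H ρ .X y') {i : Fin m}
    {J : V → F2 → B} {jpt : V → F2 → V → F2 → B} {χ : V → F2 → F2}
    (hJ : JH Y t H ρ i pt y' J jpt χ) {v : V} {ι : Type} [Fintype ι]
    {g : ι → VT Y h b} {u : ι → B} (hm : Mt F ρ g u) (ip iy j : ι) {x y : X} {z z' : F2}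
    (hxy : x ≠ y)
    (hp : g ip = vP Y h b (.a x (.T i)) (okA x (.T i)) v z) (hup : u ip = pt (.T i) v z')
    (hgy : g iy = vX Y h b y) (huy : u iy = y')
    (hj : g j = vB Y h b (.b x y i v z) (okB hxy i v z)) : u j = J v z' := by
  apply S.uniq_J i v (p := pt (.T i) v z') (y' := y')
  · exact ((hx.sys (.T i)).ptc v z').1
  · exact hy
  · rw [← mt_col S.game hm, hj]
    exact cG_vB _ _
  · exact (hJ.sys v z').col
  · rw [← hup, ← (mt_iso S.game hm ip j).2, hp, hj, adj_pj]
    exact ⟨rfl, rfl, rfl⟩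
  · exact hJ.adj1 v z'
  · rw [← huy, ← (mt_iso S.game hm j iy).2, hj, hgy, adj_jx]
  · exact hJ.adj2 v z'

/-- positions -/
inductive Q20
  | x | y | bX | bY | px (a : F2) | py (a : F2) | jx (a : F2) | jy (a : F2) | qx (a z : F2)
  | qy (a z : F2)
  deriving Fintype, DecidableEq

lemma F2_phi : ∀ z z' D D' q : F2, (z + D) + (z' + D') = q ↔ z + z' = D + D' + q := by decide

lemma Std.phi (S : Std t H F ρ c) {x' y' : B} {bsx bsy : Lb m → B}
    {ptx pty : Lb m → V → F2 → B} {hdx hdy : Lb m → F2} (hx : XH Y t H ρ x' bsx ptx hdx)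
    (hy : XH Y t H ρ y' bsy pty hdy) (hne : x' ≠ y') {i : Fin m}
    {Jx Jy : V → F2 → B} {jpx jpy : V → F2 → V → F2 → B} {χx χy : V → F2 → F2}
    (hJx : JH Y t H ρ i ptx y' Jx jpx χx) (hJy : JH Y t H ρ i pty x' Jy jpy χy) (v w : V) :
    ∃ ζ ζ' d d' : F2 → F2, Function.Injective d ∧ Function.Injective d' ∧
      ∀ a b z z', H.Adj (jpx v a w z) (jpy w b v z') ↔ z + z' = ζ a + ζ' b + d a * d' b := by
  obtain ⟨g, hg⟩ := S.pull (fun q : Q20 => match q with
    | .x => x'
    | .y => y'
    | .bX => bsx (.T i)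
    | .bY => bsy (.T i)
    | .px a => ptx (.T i) v a
    | .py a => pty (.T i) w a
    | .jx a => Jx v a
    | .jy a => Jy w a
    | .qx a z => jpx v a w z
    | .qy a z => jpy w a v z) (by decide)
  obtain ⟨x, hg0⟩ := (cX_iff _).mp ((mt_col S.game hg .X .x).mpr hx.col)
  obtain ⟨y, hg1⟩ := (cX_iff _).mp ((mt_col S.game hg .X .y).mpr hy.col)
  have hxy : x ≠ y := by
    rintro rfl
    exact hne ((mt_iso S.game hg .x .y).1.mp (by rw [hg0, hg1]))
  have hbx := S.pre_bs hx hg .x .bX x (.T i) hg0 rfl rfl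
  have hby := S.pre_bs hy hg .y .bY y (.T i) hg1 rfl rfl
  choose d hd using fun a => S.pre_pt (hx.sys (.T i)) hg .bX (.px a) (.a x (.T i)) (okA _ _) rfl
    hbx rfl v a rfl
  choose d' hd' using fun a => S.pre_pt (hy.sys (.T i)) hg .bY (.py a) (.a y (.T i)) (okA _ _) rfl
    hby rfl w a rfl
  have hdi : Function.Injective d := by
    intro a a' haa
    exact (hx.sys (.T i)).inj v ((mt_iso S.game hg (.px a) (.px a')).1.mp (by rw [hd, hd, haa]))
  have hdi' : Function.Injective d' := by
    intro a a' haa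
    exact (hy.sys (.T i)).inj w ((mt_iso S.game hg (.py a) (.py a')).1.mp (by rw [hd', hd', haa]))
  have hjx : ∀ a, g (.jx a) = vB Y h b (.b x y i v (d a)) (okB hxy i v (d a)) := fun a =>
    S.pre_J hg (.px a) .y (.jx a) (hd a) hg1 hxy (hJx.sys v a).col (hJx.adj1 v a) (hJx.adj2 v a)
  have hjy : ∀ a, g (.jy a) = vB Y h b (.b y x i w (d' a)) (okB hxy.symm i w (d' a)) := fun a =>
    S.pre_J hg (.py a) .x (.jy a) (hd' a) hg0 hxy.symm (hJy.sys w a).col (hJy.adj1 w a)
      (hJy.adj2 w a)
  choose D hD using fun a z => S.pre_pt (hJx.sys v a) hg (.jx a) (.qx a z) _ (okB hxy i v (d a)) rfl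
    (hjx a) rfl w z rfl
  choose D' hD' using fun a z => S.pre_pt (hJy.sys w a) hg (.jy a) (.qy a z) _
    (okB hxy.symm i w (d' a)) rfl (hjy a) rfl v z rfl
  have hDi : ∀ a, Function.Injective (D a) := by
    intro a z z' hzz
    exact (hJx.sys v a).inj w ((mt_iso S.game hg (.qx a z) (.qx a z')).1.mp (by rw [hD, hD, hzz]))
  have hDi' : ∀ a, Function.Injective (D' a) := by
    intro a z z' hzz
    exact (hJy.sys w a).inj v ((mt_iso S.game hg (.qy a z) (.qy a z')).1.mp (by
      rw [hD', hD', hzz]))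
  refine ⟨fun a => D a 0, fun a => D' a 0, d, d', hdi, hdi', ?_⟩
  intro a a' z z'
  have h1 := (mt_iso S.game hg (.qx a z) (.qy a' z')).2
  rw [hD, hD', adj_PP, F2_shift _ (hDi a), F2_shift _ (hDi' a'), F2_phi] at h1
  rw [← h1]
  simp

/-- preimages of two distinct elements, followed by a prescribed extension -/
lemma Std.push_xy (S : Std t H F ρ c) {x' y' : B} (hx : cH t H ρ .X x') (hy : cH t H ρ .X y')
    (hne : x' ≠ y') : ∃ x y : X, x ≠ y ∧ ∀ (ι : Type) [Fintype ι] (g : ι → VT Y h b) (ix iy : ι),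
      Fintype.card ι ≤ 40 → g ix = vX Y h b x → g iy = vX Y h b y →
      ∃ u, Mt F ρ g u ∧ u ix = x' ∧ u iy = y' := by
  obtain ⟨g0, hg0⟩ := S.pull ![x', y'] (by simp)
  obtain ⟨x, hx0⟩ := (cX_iff _).mp ((mt_col S.game hg0 .X 0).mpr hx)
  obtain ⟨y, hy0⟩ := (cX_iff _).mp ((mt_col S.game hg0 .X 1).mpr hy)
  refine ⟨x, y, ?_, ?_⟩
  · rintro rfl
    exact hne ((mt_iso S.game hg0 0 1).1.mp (by rw [hx0, hy0]))
  · intro ι _ g ix iy hc hix hiy
    obtain ⟨u, hu⟩ := mt_push S.game hg0 g (by have := S.big; simp; omega)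
    refine ⟨u, mt_reindex S.game hu (fun i => Sum.inr i), ?_, ?_⟩
    · exact ((mt_iso S.game hu (Sum.inl 0) (Sum.inr ix)).1.mp (by
        simp only [Sum.elim_inl, Sum.elim_inr, hx0, hix])).symm
    · exact ((mt_iso S.game hu (Sum.inl 1) (Sum.inr iy)).1.mp (by
        simp only [Sum.elim_inl, Sum.elim_inr, hy0, hiy])).symm

/-- positions -/
inductive Q23
  | x | y | bX | bY | px (a : F2) | py (l : Fin 3) | jx (a : F2) | jy (l : Fin 3)
  | qx (a : F2) (l : Fin 3) | qy (l : Fin 3)
  deriving Fintype, DecidableEq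

lemma Std.clus1 [Fintype E] (hY : Y.Nice) (S : Std t H F ρ c) {x' y' : B} {bsx bsy : Lb m → B}
    {ptx pty : Lb m → V → F2 → B} {hdx hdy : Lb m → F2} (hx : XH Y t H ρ x' bsx ptx hdx)
    (hy : XH Y t H ρ y' bsy pty hdy) (hne : x' ≠ y') {i : Fin m}
    {Jx Jy : V → F2 → B} {jpx jpy : V → F2 → V → F2 → B} {χx χy : V → F2 → F2}
    (hJx : JH Y t H ρ i ptx y' Jx jpx χx) (hJy : JH Y t H ρ i pty x' Jy jpy χy)
    (φ : V → F2 → V → F2 → F2)
    (hφ : ∀ v a w b z z', H.Adj (jpx v a w z) (jpy w b v z') ↔ z + z' = φ v a w b)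
    (hφ2 : ∀ v w, φ v 0 w 0 + φ v 0 w 1 + φ v 1 w 0 + φ v 1 w 1 = 1) (v : V) :
    (∀ w b, φ v 0 w b + φ v 1 w b = b) ∧ χx v 0 + χx v 1 = hdy (.T i) := by
  obtain ⟨x, y, hxy, hpush⟩ := S.push_xy hx.col hy.col hne
  have hD : ∀ e, Y.D (fun w => φ v 0 w 0 + φ v 1 w 0) e =
      (χx v 0 + χx v 1 + hdy (.T i)) * Y.t0 e := by
    intro e
    obtain ⟨u, hu, hux, huy⟩ := hpush Q23 (fun q => match q with
      | .x => vX Y h b x
      | .y => vX Y h b y
      | .bX => vB Y h b (.a x (.T i)) (okA x (.T i))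
      | .bY => vB Y h b (.a y (.T i)) (okA y (.T i))
      | .px a => vP Y h b (.a x (.T i)) (okA x (.T i)) v a
      | .py l => match Y.inc e l with
        | none => vX Y h b x
        | some w => vP Y h b (.a y (.T i)) (okA y (.T i)) w 0
      | .jx a => vB Y h b (.b x y i v a) (okB hxy i v a)
      | .jy l => match Y.inc e l with
        | none => vX Y h b x
        | some w => vB Y h b (.b y x i w 0) (okB hxy.symm i w 0)
      | .qx a l => match Y.inc e l with
        | none => vX Y h b x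
        | some w => vP Y h b (.b x y i v a) (okB hxy i v a) w 0
      | .qy l => match Y.inc e l with
        | none => vX Y h b x
        | some w => vP Y h b (.b y x i w 0) (okB hxy.symm i w 0) v 0) .x .y (by decide) rfl rfl
    have hbx : u .bX = bsx (.T i) := S.im_bs hx hu .x .bX x (.T i) rfl hux rfl
    have hby : u .bY = bsy (.T i) := S.im_bs hy hu .y .bY y (.T i) rfl huy rfl
    choose δ hδ using fun a => S.PT hu (.a x (.T i)) (okA x (.T i)) .bX rfl (hid := hdx (.T i))
      (pt := ptx (.T i)) (by rw [hbx]; exact hx.sys (.T i)) (.px a) v a rfl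
    have hδi : Function.Injective δ := by
      intro a a' haa
      have h1 := (mt_iso S.game hu (.px a) (.px a')).1.mpr (by rw [hδ, hδ, haa])
      exact (vP_inj.mp h1).2.2
    have hpy : ∀ l, ∃ β, (Y.inc e l = none → β = 0) ∧ ∀ w, Y.inc e l = some w →
        u (.py l) = pty (.T i) w β := by
      intro l
      cases hl : Y.inc e l with
      | none => exact ⟨0, by simp, by simp⟩
      | some w =>
        obtain ⟨β, hβ⟩ := S.PT hu (.a y (.T i)) (okA y (.T i)) .bY rfl (hid := hdy (.T i))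
          (pt := pty (.T i)) (by rw [hby]; exact hy.sys (.T i)) (.py l) w 0 (by simp only [hl])
        refine ⟨β, by simp, fun w' hw' => ?_⟩
        simp only [Option.some.injEq] at hw'
        subst hw'
        exact hβ
    choose β hβ0 hβ using hpy
    have hjx : ∀ a, u (.jx a) = Jx v (δ a) := fun a =>
      S.im_J hx hy.col hJx hu (.px a) .y (.jx a) hxy rfl (hδ a) rfl huy rfl
    have hjy : ∀ l w, Y.inc e l = some w → u (.jy l) = Jy w (β l) := fun l w hl =>
      S.im_J hy hx.col hJy hu (.py l) .x (.jy l) hxy.symm (z := 0) (by simp only [hl]) (hβ l w hl)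
        rfl hux (by simp only [hl])
    have hqx : ∀ a l, ∃ z, (Y.inc e l = none → z = 0) ∧ ∀ w, Y.inc e l = some w →
        u (.qx a l) = jpx v (δ a) w z := by
      intro a l
      cases hl : Y.inc e l with
      | none => exact ⟨0, by simp, by simp⟩
      | some w =>
        obtain ⟨z, hz⟩ := S.PT hu (.b x y i v a) (okB hxy i v a) (.jx a) rfl
          (hid := χx v (δ a)) (pt := jpx v (δ a)) (by rw [hjx]; exact hJx.sys v (δ a))
          (.qx a l) w 0 (by simp only [hl])
        refine ⟨z, by simp, fun w' hw' => ?_⟩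
        simp only [Option.some.injEq] at hw'
        subst hw'
        exact hz
    choose z hz0 hz using hqx
    have hqy : ∀ l, ∃ z, (Y.inc e l = none → z = 0) ∧ ∀ w, Y.inc e l = some w →
        u (.qy l) = jpy w (β l) v z := by
      intro l
      cases hl : Y.inc e l with
      | none => exact ⟨0, by simp, by simp⟩
      | some w =>
        obtain ⟨z, hz⟩ := S.PT hu (.b y x i w 0) (okB hxy.symm i w 0) (.jy l)
          (by simp only [hl]) (hid := χy w (β l)) (pt := jpy w (β l)) (by
            rw [hjy l w hl]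
            exact hJy.sys w (β l))
          (.qy l) v 0 (by simp only [hl])
        refine ⟨z, by simp, fun w' hw' => ?_⟩
        simp only [Option.some.injEq] at hw'
        subst hw'
        exact hz
    choose z' hz0' hz' using hqy
    have hadj : ∀ a l w, Y.inc e l = some w → z a l + z' l = φ v (δ a) w (β l) := by
      intro a l w hl
      rw [← hφ, ← hz a l w hl, ← hz' l w hl, ← (mt_iso S.game hu (.qx a l) (.qy l)).2]
      simp only [hl]
      rw [adj_PP]
      simp
    have hrow : ∀ a, ∑ l, z a l = (a * h.hd y (.T i) + χx v (δ a)) * Y.t0 e := by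
      intro a
      have h1 := S.GT (by decide) hu (.b x y i v a) (okB hxy i v a) (.jx a)
        (hid := χx v (δ a)) (pt := jpx v (δ a)) (by rw [hjx]; exact hJx.sys v (δ a)) e
        (fun _ => 0) (z a) (by simp) (hz0 a) (fun l => .qx a l)
        (by intro l w hl; simp only [hl]) (by intro l w hl; exact hz a l w hl)
      simp only [Finset.sum_const_zero, zero_add] at h1
      rw [h1]
      rfl
    have hβs : ∑ l, β l = (h.hd y (.T i) + hdy (.T i)) * Y.t0 e := by
      have h1 := S.GT (by decide) hu (.a y (.T i)) (okA y (.T i)) .bY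
        (hid := hdy (.T i)) (pt := pty (.T i)) (by rw [hby]; exact hy.sys (.T i)) e
        (fun _ => 0) β (by simp) hβ0 (fun l => .py l)
        (by intro l w hl; simp only [hl]) (by intro l w hl; exact hβ l w hl)
      simp only [Finset.sum_const_zero, zero_add] at h1
      rw [h1]
      rfl
    have hslot : ∀ l, ev (fun w => φ v 0 w 0 + φ v 1 w 0) (Y.inc e l) =
        z 0 l + z 1 l + β l := by
      intro l
      cases hl : Y.inc e l with
      | none => rw [hz0 0 l hl, hz0 1 l hl, hβ0 l hl]; rfl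
      | some w =>
        have e0 := hadj 0 l w hl
        have e1 := hadj 1 l w hl
        have e2 := hφ2 v w
        have e3 : ∀ (p : F2 → F2 → F2) (δ : F2 → F2) (z0 z1 z' β : F2),
            Function.Injective δ → z0 + z' = p (δ 0) β → z1 + z' = p (δ 1) β →
            p 0 0 + p 0 1 + p 1 0 + p 1 1 = 1 → p 0 0 + p 1 0 = z0 + z1 + β := by
          intro p δ z0 z1 z' β hδ
          have : δ 0 ≠ δ 1 := fun hh => by
            have := hδ hh
            revert this
            decide
          have h5 : (δ 0 = 0 ∧ δ 1 = 1) ∨ (δ 0 = 1 ∧ δ 1 = 0) := by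
            revert this
            generalize δ 0 = x0
            generalize δ 1 = x1
            revert x0 x1
            decide
          rcases h5 with ⟨h5, h6⟩ | ⟨h5, h6⟩ <;> rw [h5, h6] <;>
            rcases F2_cases β with rfl | rfl <;>
            · generalize p 0 0 = p00
              generalize p 0 1 = p01
              generalize p 1 0 = p10
              generalize p 1 1 = p11
              clear * -
              revert z0 z1 z' p00 p01 p10 p11
              decide
        exact e3 (fun a b => φ v a w b) δ _ _ _ _ hδi e0 e1 e2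
    unfold LinSys.D
    rw [Finset.sum_congr rfl fun l _ => hslot l, Finset.sum_add_distrib, Finset.sum_add_distrib,
      hrow 0, hrow 1, hβs]
    have h5 : (χx v (δ 0) + χx v (δ 1)) = χx v 0 + χx v 1 := by
      have : δ 0 ≠ δ 1 := fun hh => by
        have := hδi hh
        revert this
        decide
      have h5 : (δ 0 = 0 ∧ δ 1 = 1) ∨ (δ 0 = 1 ∧ δ 1 = 0) := by
        revert this
        generalize δ 0 = x0
        generalize δ 1 = x1
        revert x0 x1
        decide
      rcases h5 with ⟨h5, h6⟩ | ⟨h5, h6⟩ <;> rw [h5, h6]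
      rw [add_comm]
    rw [← h5]
    generalize χx v (δ 0) = c1
    generalize χx v (δ 1) = c2
    generalize h.hd y (.T i) = c3
    generalize hdy (.T i) = c4
    generalize Y.t0 e = c5
    clear * -
    revert c1 c2 c3 c4 c5
    decide
  obtain ⟨h1, h2⟩ := hY.key _ _ hD
  refine ⟨fun w b => ?_, ?_⟩
  · have e1 := h2 w
    have e2 := hφ2 v w
    rcases F2_cases b with rfl | rfl
    · exact e1
    · beta_reduce at e1
      revert e1 e2
      generalize φ v 0 w 0 = c1
      generalize φ v 0 w 1 = c2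
      generalize φ v 1 w 0 = c3
      generalize φ v 1 w 1 = c4
      clear * -
      revert c1 c2 c3 c4
      decide
  · revert h1
    generalize χx v 0 = c1
    generalize χx v 1 = c2
    generalize hdy (.T i) = c3
    clear * -
    revert c1 c2 c3
    decide

/-- positions -/
inductive Q34
  | x | y | bX | bY | px (k : Fin 3) | py (l : Fin 3) | jx (k : Fin 3) | jy (l : Fin 3)
  | qx (k l : Fin 3) | qy (k l : Fin 3)
  deriving Fintype, DecidableEq

lemma F2_c2 : ∀ A C DD a a' b b' s s' al be : F2, a * b = 0 → al = (a + a') * s →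
    be = (b + b') * s' → (A + al * b') * s' + (C + be * a') * s = al * be + DD →
    A * s' + C * s + DD = a' * b' * s * s' := by
  intro A C DD a a' b b' s s' al be h0 h1 h2
  subst h1 h2
  revert h0
  revert A C DD a a' b b' s s'
  decide

lemma Std.clus2 [Fintype E] (S : Std t H F ρ c) {x' y' : B}
    {bsx bsy : Lb m → B}
    {ptx pty : Lb m → V → F2 → B} {hdx hdy : Lb m → F2} (hx : XH Y t H ρ x' bsx ptx hdx)
    (hy : XH Y t H ρ y' bsy pty hdy) (hne : x' ≠ y') {i : Fin m}
    {Jx Jy : V → F2 → B} {jpx jpy : V → F2 → V → F2 → B} {χx χy : V → F2 → F2}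
    (hJx : JH Y t H ρ i ptx y' Jx jpx χx) (hJy : JH Y t H ρ i pty x' Jy jpy χy)
    (φ : V → V → F2) 
    (hφ : ∀ v a w b z z', H.Adj (jpx v a w z) (jpy w b v z') ↔ z + z' = φ v w + a * b)
    (hχx : ∀ v a, χx v a = χx v 0 + a * hdy (.T i))
    (hχy : ∀ v a, χy v a = χy v 0 + a * hdx (.T i)) (e e' : E) :
    Y.D (fun v => χx v 0) e * Y.t0 e' + Y.D (fun w => χy w 0) e' * Y.t0 e +
      Y.D (fun w => Y.D (fun v => φ v w) e) e' = hdx (.T i) * hdy (.T i) * Y.t0 e * Y.t0 e' := by
  obtain ⟨x, y, hxy, hpush⟩ := S.push_xy hx.col hy.col hne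
  obtain ⟨u, hu, hux, huy⟩ := hpush Q34 (fun q => match q with
    | .x => vX Y h b x
    | .y => vX Y h b y
    | .bX => vB Y h b (.a x (.T i)) (okA x (.T i))
    | .bY => vB Y h b (.a y (.T i)) (okA y (.T i))
    | .px k => match Y.inc e k with
      | none => vX Y h b x
      | some v => vP Y h b (.a x (.T i)) (okA x (.T i)) v 0
    | .py l => match Y.inc e' l with
      | none => vX Y h b x
      | some w => vP Y h b (.a y (.T i)) (okA y (.T i)) w 0
    | .jx k => match Y.inc e k with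
      | none => vX Y h b x
      | some v => vB Y h b (.b x y i v 0) (okB hxy i v 0)
    | .jy l => match Y.inc e' l with
      | none => vX Y h b x
      | some w => vB Y h b (.b y x i w 0) (okB hxy.symm i w 0)
    | .qx k l => match Y.inc e k, Y.inc e' l with
      | some v, some w => vP Y h b (.b x y i v 0) (okB hxy i v 0) w 0
      | _, _ => vX Y h b x
    | .qy k l => match Y.inc e k, Y.inc e' l with
      | some v, some w => vP Y h b (.b y x i w 0) (okB hxy.symm i w 0) v 0
      | _, _ => vX Y h b x) .x .y (by decide) rfl rfl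
  have hbx : u .bX = bsx (.T i) := S.im_bs hx hu .x .bX x (.T i) rfl hux rfl
  have hby : u .bY = bsy (.T i) := S.im_bs hy hu .y .bY y (.T i) rfl huy rfl
  have hpx : ∀ k, ∃ α, (Y.inc e k = none → α = 0) ∧ ∀ v, Y.inc e k = some v →
      u (.px k) = ptx (.T i) v α := by
    intro k
    cases hk : Y.inc e k with
    | none => exact ⟨0, by simp, by simp⟩
    | some v =>
      obtain ⟨α, hα⟩ := S.PT hu (.a x (.T i)) (okA x (.T i)) .bX rfl (hid := hdx (.T i))
        (pt := ptx (.T i)) (by rw [hbx]; exact hx.sys (.T i)) (.px k) v 0 (by simp only [hk])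
      refine ⟨α, by simp, fun w' hw' => ?_⟩
      simp only [Option.some.injEq] at hw'
      subst hw'
      exact hα
  choose α hα0 hα using hpx
  have hpy : ∀ l, ∃ β, (Y.inc e' l = none → β = 0) ∧ ∀ w, Y.inc e' l = some w →
      u (.py l) = pty (.T i) w β := by
    intro l
    cases hl : Y.inc e' l with
    | none => exact ⟨0, by simp, by simp⟩
    | some w =>
      obtain ⟨β, hβ⟩ := S.PT hu (.a y (.T i)) (okA y (.T i)) .bY rfl (hid := hdy (.T i))
        (pt := pty (.T i)) (by rw [hby]; exact hy.sys (.T i)) (.py l) w 0 (by simp only [hl])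
      refine ⟨β, by simp, fun w' hw' => ?_⟩
      simp only [Option.some.injEq] at hw'
      subst hw'
      exact hβ
  choose β hβ0 hβ using hpy
  have hjx : ∀ k v, Y.inc e k = some v → u (.jx k) = Jx v (α k) := fun k v hk =>
    S.im_J hx hy.col hJx hu (.px k) .y (.jx k) hxy (z := 0) (by simp only [hk]) (hα k v hk)
      rfl huy (by simp only [hk])
  have hjy : ∀ l w, Y.inc e' l = some w → u (.jy l) = Jy w (β l) := fun l w hl =>
    S.im_J hy hx.col hJy hu (.py l) .x (.jy l) hxy.symm (z := 0) (by simp only [hl]) (hβ l w hl)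
      rfl hux (by simp only [hl])
  have hqx : ∀ k l, ∃ z, (Y.inc e k = none → z = 0) ∧ (Y.inc e' l = none → z = 0) ∧
      ∀ v w, Y.inc e k = some v → Y.inc e' l = some w → u (.qx k l) = jpx v (α k) w z := by
    intro k l
    cases hk : Y.inc e k with
    | none => exact ⟨0, by simp, by simp, by simp⟩
    | some v =>
      cases hl : Y.inc e' l with
      | none => exact ⟨0, by simp, by simp, by simp⟩
      | some w =>
        obtain ⟨z, hz⟩ := S.PT hu (.b x y i v 0) (okB hxy i v 0) (.jx k)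
          (by simp only [hk])
          (hid := χx v (α k)) (pt := jpx v (α k)) (by rw [hjx k v hk]; exact hJx.sys v (α k))
          (.qx k l) w 0 (by simp only [hk, hl])
        refine ⟨z, by simp, by simp, fun v' w' hv' hw' => ?_⟩
        simp only [Option.some.injEq] at hv' hw'
        subst hv' hw'
        exact hz
  choose z hz1 hz2 hz using hqx
  have hqy : ∀ k l, ∃ z, (Y.inc e k = none → z = 0) ∧ (Y.inc e' l = none → z = 0) ∧
      ∀ v w, Y.inc e k = some v → Y.inc e' l = some w → u (.qy k l) = jpy w (β l) v z := by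
    intro k l
    cases hk : Y.inc e k with
    | none => exact ⟨0, by simp, by simp, by simp⟩
    | some v =>
      cases hl : Y.inc e' l with
      | none => exact ⟨0, by simp, by simp, by simp⟩
      | some w =>
        obtain ⟨z, hz⟩ := S.PT hu (.b y x i w 0) (okB hxy.symm i w 0) (.jy l)
          (by simp only [hl])
          (hid := χy w (β l)) (pt := jpy w (β l)) (by rw [hjy l w hl]; exact hJy.sys w (β l))
          (.qy k l) v 0 (by simp only [hk, hl])
        refine ⟨z, by simp, by simp, fun v' w' hv' hw' => ?_⟩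
        simp only [Option.some.injEq] at hv' hw'
        subst hv' hw'
        exact hz
  choose z' hz1' hz2' hz' using hqy
  have hslot : ∀ k l, z k l + z' k l = α k * β l +
      ev (fun w => ev (fun v => φ v w) (Y.inc e k)) (Y.inc e' l) := by
    intro k l
    cases hk : Y.inc e k with
    | none =>
      rw [hz1 k l hk, hz1' k l hk, hα0 k hk]
      cases Y.inc e' l <;> simp
    | some v =>
      cases hl : Y.inc e' l with
      | none => rw [hz2 k l hl, hz2' k l hl, hβ0 l hl]; simp
      | some w =>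
        have h1 : z k l + z' k l = φ v w + α k * β l := by
          rw [← hφ, ← hz k l v w hk hl, ← hz' k l v w hk hl,
            ← (mt_iso S.game hu (.qx k l) (.qy k l)).2]
          simp only [hk, hl]
          rw [adj_PP]
          simp
        rw [h1, add_comm]
        rfl
  have hrow : ∀ k, ∑ l, z k l = (ev (fun v => χx v 0) (Y.inc e k) + α k * hdy (.T i)) * Y.t0 e' := by
    intro k
    cases hk : Y.inc e k with
    | none =>
      rw [Finset.sum_eq_zero fun l _ => hz1 k l hk, hα0 k hk]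
      simp
    | some v =>
      have h1 := S.GT (by decide) hu (.b x y i v 0) (okB hxy i v 0) (.jx k)
        (hid := χx v (α k)) (pt := jpx v (α k)) (by rw [hjx k v hk]; exact hJx.sys v (α k)) e'
        (fun _ => 0) (z k) (by simp) (hz2 k) (fun l => .qx k l)
        (by intro l w hl; simp only [hk, hl]) (by intro l w hl; exact hz k l v w hk hl)
      simp only [Finset.sum_const_zero, zero_add] at h1
      rw [h1, hχx v (α k)]
      change (0 * h.hd y (.T i) + _) * _ = _
      rw [zero_mul, zero_add]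
      rfl
  have hcol : ∀ l, ∑ k, z' k l = (ev (fun w => χy w 0) (Y.inc e' l) + β l * hdx (.T i)) * Y.t0 e := by
    intro l
    cases hl : Y.inc e' l with
    | none =>
      rw [Finset.sum_eq_zero fun k _ => hz2' k l hl, hβ0 l hl]
      simp
    | some w =>
      have h1 := S.GT (by decide) hu (.b y x i w 0) (okB hxy.symm i w 0) (.jy l)
        (hid := χy w (β l)) (pt := jpy w (β l)) (by rw [hjy l w hl]; exact hJy.sys w (β l)) e
        (fun _ => 0) (fun k => z' k l) (by simp) (fun k => hz1' k l) (fun k => .qy k l)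
        (by intro k v hk; simp only [hk, hl]) (by intro k v hk; exact hz' k l v w hk hl)
      simp only [Finset.sum_const_zero, zero_add] at h1
      rw [h1, hχy w (β l)]
      change (0 * h.hd x (.T i) + _) * _ = _
      rw [zero_mul, zero_add]
      rfl
  have hαs : ∑ k, α k = (h.hd x (.T i) + hdx (.T i)) * Y.t0 e := by
    have h1 := S.GT (by decide) hu (.a x (.T i)) (okA x (.T i)) .bX
      (hid := hdx (.T i)) (pt := ptx (.T i)) (by rw [hbx]; exact hx.sys (.T i)) e
      (fun _ => 0) α (by simp) hα0 (fun l => .px l)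
      (by intro l w hl; simp only [hl]) (by intro l w hl; exact hα l w hl)
    simp only [Finset.sum_const_zero, zero_add] at h1
    rw [h1]
    rfl
  have hβs : ∑ l, β l = (h.hd y (.T i) + hdy (.T i)) * Y.t0 e' := by
    have h1 := S.GT (by decide) hu (.a y (.T i)) (okA y (.T i)) .bY
      (hid := hdy (.T i)) (pt := pty (.T i)) (by rw [hby]; exact hy.sys (.T i)) e'
      (fun _ => 0) β (by simp) hβ0 (fun l => .py l)
      (by intro l w hl; simp only [hl]) (by intro l w hl; exact hβ l w hl)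
    simp only [Finset.sum_const_zero, zero_add] at h1
    rw [h1]
    rfl
  have htot : ∑ k, ∑ l, z k l + ∑ l, ∑ k, z' k l = (∑ k, α k) * (∑ l, β l) +
      Y.D (fun w => Y.D (fun v => φ v w) e) e' := by
    have h1 : Y.D (fun w => Y.D (fun v => φ v w) e) e' =
        ∑ k, ∑ l, ev (fun w => ev (fun v => φ v w) (Y.inc e k)) (Y.inc e' l) := by
      rw [Finset.sum_comm]
      unfold LinSys.D
      apply Finset.sum_congr rfl
      intro l _
      cases Y.inc e' l with
      | none => simp
      | some w => rfl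
    rw [h1, Finset.sum_mul_sum, Finset.sum_comm (f := fun l k => z' k l), ← Finset.sum_add_distrib,
      ← Finset.sum_add_distrib]
    apply Finset.sum_congr rfl
    intro k _
    rw [← Finset.sum_add_distrib, ← Finset.sum_add_distrib]
    apply Finset.sum_congr rfl
    intro l _
    exact hslot k l
  rw [Finset.sum_congr rfl fun k _ => hrow k, Finset.sum_congr rfl fun l _ => hcol l,
    ← Finset.sum_mul, ← Finset.sum_mul, Finset.sum_add_distrib, Finset.sum_add_distrib,
    ← Finset.sum_mul, ← Finset.sum_mul] at htot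
  exact F2_c2 _ _ _ _ _ _ _ _ _ _ _ (h.prod x y i hxy) hαs hβs htot

/-- the second layer of the other graph is canonical, and the hidden bits have product zero -/
theorem Std.pair [Fintype E] (hY : Y.Nice) (S : Std t H F ρ c) {x' y' : B} {bsx bsy : Lb m → B}
    {ptx pty : Lb m → V → F2 → B} {hdx hdy : Lb m → F2} (hx : XH Y t H ρ x' bsx ptx hdx)
    (hy : XH Y t H ρ y' bsy pty hdy) (hne : x' ≠ y') {i : Fin m}
    {Jx Jy : V → F2 → B} {jpx jpy : V → F2 → V → F2 → B} {χx χy : V → F2 → F2}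
    (hJx : JH Y t H ρ i ptx y' Jx jpx χx) (hJy : JH Y t H ρ i pty x' Jy jpy χy) :
    hdx (.T i) * hdy (.T i) = 0 ∧ (∀ v a, χx v a = a * hdy (.T i)) ∧
    (∀ v a w b z z', H.Adj (jpx v a w z) (jpy w b v z') ↔ z + z' = a * b) := by
  have h1 : ∀ v w, ∃ φ : F2 → F2 → F2, (φ 0 0 + φ 0 1 + φ 1 0 + φ 1 1 = 1) ∧
      ∀ a b z z', H.Adj (jpx v a w z) (jpy w b v z') ↔ z + z' = φ a b := by
    intro v w
    obtain ⟨ζ, ζ', d, d', hd, hd', hadj⟩ := S.phi hx hy hne hJx hJy v w
    refine ⟨fun a b => ζ a + ζ' b + d a * d' b, ?_, hadj⟩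
    have h2 : ∀ d : F2 → F2, Function.Injective d → d 0 + d 1 = 1 := by
      intro d hd
      rw [F2_shift d hd 1]
      generalize d 0 = x0
      clear * -
      revert x0
      decide
    have h3 := h2 d hd
    have h4 := h2 d' hd'
    revert h3 h4
    beta_reduce
    generalize d 0 = c1
    generalize d 1 = c2
    generalize d' 0 = c3
    generalize d' 1 = c4
    generalize ζ 0 = c5
    generalize ζ 1 = c6
    generalize ζ' 0 = c7
    generalize ζ' 1 = c8
    clear * -
    revert c1 c2 c3 c4 c5 c6 c7 c8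
    decide
  choose φ0 hφ2 hφ using h1
  obtain hA := S.clus1 hY hx hy hne hJx hJy (fun v a w b => φ0 v w a b)
    (fun v a w b => hφ v w a b) hφ2
  obtain hB := S.clus1 hY hy hx hne.symm hJy hJx (fun w b v a => φ0 v w a b)
    (fun w b v a z z' => by
      rw [H.adj_comm, hφ v w a b, add_comm]) (fun w v => by
      have := hφ2 v w
      revert this
      generalize φ0 v w 0 0 = c1
      generalize φ0 v w 0 1 = c2
      generalize φ0 v w 1 0 = c3
      generalize φ0 v w 1 1 = c4
      clear * -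
      revert c1 c2 c3 c4
      decide)
  have hφ' : ∀ v w a b, φ0 v w a b = φ0 v w 0 0 + a * b := by
    intro v w a b
    have e1 := (hA v).1 w 0
    have e2 := (hA v).1 w 1
    have e3 := (hB w).1 v 0
    revert e1 e2 e3
    beta_reduce
    rcases F2_cases a with rfl | rfl <;> rcases F2_cases b with rfl | rfl <;>
    · generalize φ0 v w 0 0 = c1
      generalize φ0 v w 0 1 = c2
      generalize φ0 v w 1 0 = c3
      generalize φ0 v w 1 1 = c4
      clear * -
      revert c1 c2 c3 c4
      decide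
  have hχx : ∀ v a, χx v a = χx v 0 + a * hdy (.T i) := by
    intro v a
    have e1 := (hA v).2
    revert e1
    rcases F2_cases a with rfl | rfl <;>
    · generalize χx v 0 = c1
      generalize χx v 1 = c2
      generalize hdy (.T i) = c3
      clear * -
      revert c1 c2 c3
      decide
  have hχy : ∀ v a, χy v a = χy v 0 + a * hdx (.T i) := by
    intro v a
    have e1 := (hB v).2
    revert e1
    rcases F2_cases a with rfl | rfl <;>
    · generalize χy v 0 = c1
      generalize χy v 1 = c2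
      generalize hdx (.T i) = c3
      clear * -
      revert c1 c2 c3
      decide
  have hC := S.clus2 hx hy hne hJx hJy (fun v w => φ0 v w 0 0) (fun v a w b z z' => by
    rw [hφ, hφ' v w a b]) hχx hχy
  -- sum over the second equation
  have hE : ∀ e, (Y.D (fun v => χx v 0) e + hdx (.T i) * hdy (.T i) * Y.t0 e) = 0 ∧
      ∀ w, Y.t0 e * χy w 0 + Y.D (fun v => φ0 v w 0 0) e = 0 := by
    intro e
    have h5 : ∀ e', Y.D (fun w => Y.t0 e * χy w 0 + Y.D (fun v => φ0 v w 0 0) e) e' =
        (Y.D (fun v => χx v 0) e + hdx (.T i) * hdy (.T i) * Y.t0 e) * Y.t0 e' := by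
      intro e'
      have h6 : Y.D (fun w => Y.t0 e * χy w 0 + Y.D (fun v => φ0 v w 0 0) e) e' =
          Y.t0 e * Y.D (fun w => χy w 0) e' + Y.D (fun w => Y.D (fun v => φ0 v w 0 0) e) e' := by
        conv_lhs => unfold LinSys.D
        conv_rhs => unfold LinSys.D
        rw [Finset.mul_sum, ← Finset.sum_add_distrib]
        apply Finset.sum_congr rfl
        intro k _
        cases Y.inc e' k with
        | none => simp
        | some w => rfl
      rw [h6]
      have h7 := hC e e'
      revert h7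
      generalize Y.D (fun v => χx v 0) e = c1
      generalize Y.D (fun w => χy w 0) e' = c2
      generalize Y.D (fun w => Y.D (fun v => φ0 v w 0 0) e) e' = c3
      generalize hdx (.T i) = c4
      generalize hdy (.T i) = c5
      generalize Y.t0 e = c6
      generalize Y.t0 e' = c7
      clear * -
      revert c1 c2 c3 c4 c5 c6 c7
      decide
    exact hY.key _ _ h5
  have hF : ∀ e, Y.D (fun v => χx v 0) e = hdx (.T i) * hdy (.T i) * Y.t0 e := by
    intro e
    have := (hE e).1
    revert this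
    generalize Y.D (fun v => χx v 0) e = c1
    generalize hdx (.T i) * hdy (.T i) * Y.t0 e = c2
    clear * -
    revert c1 c2
    decide
  obtain ⟨hprod, hχ0⟩ := hY.key _ _ hF
  have hG : ∀ w v, φ0 v w 0 0 = 0 := by
    intro w
    have h8 : ∀ e, Y.D (fun v => φ0 v w 0 0) e = χy w 0 * Y.t0 e := by
      intro e
      have := (hE e).2 w
      revert this
      generalize Y.D (fun v => φ0 v w 0 0) e = c1
      generalize χy w 0 = c2
      generalize Y.t0 e = c3
      clear * -
      revert c1 c2 c3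
      decide
    exact (hY.key _ _ h8).2
  refine ⟨hprod, fun v a => ?_, fun v a w b z z' => ?_⟩
  · rw [hχx v a, hχ0 v, zero_add]
  · rw [hφ, hφ' v w a b, hG w v, zero_add]

end

end Pool.Agent.helper78.HP
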