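import Pool.Agent.helper78.HP.Ident3

/-!
Identification, part 4: the other graph is a hidden permutation graph.
-/

set_option autoImplicit false
set_option linter.unusedSectionVars false

namespace Pool.Agent.helper78.HP

section

variable {X V E : Type} {m b : ℕ} [DecidableEq E]
variable {Y : LinSys V E} {h : Hid X m} {t : Tst b (Col m V E)}
variable {B : Type} [DecidableEq (VT Y h b × B)] {H : SimpleGraph B}
  {F : Set (Finset (VT Y h b × B))} {ρ : RR b → B} {c : ℕ}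

/-- canonical coordinates for the whole of the other graph -/
structure Full (Y : LinSys V E) (t : Tst b (Col m V E)) (H : SimpleGraph B) (ρ : RR b → B)
    (h' : Hid X m) (xs : X → B) (base : Sy X m V → B) (ptt : Sy X m V → V → F2 → B) : Prop where
  xcol : ∀ x, cH t H ρ .X (xs x)
  xinj : Function.Injective xs
  top : ∀ σ, σ.ok → H.Adj (base σ) (xs σ.top)
  sys : ∀ σ, σ.ok → SysH Y t H ρ σ.kol (base σ) (ptt σ) (h'.hid σ)
  low : ∀ x y i v c, x ≠ y → H.Adj (ptt (.a x (.T i)) v c) (base (.b x y i v c))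
  sg : ∀ x s v (α : Fin 3 → F2), (∀ k, sl s k = none → α k = 0) →
    ((∃ g, cH t H ρ (.S s v) g ∧ ∀ k τ, sl s k = some τ → H.Adj g (ptt (.a x τ) v (α k))) ↔
      ∑ k, α k = 0)
  pp : ∀ x y i v a w b z z', x ≠ y →
    (H.Adj (ptt (.b x y i v a) w z) (ptt (.b y x i w b) v z') ↔ z + z' = a * b)

lemma Std.exists_full [Fintype E] [Nonempty B] (hY : Y.Nice) (S : Std t H F ρ c) :
    ∃ (h' : Hid X m) (xs : X → B) (base : Sy X m V → B) (ptt : Sy X m V → V → F2 → B),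
      Full Y t H ρ h' xs base ptt := by
  obtain ⟨f, hf⟩ := mt_one S.game S.rul (by have := S.big; simp; omega)
  set xs : X → B := fun x => f (vX Y h b x) with hxs
  have hxc : ∀ x, cH t H ρ .X (xs x) := fun x => ((hf _).1 _).mp (cG_vX x)
  have hxi : Function.Injective xs := fun x y hxy => vX_inj.mp (f.injective hxy)
  choose bs pt hd hXH using fun x => S.exists_XH hY (xs x) (hxc x)
  have hJ : ∀ x y (i : Fin m), ∃ J jpt χ, x ≠ y → JH Y t H ρ i (pt x) (xs y) J jpt χ := by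
    intro x y i
    by_cases hxy : x = y
    · exact ⟨fun _ _ => Classical.arbitrary B, fun _ _ _ _ => Classical.arbitrary B,
        fun _ _ => 0, fun hh => (hh hxy).elim⟩
    · obtain ⟨J, jpt, χ, hj⟩ := S.exists_JH hY (hXH x) (hxc y) (fun hh => hxy (hxi hh)) i
      exact ⟨J, jpt, χ, fun _ => hj⟩
  choose J jpt χ hJ using hJ
  have hpair := fun x y (i : Fin m) (hxy : x ≠ y) =>
    S.pair hY (hXH x) (hXH y) (fun hh => hxy (hxi hh)) (hJ x y i hxy) (hJ y x i hxy.symm)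
  refine ⟨⟨hd, fun x s => (S.sgad hY (hXH x) s).1, fun x y i hxy => (hpair x y i hxy).1⟩, xs,
    fun σ => match σ with
      | .a x τ => bs x τ
      | .b x y i v c => J x y i v c,
    fun σ => match σ with
      | .a x τ => pt x τ
      | .b x y i v c => jpt x y i v c, ?_⟩
  refine ⟨hxc, hxi, ?_, ?_, ?_, ?_, ?_⟩
  · rintro (⟨x, τ⟩ | ⟨x, y, i, v, c⟩) hσ
    · exact (hXH x).adj τ
    · exact (hJ x y i hσ).adj2 v c
  · rintro (⟨x, τ⟩ | ⟨x, y, i, v, c⟩) hσ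
    · exact (hXH x).sys τ
    · have h1 := (hJ x y i hσ).sys v c
      rw [(hpair x y i hσ).2.1 v c] at h1
      exact h1
  · intro x y i v c hxy
    exact (hJ x y i hxy).adj1 v c
  · intro x s v α hα
    exact (S.sgad hY (hXH x) s).2 v α hα
  · intro x y i v a w b z z' hxy
    exact (hpair x y i hxy).2.2 v a w b z z'

/-- colour edges -/
def CE (Y : LinSys V E) : Col m V E → Col m V E → Prop
  | .B _, .X => True
  | .B (.b i v), .P κ v' => κ = .a (.T i) ∧ v' = v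
  | .P κ _, .B κ' => κ' = κ
  | .G κ e, .P κ' v => κ' = κ ∧ ∃ k, Y.inc e k = some v
  | .S s v, .P κ v' => v' = v ∧ ∃ k τ, sl s k = some τ ∧ κ = .a τ
  | .P (.b i v) w, .P (.b i' v') w' => i' = i ∧ v' = w ∧ w' = v
  | _, _ => False

lemma E1_CE {w w' : Vx X m V E} (hw : E1 Y w w') : CE Y w.col w'.col := by
  rcases w with x | (⟨x, τ⟩ | ⟨x, y, i, u, d⟩) | ⟨⟨x, τ⟩ | ⟨x, y, i, u, d⟩, v, g⟩ |
    ⟨⟨x, τ⟩ | ⟨x, y, i, u, d⟩, e, α⟩ | ⟨x, s, v, α⟩ <;>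
  rcases w' with x' | (⟨x', τ'⟩ | ⟨x', y', i', u', d'⟩) |
    ⟨⟨x', τ'⟩ | ⟨x', y', i', u', d'⟩, v', g'⟩ |
    ⟨⟨x', τ'⟩ | ⟨x', y', i', u', d'⟩, e', α'⟩ | ⟨x', s', v', α'⟩ <;>
  first
  | exact hw.elim
  | (simp only [E1] at hw
     simp_all [CE, Vx.col, Sy.kol]
     done)
  | (simp only [E1] at hw
     obtain ⟨h1, k, h2, h3⟩ := hw
     exact ⟨congrArg Sy.kol h1, k, h2⟩)
  | (simp only [E1] at hw
     obtain ⟨h1, k, τ, h2, h3, h4⟩ := hw
     exact ⟨h1, k, τ, h2, congrArg Sy.kol h3⟩)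

lemma adj_CE {γ γ' : Col m V E} {a a' : VT Y h b} (h1 : cG γ a) (h2 : cG γ' a')
    (hadj : (gr Y h t).Adj a a') : CE Y γ γ' ∨ CE Y γ' γ := by
  obtain ⟨w, rfl, rfl⟩ := h1
  obtain ⟨w', rfl, rfl⟩ := h2
  rcases hadj with hh | hh
  · exact Or.inl (E1_CE hh)
  · exact Or.inr (E1_CE hh)

lemma Std.adj_CE (S : Std t H F ρ c) {γ γ' : Col m V E} {u u' : B} (h1 : cH t H ρ γ u)
    (h2 : cH t H ρ γ' u') (hadj : H.Adj u u') : CE Y γ γ' ∨ CE Y γ' γ := by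
  obtain ⟨g, hg⟩ := S.pull ![u, u'] (by simp)
  exact HP.adj_CE (t := t) ((mt_col S.game hg γ 0).mpr h1) ((mt_col S.game hg γ' 1).mpr h2)
    ((mt_iso S.game hg 0 1).2.mpr hadj)

def vG (Y : LinSys V E) (h : Hid X m) (b : ℕ) (σ : Sy X m V) (e : E) (α : Fin 3 → F2)
    (hw : ok Y h (.G σ e α)) : VT Y h b := .inr ⟨.G σ e α, hw⟩
def vS (Y : LinSys V E) (h : Hid X m) (b : ℕ) (x : X) (s : Sm m) (v : V) (α : Fin 3 → F2)
    (hw : ok Y h (.S x s v α)) : VT Y h b := .inr ⟨.S x s v α, hw⟩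

lemma cGG_iff (κ : Kp m V) (e : E) (a : VT Y h b) :
    cG (.G κ e) a ↔ ∃ σ α hw, a = vG Y h b σ e α hw ∧ σ.kol = κ := by
  constructor
  · rintro ⟨⟨w, hw⟩, rfl, hcol⟩
    obtain ⟨σ, α, rfl, hk⟩ := col_G hcol
    exact ⟨σ, α, hw, rfl, hk⟩
  · rintro ⟨σ, α, hw, rfl, rfl⟩
    exact ⟨_, rfl, rfl⟩

lemma cSS_iff (s : Sm m) (v : V) (a : VT Y h b) :
    cG (.S s v) a ↔ ∃ x α hw, a = vS Y h b x s v α hw := by
  constructor
  · rintro ⟨⟨w, hw⟩, rfl, hcol⟩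
    obtain ⟨x, α, rfl⟩ := col_S hcol
    exact ⟨x, α, hw, rfl⟩
  · rintro ⟨x, α, hw, rfl⟩
    exact ⟨_, rfl, rfl⟩

lemma adj_GP (σ σ' : Sy X m V) (e : E) (α : Fin 3 → F2) (v : V) (d : F2)
    (hw : ok Y h (.G σ e α)) (hσ' : σ'.ok) :
    (gr Y h t).Adj (vG Y h b σ e α hw) (vP Y h b σ' hσ' v d) ↔
      σ' = σ ∧ ∃ k, Y.inc e k = some v ∧ α k = d := AA_GP Y σ σ' e α v d

lemma adj_SP (x : X) (s : Sm m) (u : V) (α : Fin 3 → F2) (σ : Sy X m V) (v : V) (d : F2)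
    (hw : ok Y h (.S x s u α)) (hσ : σ.ok) :
    (gr Y h t).Adj (vS Y h b x s u α hw) (vP Y h b σ hσ v d) ↔
      v = u ∧ ∃ k τ, sl s k = some τ ∧ σ = .a x τ ∧ α k = d := AA_SP Y x s u α σ v d

/-- unique neighbours, base to element -/
lemma Std.u1 (S : Std t H F ρ c) {κ : Kp m V} {u x1 x2 : B} (hu : cH t H ρ (.B κ) u)
    (h1 : cH t H ρ .X x1) (h2 : cH t H ρ .X x2) (a1 : H.Adj u x1) (a2 : H.Adj u x2) :
    x1 = x2 := by
  refine (S.ex1 (γ := .B κ) (γ' := .X) ?_ u hu).unique ⟨h1, a1⟩ ⟨h2, a2⟩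
  intro a ha
  obtain ⟨σ, hσ, rfl, -⟩ := (cB_iff _ _).mp ha
  refine ⟨vX Y h b σ.top, ⟨cG_vX _, (adj_BX _ _ _).mpr rfl⟩, ?_⟩
  rintro a' ⟨h3, h4⟩
  obtain ⟨x, rfl⟩ := (cX_iff _).mp h3
  rw [adj_BX] at h4
  rw [h4]

/-- unique neighbours, point to base -/
lemma Std.u2 (S : Std t H F ρ c) {κ : Kp m V} {v : V} {u x1 x2 : B}
    (hu : cH t H ρ (.P κ v) u)
    (h1 : cH t H ρ (.B κ) x1) (h2 : cH t H ρ (.B κ) x2) (a1 : H.Adj u x1) (a2 : H.Adj u x2) :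
    x1 = x2 := by
  refine (S.ex1 (γ := .P κ v) (γ' := .B κ) ?_ u hu).unique ⟨h1, a1⟩ ⟨h2, a2⟩
  intro a ha
  obtain ⟨σ, hσ, d, rfl, rfl⟩ := (cP_iff _ _ _).mp ha
  refine ⟨vB Y h b σ hσ, ⟨cG_vB _ _, (adj_PB _ _ _ _ _ _ rfl).mpr rfl⟩, ?_⟩
  rintro a' ⟨h3, h4⟩
  obtain ⟨σ', hσ', rfl, hk⟩ := (cB_iff _ _).mp h3
  rw [adj_PB _ _ _ _ _ _ hk] at h4
  exact vB_inj.mpr h4

/-- unique neighbours, second layer base to point -/
lemma Std.u3 (S : Std t H F ρ c) {i : Fin m} {v : V} {u x1 x2 : B}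
    (hu : cH t H ρ (.B (.b i v)) u)
    (h1 : cH t H ρ (.P (.a (.T i)) v) x1) (h2 : cH t H ρ (.P (.a (.T i)) v) x2)
    (a1 : H.Adj u x1) (a2 : H.Adj u x2) : x1 = x2 := by
  refine (S.ex1 (γ := .B (.b i v)) (γ' := .P (.a (.T i)) v) ?_ u hu).unique ⟨h1, a1⟩ ⟨h2, a2⟩
  intro a ha
  obtain ⟨x, y, z, hxy, rfl⟩ := (cBb_iff _ _ _).mp ha
  refine ⟨vP Y h b (.a x (.T i)) (okA x (.T i)) v z, ⟨cG_vP _ _ _ _, ?_⟩, ?_⟩
  · rw [SimpleGraph.adj_comm, adj_pj]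
    exact ⟨rfl, rfl, rfl⟩
  rintro a' ⟨h3, h4⟩
  obtain ⟨x', z', rfl⟩ := (cPa_iff _ _ _).mp h3
  rw [SimpleGraph.adj_comm, adj_pj] at h4
  rw [h4.1, h4.2.2]

/-- unique neighbours, gadget to point -/
lemma Std.u4 (S : Std t H F ρ c) {κ : Kp m V} {e : E} {k : Fin 3} {v : V}
    (hk : Y.inc e k = some v) {u x1 x2 : B} (hu : cH t H ρ (.G κ e) u)
    (h1 : cH t H ρ (.P κ v) x1) (h2 : cH t H ρ (.P κ v) x2)
    (a1 : H.Adj u x1) (a2 : H.Adj u x2) : x1 = x2 := by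
  refine (S.ex1 (γ := .G κ e) (γ' := .P κ v) ?_ u hu).unique ⟨h1, a1⟩ ⟨h2, a2⟩
  intro a ha
  obtain ⟨σ, α, hw, rfl, rfl⟩ := (cGG_iff _ _ _).mp ha
  refine ⟨vP Y h b σ hw.1 v (α k), ⟨cG_vP _ _ _ _, ?_⟩, ?_⟩
  · rw [adj_GP]
    exact ⟨rfl, k, hk, rfl⟩
  rintro a' ⟨h3, h4⟩
  obtain ⟨σ', hσ', z', rfl, -⟩ := (cP_iff _ _ _).mp h3
  rw [adj_GP] at h4
  obtain ⟨h5, k', h6, h7⟩ := h4
  have := Y.inj e k k' v hk h6
  subst this
  rw [vP_inj]
  exact ⟨h5, rfl, h7.symm⟩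

/-- unique neighbours, sum gadget to point -/
lemma Std.u5 (S : Std t H F ρ c) {s : Sm m} {k : Fin 3} {τ : Lb m} {v : V}
    (hk : sl s k = some τ) {u x1 x2 : B} (hu : cH t H ρ (.S s v) u)
    (h1 : cH t H ρ (.P (.a τ) v) x1) (h2 : cH t H ρ (.P (.a τ) v) x2)
    (a1 : H.Adj u x1) (a2 : H.Adj u x2) : x1 = x2 := by
  refine (S.ex1 (γ := .S s v) (γ' := .P (.a τ) v) ?_ u hu).unique ⟨h1, a1⟩ ⟨h2, a2⟩
  intro a ha
  obtain ⟨x, α, hw, rfl⟩ := (cSS_iff _ _ _).mp ha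
  refine ⟨vP Y h b (.a x τ) (okA x τ) v (α k), ⟨cG_vP _ _ _ _, ?_⟩, ?_⟩
  · rw [adj_SP]
    exact ⟨rfl, k, τ, hk, rfl, rfl⟩
  rintro a' ⟨h3, h4⟩
  obtain ⟨x', z', rfl⟩ := (cPa_iff _ _ _).mp h3
  rw [adj_SP] at h4
  obtain ⟨-, k', τ', h6, h7, h8⟩ := h4
  simp only [Sy.a.injEq] at h7
  obtain ⟨rfl, rfl⟩ := h7
  have := sl_inj s k k' _ hk h6
  subst this
  rw [h8]

/-- equation gadgets are determined by their neighbours -/
lemma Std.uniq_G (S : Std t H F ρ c) {κ : Kp m V} {e : E} {g1 g2 : B} (p : Fin 3 → B)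
    (h1 : cH t H ρ (.G κ e) g1) (h2 : cH t H ρ (.G κ e) g2)
    (hp : ∀ k v, Y.inc e k = some v → cH t H ρ (.P κ v) (p k) ∧ H.Adj g1 (p k) ∧
      H.Adj g2 (p k)) : g1 = g2 := by
  obtain ⟨g, hg⟩ := S.pull (Sum.elim ![g1, g2] p) (by simp)
  obtain ⟨σ1, α1, hw1, hg1, hk1⟩ := (cGG_iff _ _ _).mp
    ((mt_col S.game hg (.G κ e) (.inl 0)).mpr h1)
  obtain ⟨σ2, α2, hw2, hg2, hk2⟩ := (cGG_iff _ _ _).mp
    ((mt_col S.game hg (.G κ e) (.inl 1)).mpr h2)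
  have key : ∀ k v, Y.inc e k = some v → σ1 = σ2 ∧ α1 k = α2 k := by
    intro k v hk
    obtain ⟨h3, h4, h5⟩ := hp k v hk
    obtain ⟨σ, hσ, d, hgk, -⟩ := (cP_iff _ _ _).mp ((mt_col S.game hg (.P κ v) (.inr k)).mpr h3)
    have h6 := (mt_iso S.game hg (.inl 0) (.inr k)).2.mpr h4
    have h7 := (mt_iso S.game hg (.inl 1) (.inr k)).2.mpr h5
    rw [hg1, hgk, adj_GP] at h6
    rw [hg2, hgk, adj_GP] at h7
    obtain ⟨h8, k1, h9, h10⟩ := h6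
    obtain ⟨h11, k2, h12, h13⟩ := h7
    have e1 := Y.inj e k k1 v hk h9
    have e2 := Y.inj e k k2 v hk h12
    subst e1 e2
    exact ⟨h8.symm.trans h11, h10.trans h13.symm⟩
  obtain ⟨k0, v0, hk0⟩ := Y.ne e
  have hσ := (key k0 v0 hk0).1
  have hα : α1 = α2 := by
    funext k
    cases hk : Y.inc e k with
    | none => rw [hw1.2.1 k hk, hw2.2.1 k hk]
    | some v => exact (key k v hk).2
  subst hσ hα
  exact (mt_iso S.game hg (.inl 0) (.inl 1)).1.mp (by rw [hg1, hg2])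

/-- sum gadgets are determined by their neighbours -/
lemma Std.uniq_S (S : Std t H F ρ c) {s : Sm m} {v : V} {g1 g2 : B} (p : Fin 3 → B)
    (h1 : cH t H ρ (.S s v) g1) (h2 : cH t H ρ (.S s v) g2)
    (hp : ∀ k τ, sl s k = some τ → cH t H ρ (.P (.a τ) v) (p k) ∧ H.Adj g1 (p k) ∧
      H.Adj g2 (p k)) : g1 = g2 := by
  obtain ⟨g, hg⟩ := S.pull (Sum.elim ![g1, g2] p) (by simp)
  obtain ⟨x1, α1, hw1, hg1⟩ := (cSS_iff _ _ _).mp ((mt_col S.game hg (.S s v) (.inl 0)).mpr h1)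
  obtain ⟨x2, α2, hw2, hg2⟩ := (cSS_iff _ _ _).mp ((mt_col S.game hg (.S s v) (.inl 1)).mpr h2)
  have key : ∀ k τ, sl s k = some τ → x1 = x2 ∧ α1 k = α2 k := by
    intro k τ hk
    obtain ⟨h3, h4, h5⟩ := hp k τ hk
    obtain ⟨x, d, hgk⟩ := (cPa_iff _ _ _).mp ((mt_col S.game hg (.P (.a τ) v) (.inr k)).mpr h3)
    have h6 := (mt_iso S.game hg (.inl 0) (.inr k)).2.mpr h4
    have h7 := (mt_iso S.game hg (.inl 1) (.inr k)).2.mpr h5
    rw [hg1, hgk, adj_SP] at h6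
    rw [hg2, hgk, adj_SP] at h7
    obtain ⟨-, k1, τ1, h9, h8, h10⟩ := h6
    obtain ⟨-, k2, τ2, h12, h11, h13⟩ := h7
    simp only [Sy.a.injEq] at h8 h11
    obtain ⟨rfl, rfl⟩ := h8
    obtain ⟨rfl, rfl⟩ := h11
    have e1 := sl_inj s k k1 _ hk h9
    have e2 := sl_inj s k k2 _ hk h12
    subst e1 e2
    exact ⟨rfl, h10.trans h13.symm⟩
  obtain ⟨k0, v0, hk0⟩ := sl_some s
  have hσ := (key k0 v0 hk0).1
  have hα : α1 = α2 := by
    funext k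
    cases hk : sl s k with
    | none => rw [hw1.1 k hk, hw2.1 k hk]
    | some v => exact (key k v hk).2
  subst hσ hα
  exact (mt_iso S.game hg (.inl 0) (.inl 1)).1.mp (by rw [hg1, hg2])

/-- positions -/
inductive Q12
  | p (a : Bool) | j (a : Bool) | x (a : Bool) | y (a : Bool) | bx (a : Bool) | q (a : Bool)
  deriving Fintype, DecidableEq

section full

variable {h' : Hid X m} {xs : X → B} {base : Sy X m V → B} {ptt : Sy X m V → V → F2 → B}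

/-- linked points of the second layer -/
lemma Std.link (S : Std t H F ρ c) (U : Full Y t H ρ h' xs base ptt) {x y x' y' : X} {i : Fin m}
    {v w : V} {d d' z z' : F2} (hxy : x ≠ y) (hxy' : x' ≠ y')
    (hadj : H.Adj (ptt (.b x y i v d) w z) (ptt (.b x' y' i w d') v z')) : x' = y ∧ y' = x := by
  have o1 := okB (V := V) hxy i v d
  have o2 := okB (V := V) hxy' i w d'
  obtain ⟨g, hg⟩ := S.pull (fun qq : Q12 => match qq with
    | (.p false) => ptt (.b x y i v d) w z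
    | (.p true) => ptt (.b x' y' i w d') v z'
    | (.j false) => base (.b x y i v d)
    | (.j true) => base (.b x' y' i w d')
    | (.x false) => xs x
    | (.y false) => xs y
    | (.x true) => xs x'
    | (.y true) => xs y'
    | (.bx false) => base (.a x (.T i))
    | (.bx true) => base (.a x' (.T i))
    | (.q false) => ptt (.a x (.T i)) v d
    | (.q true) => ptt (.a x' (.T i)) w d') (by decide)
  obtain ⟨x1, hg1⟩ := (cX_iff _).mp ((mt_col S.game hg .X (.x false)).mpr (U.xcol x))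
  obtain ⟨y1, hg2⟩ := (cX_iff _).mp ((mt_col S.game hg .X (.y false)).mpr (U.xcol y))
  obtain ⟨x2, hg3⟩ := (cX_iff _).mp ((mt_col S.game hg .X (.x true)).mpr (U.xcol x'))
  obtain ⟨y2, hg4⟩ := (cX_iff _).mp ((mt_col S.game hg .X (.y true)).mpr (U.xcol y'))
  have hxy1 : x1 ≠ y1 := by
    rintro rfl
    exact hxy (U.xinj ((mt_iso S.game hg (.x false) (.y false)).1.mp (by rw [hg1, hg2])))
  have hxy2 : x2 ≠ y2 := by
    rintro rfl
    exact hxy' (U.xinj ((mt_iso S.game hg (.x true) (.y true)).1.mp (by rw [hg3, hg4])))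
  have hbx : g (.bx false) = vB Y h b (.a x1 (.T i)) (okA x1 (.T i)) := by
    obtain ⟨x3, hx3⟩ := (cBa_iff _ _).mp ((mt_col S.game hg (.B (.a (.T i))) (.bx false)).mpr
      (U.sys (.a x (.T i)) trivial).col)
    have h1 := (mt_iso S.game hg (.bx false) (.x false)).2.mpr (U.top (.a x (.T i)) trivial)
    rw [hx3, hg1, adj_BX] at h1
    rw [hx3, vB_inj, h1]
    rfl
  have hbx' : g (.bx true) = vB Y h b (.a x2 (.T i)) (okA x2 (.T i)) := by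
    obtain ⟨x3, hx3⟩ := (cBa_iff _ _).mp ((mt_col S.game hg (.B (.a (.T i))) (.bx true)).mpr
      (U.sys (.a x' (.T i)) trivial).col)
    have h1 := (mt_iso S.game hg (.bx true) (.x true)).2.mpr (U.top (.a x' (.T i)) trivial)
    rw [hx3, hg3, adj_BX] at h1
    rw [hx3, vB_inj, h1]
    rfl
  obtain ⟨d1, hq⟩ := S.pre_pt (U.sys (.a x (.T i)) trivial) hg (.bx false) (.q false) (.a x1 (.T i))
    (okA x1 (.T i)) rfl hbx rfl v d rfl
  obtain ⟨d2, hq'⟩ := S.pre_pt (U.sys (.a x' (.T i)) trivial) hg (.bx true) (.q true) (.a x2 (.T i))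
    (okA x2 (.T i)) rfl hbx' rfl w d' rfl
  have hj := S.pre_J hg (.q false) (.y false) (.j false) hq hg2 hxy1 (U.sys _ o1).col (U.low x y i v d hxy) (U.top _ o1)
  have hj' := S.pre_J hg (.q true) (.y true) (.j true) hq' hg4 hxy2 (U.sys _ o2).col (U.low x' y' i w d' hxy')
    (U.top _ o2)
  obtain ⟨z1, hp⟩ := S.pre_pt (U.sys _ o1) hg (.j false) (.p false) _ (okB hxy1 i v d1) rfl hj rfl w z rfl
  obtain ⟨z2, hp'⟩ := S.pre_pt (U.sys _ o2) hg (.j true) (.p true) _ (okB hxy2 i w d2) rfl hj' rfl v z' rfl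
  have h1 := (mt_iso S.game hg (.p false) (.p true)).2.mpr hadj
  rw [hp, hp', adj_PP] at h1
  obtain ⟨h2, h3, -⟩ := h1
  refine ⟨U.xinj ((mt_iso S.game hg (.x true) (.y false)).1.mp (by rw [hg3, hg2, h2])),
    U.xinj ((mt_iso S.game hg (.y true) (.x false)).1.mp (by rw [hg4, hg1, h3]))⟩

end full

end

end Pool.Agent.helper78.HP
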