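import Pool.Agent.helper78.HP.Ident4

/-!
Identification, part 5: the isomorphism.
-/

set_option autoImplicit false
set_option linter.unusedSectionVars false

namespace Pool.Agent.helper78.HP

section

variable {X V E : Type} {m b : ℕ} [DecidableEq E]
variable {Y : LinSys V E} {h : Hid X m} {t : Tst b (Col m V E)}
variable {B : Type} [DecidableEq (VT Y h b × B)] {H : SimpleGraph B}
  {F : Set (Finset (VT Y h b × B))} {ρ : RR b → B} {c : ℕ}
  {h' : Hid X m} {xs : X → B} {base : Sy X m V → B} {ptt : Sy X m V → V → F2 → B}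

lemma Std.base_inj_a (S : Std t H F ρ c) (U : Full Y t H ρ h' xs base ptt) {x x' : X} {τ : Lb m}
    (hb : base (.a x τ) = base (.a x' τ)) : x = x' := by
  apply U.xinj
  refine S.u1 (U.sys (.a x τ) trivial).col (U.xcol _) (U.xcol _) (U.top (.a x τ) trivial) ?_
  rw [hb]
  exact U.top (.a x' τ) trivial

lemma Std.ptt_inj_a (S : Std t H F ρ c) (U : Full Y t H ρ h' xs base ptt) {x x' : X} {τ : Lb m}
    {v : V} {z z' : F2} (hb : ptt (.a x τ) v z = ptt (.a x' τ) v z') : x = x' ∧ z = z' := by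
  have hx : x = x' := by
    apply S.base_inj_a U (τ := τ)
    have h1 := (U.sys (.a x τ) trivial).ptc v z
    have h2 := (U.sys (.a x' τ) trivial).ptc v z'
    rw [← hb] at h2
    exact S.u2 h1.1 (U.sys (.a x τ) trivial).col (U.sys (.a x' τ) trivial).col h1.2 h2.2
  subst hx
  exact ⟨rfl, (U.sys (.a x τ) trivial).inj v hb⟩

lemma Std.base_inj (S : Std t H F ρ c) (U : Full Y t H ρ h' xs base ptt) {σ σ' : Sy X m V}
    (hσ : σ.ok) (hσ' : σ'.ok) (hk : σ'.kol = σ.kol) (hb : base σ = base σ') : σ = σ' := by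
  have htop : σ.top = σ'.top := U.xinj (S.u1 (U.sys σ hσ).col (U.xcol _) (U.xcol _) (U.top σ hσ)
    (by rw [hb]; exact U.top σ' hσ'))
  rcases σ with ⟨x, τ⟩ | ⟨x, y, i, v, d⟩ <;> rcases σ' with ⟨x', τ'⟩ | ⟨x', y', i', v', d'⟩
  · simp only [Sy.kol, Kp.a.injEq] at hk
    simp only [Sy.top] at htop
    rw [hk, htop]
  · simp [Sy.kol] at hk
  · simp [Sy.kol] at hk
  · simp only [Sy.kol, Kp.b.injEq] at hk
    simp only [Sy.top] at htop
    obtain ⟨rfl, rfl⟩ := hk
    subst htop
    have h1 := U.low x y i' v' d hσ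
    have h2 := U.low x' y i' v' d' hσ'
    rw [← hb] at h2
    have h3 := S.u3 (U.sys _ hσ).col ((U.sys (.a x (.T i')) trivial).ptc v' d).1
      ((U.sys (.a x' (.T i')) trivial).ptc v' d').1 h1.symm h2.symm
    obtain ⟨rfl, rfl⟩ := S.ptt_inj_a U h3
    rfl

lemma Std.ptt_inj (S : Std t H F ρ c) (U : Full Y t H ρ h' xs base ptt) {σ σ' : Sy X m V}
    (hσ : σ.ok) (hσ' : σ'.ok) (hk : σ'.kol = σ.kol) {v : V} {z z' : F2}
    (hb : ptt σ v z = ptt σ' v z') : σ = σ' ∧ z = z' := by
  have hx : σ = σ' := by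
    apply S.base_inj U hσ hσ' hk
    have h1 := (U.sys σ hσ).ptc v z
    have h2 := (U.sys σ' hσ').ptc v z'
    have h3 := (U.sys σ' hσ').col
    rw [← hb, hk] at h2
    rw [hk] at h3
    exact S.u2 h1.1 (U.sys σ hσ).col h3 h1.2 h2.2
  subst hx
  exact ⟨rfl, (U.sys σ hσ).inj v hb⟩

lemma Std.rul_iff (S : Std t H F ρ c) (r r' : RR b) :
    (r = r' ↔ ρ r = ρ r') ∧ (rAdj r r' ↔ H.Adj (ρ r) (ρ r')) := by
  obtain ⟨g, hg⟩ := S.pull (fun _ : Unit => ρ r') (by simp)
  have h1 : (.inl r' : VT Y h b) = g () := (mt_iso_r S.game hg r' ()).1.mpr rfl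
  have h2 := mt_iso_r S.game hg r ()
  rw [← h1] at h2
  refine ⟨?_, h2.2⟩
  rw [← h2.1, Sum.inl.injEq]

/-- present vertices for different hidden data -/
lemma card_le (Y : LinSys V E) (h h' : Hid X m) (b : ℕ) [Finite (VT Y h' b)] :
    Nat.card (VT Y h b) ≤ Nat.card (VT Y h' b) := by
  choose k0 hk0 using Y.ne
  let δ : Sy X m V → E → Fin 3 → F2 := fun σ e k =>
    if k = k0 e then (h.hid σ + h'.hid σ) * Y.t0 e else 0
  let sh : Vx X m V E → Vx X m V E := fun w => match w with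
    | .X x => .X x
    | .B σ => .B σ
    | .P σ v c => .P σ v c
    | .G σ e α => .G σ e (fun k => α k + δ σ e k)
    | .S x s v α => .S x s v α
  have hs : ∀ w, ok Y h w → ok Y h' (sh w) := by
    rintro (x | σ | ⟨σ, v, c⟩ | ⟨σ, e, α⟩ | ⟨x, s, v, α⟩) hw
    · exact hw
    · exact hw
    · exact hw
    · refine ⟨hw.1, ?_, ?_⟩
      · intro k hk
        have : k ≠ k0 e := by
          rintro rfl
          obtain ⟨v, hv⟩ := hk0 e
          rw [hv] at hk
          simp at hk
        change α k + (if k = k0 e then _ else 0) = 0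
        rw [hw.2.1 k hk, if_neg this, zero_add]
      · rw [Finset.sum_add_distrib, hw.2.2]
        have : ∑ k, δ σ e k = (h.hid σ + h'.hid σ) * Y.t0 e := by
          simp [δ]
        rw [this]
        generalize h.hid σ = c1
        generalize h'.hid σ = c2
        generalize Y.t0 e = c3
        clear * -
        revert c1 c2 c3
        decide
    · exact hw
  refine Nat.card_le_card_of_injective
    (Sum.map id (fun w => ⟨sh w.1, hs w.1 w.2⟩) : VT Y h b → VT Y h' b) ?_
  apply Function.Injective.sumMap Function.injective_id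
  rintro ⟨w, hw⟩ ⟨w', hw'⟩ hh
  simp only [Subtype.mk.injEq] at hh ⊢
  rcases w with x | σ | ⟨σ, v, d⟩ | ⟨σ, e, α⟩ | ⟨x, s, v, α⟩ <;>
  rcases w' with x' | σ' | ⟨σ', v', d'⟩ | ⟨σ', e', α'⟩ | ⟨x', s', v', α'⟩ <;>
  simp only [sh, reduceCtorEq, Vx.G.injEq] at hh ⊢ <;> try exact hh
  obtain ⟨rfl, rfl, h3⟩ := hh
  refine ⟨rfl, rfl, ?_⟩
  funext k
  exact add_right_cancel (congrFun h3 k)

/-- the other graph is a hidden permutation graph -/
theorem Std.iso [Finite B] [Finite (VT Y h' b)] (S : Std t H F ρ c) (U : Full Y t H ρ h' xs base ptt) :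
    Nonempty (gr Y h' t ≃g H) := by
  classical
  have hne : Nonempty B := ⟨ρ .om⟩
  have hG : ∀ σ e α, ∃ g, ok Y h' (.G σ e α : Vx X m V E) → (cH t H ρ (.G σ.kol e) g ∧
      ∀ k v, Y.inc e k = some v → H.Adj g (ptt σ v (α k))) := by
    intro σ e α
    by_cases hw : ok Y h' (.G σ e α : Vx X m V E)
    · obtain ⟨g, hg⟩ := ((U.sys σ hw.1).gad e α hw.2.1).mpr hw.2.2
      exact ⟨g, fun _ => hg⟩
    · exact ⟨Classical.arbitrary B, fun hh => (hw hh).elim⟩
  have hS : ∀ x s v α, ∃ g, ok Y h' (.S x s v α : Vx X m V E) → (cH t H ρ (.S s v) g ∧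
      ∀ k τ, sl s k = some τ → H.Adj g (ptt (.a x τ) v (α k))) := by
    intro x s v α
    by_cases hw : ok Y h' (.S x s v α : Vx X m V E)
    · obtain ⟨g, hg⟩ := (U.sg x s v α hw.1).mpr hw.2
      exact ⟨g, fun _ => hg⟩
    · exact ⟨Classical.arbitrary B, fun hh => (hw hh).elim⟩
  choose gG hG using hG
  choose gS hS using hS
  let φ : Vx X m V E → B := fun w => match w with
    | .X x => xs x
    | .B σ => base σ
    | .P σ v c => ptt σ v c
    | .G σ e α => gG σ e α
    | .S x s v α => gS x s v α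
  have hφc : ∀ w, ok Y h' w → cH t H ρ w.col (φ w) := by
    rintro (x | σ | ⟨σ, v, c⟩ | ⟨σ, e, α⟩ | ⟨x, s, v, α⟩) hw
    · exact U.xcol x
    · exact (U.sys σ hw).col
    · exact ((U.sys σ hw).ptc v c).1
    · exact (hG σ e α hw).1
    · exact (hS x s v α hw).1
  have hinj : ∀ w w', ok Y h' w → ok Y h' w' → φ w = φ w' → w = w' := by
    intro w w' hw hw' hww
    have hcol : w.col = w'.col := by
      have h1 := hφc w hw
      rw [hww] at h1
      exact cH_unique h1 (hφc w' hw')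
    rcases w with x | σ | ⟨σ, v, d⟩ | ⟨σ, e, α⟩ | ⟨x, s, v, α⟩ <;>
    rcases w' with x' | σ' | ⟨σ', v', d'⟩ | ⟨σ', e', α'⟩ | ⟨x', s', v', α'⟩ <;>
    simp only [Vx.col, reduceCtorEq, Col.B.injEq, Col.P.injEq, Col.G.injEq, Col.S.injEq] at hcol
    · exact congrArg _ (U.xinj hww)
    · exact congrArg _ (S.base_inj U hw hw' hcol.symm hww)
    · obtain ⟨hk, rfl⟩ := hcol
      obtain ⟨rfl, rfl⟩ := S.ptt_inj U hw hw' hk.symm hww
      rfl
    · obtain ⟨hk, rfl⟩ := hcol
      have hww' : gG σ e α = gG σ' e α' := hww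
      have h1 := hG σ e α hw
      have h2 := hG σ' e α' hw'
      rw [← hww', ← hk] at h2
      have key : ∀ k v, Y.inc e k = some v → σ = σ' ∧ α k = α' k := by
        intro k v hkv
        apply S.ptt_inj U hw.1 hw'.1 hk.symm (v := v)
        have h3 := ((U.sys σ' hw'.1).ptc v (α' k)).1
        rw [← hk] at h3
        exact S.u4 hkv h1.1 ((U.sys σ hw.1).ptc v (α k)).1 h3 (h1.2 k v hkv) (h2.2 k v hkv)
      obtain ⟨k0, v0, hk0⟩ := Y.ne e
      obtain rfl := (key k0 v0 hk0).1
      have hα : α = α' := by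
        funext k
        cases hkk : Y.inc e k with
        | none => rw [hw.2.1 k hkk, hw'.2.1 k hkk]
        | some v => exact (key k v hkk).2
      rw [hα]
    · obtain ⟨rfl, rfl⟩ := hcol
      have hww' : gS x s v α = gS x' s v α' := hww
      have h1 := hS x s v α hw
      have h2 := hS x' s v α' hw'
      rw [← hww'] at h2
      have key : ∀ k τ, sl s k = some τ → x = x' ∧ α k = α' k := by
        intro k τ hkv
        apply S.ptt_inj_a U (v := v) (τ := τ)
        exact S.u5 hkv h1.1 ((U.sys (.a x τ) trivial).ptc v (α k)).1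
          ((U.sys (.a x' τ) trivial).ptc v (α' k)).1 (h1.2 k τ hkv) (h2.2 k τ hkv)
      obtain ⟨k0, v0, hk0⟩ := sl_some s
      obtain rfl := (key k0 v0 hk0).1
      have hα : α = α' := by
        funext k
        cases hkk : sl s k with
        | none => rw [hw.1 k hkk, hw'.1 k hkk]
        | some v => exact (key k v hkk).2
      rw [hα]
  have hadj1 : ∀ w w', ok Y h' w → ok Y h' w' → CE Y w.col w'.col →
      (AA Y w w' ↔ H.Adj (φ w) (φ w')) := by
    intro w w' hw hw' hce
    rcases w with x | σ | ⟨σ, v, d⟩ | ⟨σ, e, α⟩ | ⟨x, s, v, α⟩ <;>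
    rcases w' with x' | σ' | ⟨σ', v', d'⟩ | ⟨σ', e', α'⟩ | ⟨x', s', v', α'⟩ <;>
    try exact hce.elim
    case B.X =>
      rw [AA_BX]
      constructor
      · rintro rfl
        exact U.top σ hw
      · intro hh
        exact U.xinj (S.u1 (U.sys σ hw).col (U.xcol _) (U.xcol _) hh (U.top σ hw))
    case B.P =>
      rcases σ with ⟨x, τ⟩ | ⟨x, y, i, u, d⟩
      · exact hce.elim
      · obtain ⟨hk, rfl⟩ := hce
        rw [AA_symm, AA_PB' Y σ' x y i v' d v' d' ⟨_, hk⟩]
        have hσ' := kol_a hk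
        constructor
        · rintro ⟨rfl, -, rfl⟩
          exact (U.low x y i v' d' hw).symm
        · intro hh
          have h1 := S.u3 (U.sys (.b x y i v' d) hw).col ((U.sys (.a x (.T i)) trivial).ptc v' d).1
            (x2 := ptt σ' v' d') (by
              have := ((U.sys σ' hw').ptc v' d').1
              rw [hk] at this
              exact this) (U.low x y i v' d hw).symm hh
          obtain ⟨h2, h3⟩ := S.ptt_inj U (σ := .a x (.T i)) (σ' := σ') trivial hw' hk h1
          exact ⟨h2.symm, rfl, h3.symm⟩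
    case P.B =>
      have hk : σ'.kol = σ.kol := by
        rcases σ with ⟨x, τ⟩ | ⟨x, y, i, u, d⟩ <;> exact hce
      rw [AA_PB Y σ σ' v d hk]
      constructor
      · rintro rfl
        exact ((U.sys _ hw).ptc v d).2
      · intro hh
        have h1 := (U.sys σ hw).ptc v d
        have h2 := (U.sys σ' hw').col
        rw [hk] at h2
        exact (S.base_inj U hw hw' hk (S.u2 h1.1 (U.sys σ hw).col h2 h1.2 hh)).symm
    case P.P =>
      rcases σ with ⟨x, τ⟩ | ⟨x, y, i, u, q⟩ <;> rcases σ' with ⟨x', τ'⟩ | ⟨x', y', i', u', q'⟩ <;>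
        try exact hce.elim
      obtain ⟨rfl, rfl, rfl⟩ := hce
      rw [AA_PP]
      constructor
      · rintro ⟨rfl, rfl, -, -, -, hh⟩
        exact (U.pp _ _ _ _ _ _ _ _ _ hw).mpr hh
      · intro hh
        obtain ⟨rfl, rfl⟩ := S.link U hw hw' hh
        exact ⟨rfl, rfl, rfl, rfl, rfl, (U.pp _ _ _ _ _ _ _ _ _ hw).mp hh⟩
    case G.P =>
      obtain ⟨hk, k, hkv⟩ := hce
      rw [AA_GP]
      have h1 := hG σ e α hw
      constructor
      · rintro ⟨rfl, k', hk', rfl⟩
        exact h1.2 k' v' hk'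
      · intro hh
        have h3 := ((U.sys σ' hw').ptc v' d').1
        rw [hk] at h3
        have h2 := S.u4 hkv h1.1 ((U.sys σ hw.1).ptc v' (α k)).1 h3 (h1.2 k v' hkv) hh
        obtain ⟨h4, h5⟩ := S.ptt_inj U hw.1 hw' hk h2
        exact ⟨h4.symm, k, hkv, h5⟩
    case S.P =>
      obtain ⟨rfl, k, τ, hkv, hk⟩ := hce
      rw [AA_SP]
      have h1 := hS x s v' α hw
      constructor
      · rintro ⟨-, k', τ', hk', rfl, rfl⟩
        exact h1.2 k' τ' hk'
      · intro hh
        have h3 := ((U.sys σ' hw').ptc v' d').1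
        rw [hk] at h3
        have h2 := S.u5 hkv h1.1 ((U.sys (.a x τ) trivial).ptc v' (α k)).1 h3 (h1.2 k τ hkv) hh
        obtain ⟨h4, h5⟩ := S.ptt_inj U (σ := .a x τ) (σ' := σ') trivial hw' hk h2
        exact ⟨rfl, k, τ, hkv, h4.symm, h5⟩
  have hadj : ∀ w w', ok Y h' w → ok Y h' w' → (AA Y w w' ↔ H.Adj (φ w) (φ w')) := by
    intro w w' hw hw'
    by_cases h1 : CE Y w.col w'.col
    · exact hadj1 w w' hw hw' h1
    by_cases h2 : CE Y w'.col w.col
    · rw [AA_symm, H.adj_comm]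
      exact hadj1 w' w hw' hw h2
    constructor
    · rintro (hh | hh)
      · exact (h1 (E1_CE hh)).elim
      · exact (h2 (E1_CE hh)).elim
    · intro hh
      rcases S.adj_CE (hφc w hw) (hφc w' hw') hh with h3 | h3
      · exact (h1 h3).elim
      · exact (h2 h3).elim
  let Φ : VT Y h' b → B := Sum.elim ρ (fun w => φ w.1)
  have hΦi : Function.Injective Φ := by
    rintro (r | ⟨w, hw⟩) (r' | ⟨w', hw'⟩) hh
    · exact congrArg _ ((S.rul_iff r r').1.mpr hh)
    · exact ((hφc w' hw').1 r hh.symm).elim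
    · exact ((hφc w hw).1 r' hh).elim
    · have := hinj w w' hw hw' hh
      subst this
      rfl
  have hΦa : ∀ u u', (gr Y h' t).Adj u u' ↔ H.Adj (Φ u) (Φ u') := by
    have hrw : ∀ (r : RR b) w, ok Y h' w → (rA t r w.col ↔ H.Adj (ρ r) (φ w)) := by
      intro r w hw
      obtain ⟨g, hg⟩ := S.pull (fun _ : Unit => φ w) (by simp)
      have h1 := (mt_iso_r S.game hg r ()).2
      obtain ⟨w1, hg1, hcol⟩ := (mt_col S.game hg w.col ()).mpr (hφc w hw)
      rw [hg1] at h1
      rw [← h1]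
      change _ ↔ rA t r w1.1.col
      rw [hcol]
    rintro (r | ⟨w, hw⟩) (r' | ⟨w', hw'⟩)
    · exact (S.rul_iff r r').2
    · exact hrw r w' hw'
    · rw [H.adj_comm]
      exact hrw r' w hw
    · exact hadj w w' hw hw'
  obtain ⟨f, -⟩ := mt_one S.game S.rul (by have := S.big; simp; omega)
  have hcard : Nat.card B ≤ Nat.card (VT Y h' b) := by
    rw [← Nat.card_congr f]
    exact card_le Y h h' b
  exact ⟨⟨Equiv.ofBijective Φ (hΦi.bijective_of_nat_card_le hcard), by
    intro u u'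
    exact (hΦa u u').symm⟩⟩

end

end Pool.Agent.helper78.HP
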