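import Pool.Agent.helper78.HP.Ident5

/-!
Hidden permutations of a set of the right size are unique up to relabelling; the identification
theorem.
-/

set_option autoImplicit false
set_option linter.unusedSectionVars false

namespace Pool.Agent.helper78.HP

section

variable {X V E : Type} {m b : ℕ}

lemma Hid.U_zero (h : Hid X m) (x : X) : h.hd x (.U 0) = 0 := by
  have := h.sum x .fst
  simpa [Fin.sum_univ_three, sl, eps] using this

lemma Hid.U_last (h : Hid X m) (x : X) : h.hd x (.U (Fin.last m)) = 1 := by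
  have := h.sum x .lst
  simpa [Fin.sum_univ_three, sl, eps] using this

lemma Hid.U_succ (h : Hid X m) (x : X) (i : Fin m) :
    h.hd x (.U i.succ) = h.hd x (.U i.castSucc) + h.hd x (.T i) := by
  have := h.sum x (.ch i)
  simp only [Fin.sum_univ_three, sl, eps] at this
  change h.hd x (.U i.castSucc) + h.hd x (.T i) + h.hd x (.U i.succ) = 0 at this
  revert this
  generalize h.hd x (.U i.castSucc) = c1
  generalize h.hd x (.T i) = c2
  generalize h.hd x (.U i.succ) = c3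
  clear * -
  revert c1 c2 c3
  decide

lemma Hid.ex (h : Hid X m) (x : X) : ∃ i, h.hd x (.T i) = 1 := by
  by_contra hc
  push Not at hc
  have h0 : ∀ i, h.hd x (.T i) = 0 := fun i => (F2_cases _).resolve_right (hc i)
  have h1 : ∀ j : Fin (m + 1), h.hd x (.U j) = 0 := by
    intro j
    induction j using Fin.induction with
    | zero => exact h.U_zero x
    | succ i ih => rw [h.U_succ, ih, h0, add_zero]
  have := h1 (Fin.last m)
  rw [h.U_last] at this
  exact absurd this (by decide)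

lemma Hid.perm [Fintype X] (h : Hid X m) (hX : Fintype.card X = m) :
    ∃ ι : X ≃ Fin m, ∀ x i, h.hd x (.T i) = if i = ι x then 1 else 0 := by
  classical
  choose ι hι using h.ex
  have hinj : Function.Injective ι := by
    intro x y hxy
    by_contra hne
    have := h.prod x y (ι x) hne
    rw [hι x, hxy, hι y] at this
    exact absurd this (by decide)
  have hbij : Function.Bijective ι := by
    rw [Fintype.bijective_iff_injective_and_card]
    exact ⟨hinj, by simp [hX]⟩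
  refine ⟨Equiv.ofBijective ι hbij, ?_⟩
  intro x i
  split_ifs with hi
  · subst hi
    exact hι x
  · obtain ⟨y, rfl⟩ := hbij.2 i
    have hne : x ≠ y := by
      rintro rfl
      exact hi rfl
    have := h.prod x y (ι y) hne
    rw [hι y, mul_one] at this
    exact this

lemma Hid.ext_T {X' : Type} (h : Hid X m) (h' : Hid X' m) (x : X) (x' : X')
    (hT : ∀ i, h.hd x (.T i) = h'.hd x' (.T i)) : ∀ τ, h.hd x τ = h'.hd x' τ := by
  rintro (i | j)
  · exact hT i
  · induction j using Fin.induction with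
    | zero => rw [h.U_zero, h'.U_zero]
    | succ i ih => rw [h.U_succ, h'.U_succ, ih, hT]

def Sy.map (π : X → X) : Sy X m V → Sy X m V
  | .a x τ => .a (π x) τ
  | .b x y i v c => .b (π x) (π y) i v c

def Vx.map (π : X → X) : Vx X m V E → Vx X m V E
  | .X x => .X (π x)
  | .B σ => .B (σ.map π)
  | .P σ v c => .P (σ.map π) v c
  | .G σ e α => .G (σ.map π) e α
  | .S x s v α => .S (π x) s v α

lemma Sy.map_inv (π : X ≃ X) (σ : Sy X m V) : (σ.map π).map π.symm = σ := by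
  cases σ <;> simp [Sy.map]

lemma Sy.map_inv' (π : X ≃ X) (σ : Sy X m V) : (σ.map π.symm).map π = σ := by
  cases σ <;> simp [Sy.map]

lemma Vx.map_inv (π : X ≃ X) (w : Vx X m V E) : (w.map π).map π.symm = w := by
  cases w <;> simp [Vx.map, Sy.map_inv]

lemma Vx.map_inv' (π : X ≃ X) (w : Vx X m V E) : (w.map π.symm).map π = w := by
  cases w <;> simp [Vx.map, Sy.map_inv']

lemma Sy.map_inj (π : X ≃ X) {σ σ' : Sy X m V} : σ.map π = σ'.map π ↔ σ = σ' := by
  constructor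
  · intro h
    rw [← σ.map_inv π, h, Sy.map_inv]
  · rintro rfl
    rfl

lemma Sy.map_a (π : X ≃ X) (σ : Sy X m V) (x : X) (τ : Lb m) :
    σ.map π = .a (π x) τ ↔ σ = .a x τ := by
  rw [← Sy.map_inj π (σ' := .a x τ)]
  rfl

lemma Vx.map_col (π : X → X) (w : Vx X m V E) : (w.map π).col = w.col := by
  rcases w with x | (σ | σ) | ⟨σ | σ, v, g⟩ | ⟨σ | σ, e, α⟩ | ⟨x, s, v, α⟩ <;> rfl

variable [DecidableEq E]

lemma E1_map (Y : LinSys V E) (π : X ≃ X) (w w' : Vx X m V E) :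
    E1 Y (w.map π) (w'.map π) ↔ E1 Y w w' := by
  rcases w with x | (⟨x, τ⟩ | ⟨x, y, i, u, d⟩) | ⟨⟨x, τ⟩ | ⟨x, y, i, u, d⟩, v, g⟩ |
    ⟨⟨x, τ⟩ | ⟨x, y, i, u, d⟩, e, α⟩ | ⟨x, s, v, α⟩ <;>
  rcases w' with x' | (⟨x', τ'⟩ | ⟨x', y', i', u', d'⟩) |
    ⟨⟨x', τ'⟩ | ⟨x', y', i', u', d'⟩, v', g'⟩ |
    ⟨⟨x', τ'⟩ | ⟨x', y', i', u', d'⟩, e', α'⟩ | ⟨x', s', v', α'⟩ <;>
  simp [Vx.map, Sy.map, E1]

lemma ok_map (Y : LinSys V E) (h h' : Hid X m) (π : X ≃ X) (hπ : ∀ x τ, h'.hd (π x) τ = h.hd x τ)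
    (w : Vx X m V E) : ok Y h' (w.map π) ↔ ok Y h w := by
  rcases w with x | (⟨x, τ⟩ | ⟨x, y, i, u, d⟩) | ⟨⟨x, τ⟩ | ⟨x, y, i, u, d⟩, v, g⟩ |
    ⟨⟨x, τ⟩ | ⟨x, y, i, u, d⟩, e, α⟩ | ⟨x, s, v, α⟩ <;>
  simp [Vx.map, Sy.map, ok, Sy.ok, Hid.hid, hπ]

theorem Hid.iso [Fintype X] {Y : LinSys V E} {t : Tst b (Col m V E)} (h h' : Hid X m)
    (hX : Fintype.card X = m) : Nonempty (gr Y h t ≃g gr Y h' t) := by
  obtain ⟨ι, hι⟩ := h.perm hX
  obtain ⟨ι', hι'⟩ := h'.perm hX
  let π : X ≃ X := ι.trans ι'.symm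
  have hπ : ∀ x τ, h'.hd (π x) τ = h.hd x τ := by
    intro x
    apply Hid.ext_T
    intro i
    rw [hι, hι']
    simp [π]
  let φ : {w : Vx X m V E // ok Y h w} ≃ {w : Vx X m V E // ok Y h' w} :=
    { toFun := fun w => ⟨w.1.map π, (ok_map Y h h' π hπ w.1).mpr w.2⟩
      invFun := fun w => ⟨w.1.map π.symm, by
        rw [← ok_map Y h h' π hπ, Vx.map_inv']
        exact w.2⟩
      left_inv := fun w => Subtype.ext (Vx.map_inv π w.1)
      right_inv := fun w => Subtype.ext (Vx.map_inv' π w.1) }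
  refine ⟨⟨Equiv.sumCongr (Equiv.refl _) φ, ?_⟩⟩
  rintro (r | w) (r' | w')
  · exact Iff.rfl
  · change rA t r (w'.1.map π).col ↔ rA t r w'.1.col
    rw [Vx.map_col]
  · change rA t r' (w.1.map π).col ↔ rA t r' w.1.col
    rw [Vx.map_col]
  · change (E1 Y (w.1.map π) (w'.1.map π) ∨ E1 Y (w'.1.map π) (w.1.map π)) ↔
      (E1 Y w.1 w'.1 ∨ E1 Y w'.1 w.1)
    rw [E1_map, E1_map]

/-- the identification theorem -/
theorem identify [Fintype X] [Fintype V] [Fintype E] {Y : LinSys V E} (hY : Y.Nice)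
    {h : Hid X m} {t : Tst b (Col m V E)} (hX : Fintype.card X = m) {B : Type} [Finite B]
    [DecidableEq (VT Y h b × B)] (H : SimpleGraph B) (F : Set (Finset (VT Y h b × B)))
    (hF : CGame (gr Y h t) H (b + 1 + 50) F) : Nonempty (gr Y h t ≃g H) := by
  classical
  have hB : Nonempty B := by
    obtain ⟨f, -⟩ := hF.ext _ hF.empty (by simp)
    exact ⟨f (.inl .om)⟩
  obtain ⟨ρ, hρ⟩ := exists_ruler hF
  have S : Std t H F ρ 50 := ⟨hF, hρ, le_refl _⟩
  obtain ⟨h', xs, base, ptt, U⟩ := S.exists_full hY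
  obtain ⟨φ⟩ := S.iso U
  obtain ⟨ψ⟩ := Hid.iso (Y := Y) (t := t) h h' hX
  exact ⟨ψ.trans φ⟩

end

end Pool.Agent.helper78.HP
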