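import Pool.Agent.helper78.HP.Hide

/-!
The concrete linear system: points and lines of a projective plane of odd order, lines encoded
by chains.
-/

set_option autoImplicit false
set_option linter.unusedSectionVars false

namespace Pool.Agent.helper78.HP

/-- good algebraic properties of a linear system -/
structure LinSys.Nice {V E : Type} [Fintype E] (Y : LinSys V E) : Prop where
  par : ∀ κ : V → F2, ∑ e, Y.D κ e = 0
  sur : ∀ t : E → F2, ∑ e, t e = 0 → ∃ κ : V → F2, ∀ e, Y.D κ e = t e
  inj : ∀ κ : V → F2, (∀ e, Y.D κ e = 0) → ∀ v, κ v = 0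

/-- incidence data of a projective plane of odd order `q` -/
structure PD (P L : Type) [Fintype P] [Fintype L] [DecidableEq P] [DecidableEq L] (q : ℕ) where
  pt : L → Fin (q + 1) → P
  inj : ∀ l, Function.Injective (pt l)
  meet : ∀ l l', l ≠ l' → ∀ i j i' j', pt l i = pt l' j → pt l i' = pt l' j' → i = i'
  J1 : ∀ p r, ∑ l, (∑ i, if pt l i = p then (1 : F2) else 0) * (∑ i, if pt l i = r then (1 : F2) else 0)
    = if p = r then 0 else 1
  J2 : ∀ l l', ∑ p, (∑ i, if pt l i = p then (1 : F2) else 0) *
    (∑ i, if pt l' i = p then (1 : F2) else 0) = if l = l' then 0 else 1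

namespace PD

variable {P L : Type} [Fintype P] [Fintype L] [DecidableEq P] [DecidableEq L] {q : ℕ}
variable (A : PD P L q) (P0 : P) (l0 : L)

abbrev VV (P L : Type) (P0 : P) (q : ℕ) : Type := {p : P // p ≠ P0} ⊕ (L × Fin q)
abbrev EE (L : Type) (q : ℕ) : Type := L × Fin (q + 1)

def sl0 (e : EE L q) : Option (VV P L P0 q) :=
  if h : A.pt e.1 e.2 ≠ P0 then some (.inl ⟨A.pt e.1 e.2, h⟩) else none

def sl1 (P : Type) (P0 : P) (e : EE L q) : Option (VV P L P0 q) :=
  if h : 0 < e.2.val then some (.inr (e.1, ⟨e.2.val - 1, by have := e.2.2; omega⟩)) else none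

def sl2 (P : Type) (P0 : P) (e : EE L q) : Option (VV P L P0 q) :=
  if h : e.2.val < q then some (.inr (e.1, ⟨e.2.val, h⟩)) else none

def incv (e : EE L q) : Fin 3 → Option (VV P L P0 q) :=
  ![sl0 A P0 e, sl1 P P0 e, sl2 P P0 e]

lemma incv0 (e : EE L q) : incv A P0 e 0 = sl0 A P0 e := rfl
lemma incv1 (e : EE L q) : incv A P0 e 1 = sl1 P P0 e := rfl
lemma incv2 (e : EE L q) : incv A P0 e 2 = sl2 P P0 e := rfl

lemma sl1_some {e : EE L q} {v : VV P L P0 q} (h : sl1 P P0 e = some v) :
    ∃ j : Fin q, v = .inr (e.1, j) ∧ e.2.val = j.val + 1 := by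
  unfold sl1 at h
  split_ifs at h with h1
  simp only [Option.some.injEq] at h
  refine ⟨_, h.symm, ?_⟩
  simp only
  omega

lemma sl2_some {e : EE L q} {v : VV P L P0 q} (h : sl2 P P0 e = some v) :
    ∃ j : Fin q, v = .inr (e.1, j) ∧ e.2.val = j.val := by
  unfold sl2 at h
  split_ifs at h with h1
  simp only [Option.some.injEq] at h
  exact ⟨_, h.symm, rfl⟩

lemma sl0_some {e : EE L q} {v : VV P L P0 q} (h : sl0 A P0 e = some v) :
    ∃ p, v = .inl p ∧ A.pt e.1 e.2 = p.1 := by
  unfold sl0 at h
  split_ifs at h with h1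
  simp only [Option.some.injEq] at h
  exact ⟨_, h.symm, rfl⟩

lemma incv_inj (e : EE L q) (k k' : Fin 3) (v : VV P L P0 q)
    (h : incv A P0 e k = some v) (h' : incv A P0 e k' = some v) : k = k' := by
  have c01 : sl0 A P0 e = some v → sl1 P P0 e = some v → False := by
    intro a b
    obtain ⟨p, hp, -⟩ := sl0_some A P0 a
    obtain ⟨j, hj, -⟩ := sl1_some P0 b
    rw [hp] at hj
    exact Sum.inl_ne_inr hj
  have c02 : sl0 A P0 e = some v → sl2 P P0 e = some v → False := by
    intro a b
    obtain ⟨p, hp, -⟩ := sl0_some A P0 a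
    obtain ⟨j, hj, -⟩ := sl2_some P0 b
    rw [hp] at hj
    exact Sum.inl_ne_inr hj
  have c12 : sl1 P P0 e = some v → sl2 P P0 e = some v → False := by
    intro a b
    obtain ⟨i, hi, hi'⟩ := sl1_some P0 a
    obtain ⟨j, hj, hj'⟩ := sl2_some P0 b
    rw [hi] at hj
    simp only [Sum.inr.injEq, Prod.mk.injEq, true_and] at hj
    subst hj
    omega
  fin_cases k <;> fin_cases k' <;>
    simp only [Fin.zero_eta, Fin.mk_one, Fin.reduceFinMk, incv0, incv1, incv2] at h h' <;>
    first
    | rfl
    | exact (c01 h h').elim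
    | exact (c01 h' h).elim
    | exact (c02 h h').elim
    | exact (c02 h' h).elim
    | exact (c12 h h').elim
    | exact (c12 h' h).elim

/-- the linear system -/
def sys (hq : 0 < q) : LinSys (VV P L P0 q) (EE L q) where
  inc := incv A P0
  inj := incv_inj A P0
  ne := by
    rintro ⟨l, i⟩
    by_cases h : 0 < i.val
    · exact ⟨1, _, by rw [incv1, sl1, dif_pos h]⟩
    · exact ⟨2, _, by rw [incv2, sl2, dif_pos (show i.val < q by omega)]⟩
  e0 := (l0, 0)

/-- point values, zero at the removed point -/
def pv (κ : VV P L P0 q → F2) (p : P) : F2 := if h : p ≠ P0 then κ (.inl ⟨p, h⟩) else 0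

/-- chain values with zero boundary -/
def uv (κ : VV P L P0 q → F2) (l : L) (j : ℕ) : F2 :=
  if h : 0 < j ∧ j ≤ q then κ (.inr (l, ⟨j - 1, by omega⟩)) else 0

variable (hq : 0 < q)

lemma D_eq (κ : VV P L P0 q → F2) (l : L) (i : Fin (q + 1)) :
    (sys A P0 l0 hq).D κ (l, i) = pv P0 κ (A.pt l i) + uv P0 κ l i.val + uv P0 κ l (i.val + 1) := by
  unfold LinSys.D
  rw [Fin.sum_univ_three]
  congr 1
  congr 1
  · change ev κ (sl0 A P0 (l, i)) = _
    unfold sl0 pv
    split_ifs <;> rfl
  · change ev κ (sl1 P P0 (l, i)) = _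
    unfold sl1 uv
    by_cases h : 0 < i.val
    · have h2 : 0 < i.val ∧ i.val ≤ q := ⟨h, by have := i.2; omega⟩
      rw [dif_pos h, dif_pos h2]
      rfl
    · rw [dif_neg h, dif_neg (fun h2 => h h2.1)]
      rfl
  · change ev κ (sl2 P P0 (l, i)) = _
    unfold sl2 uv
    by_cases h : i.val < q
    · have h2 : 0 < i.val + 1 ∧ i.val + 1 ≤ q := ⟨by omega, by omega⟩
      rw [dif_pos h, dif_pos h2]
      rfl
    · rw [dif_neg h, dif_neg (fun h2 => h (by omega))]
      rfl

lemma tele (f : ℕ → F2) (n : ℕ) : ∑ i : Fin n, (f i.val + f (i.val + 1)) = f 0 + f n := by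
  rw [Fin.sum_univ_eq_sum_range (fun i => f i + f (i + 1)) n]
  induction n with
  | zero => simp [F2_add_self]
  | succ n ih =>
    rw [Finset.sum_range_succ, ih]
    generalize f 0 = a
    generalize f n = b
    generalize f (n + 1) = c
    revert a b c
    decide

lemma sum_D_line (κ : VV P L P0 q → F2) (l : L) :
    ∑ i, (sys A P0 l0 hq).D κ (l, i) = ∑ i, pv P0 κ (A.pt l i) := by
  have h1 : ∀ i, (sys A P0 l0 hq).D κ (l, i) =
      pv P0 κ (A.pt l i) + (uv P0 κ l i.val + uv P0 κ l (i.val + 1)) := by
    intro i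
    rw [D_eq, add_assoc]
  rw [Finset.sum_congr rfl fun i _ => h1 i, Finset.sum_add_distrib,
    tele (fun j => uv P0 κ l j) (q + 1)]
  have h2 : uv P0 κ l 0 = 0 := by
    unfold uv
    rw [dif_neg (by omega)]
  have h3 : uv P0 κ l (q + 1) = 0 := by
    unfold uv
    rw [dif_neg (by omega)]
  rw [h2, h3]
  simp

/-- incidence as an element of F2 -/
def I (p : P) (l : L) : F2 := ∑ i, if A.pt l i = p then (1 : F2) else 0

lemma sum_line (f : P → F2) (l : L) : ∑ i, f (A.pt l i) = ∑ p, A.I p l * f p := by
  unfold I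
  have : ∀ p, (∑ i, if A.pt l i = p then (1 : F2) else 0) * f p =
      ∑ i, if A.pt l i = p then f p else 0 := by
    intro p
    rw [Finset.sum_mul]
    apply Finset.sum_congr rfl
    intro i _
    split_ifs <;> simp
  rw [Finset.sum_congr rfl fun p _ => this p, Finset.sum_comm]
  apply Finset.sum_congr rfl
  intro i _
  simp

lemma I_sq (p : P) (l : L) : A.I p l * A.I p l = A.I p l := by
  generalize A.I p l = a
  revert a
  decide

lemma sum_I_l (p : P) : ∑ l, A.I p l = 0 := by
  have := A.J1 p p
  rw [if_pos rfl] at this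
  rw [← this]
  apply Finset.sum_congr rfl
  intro l _
  exact (A.I_sq p l).symm

lemma sum_I_p (l : L) : ∑ p, A.I p l = 0 := by
  have := A.J2 l l
  rw [if_pos rfl] at this
  rw [← this]
  apply Finset.sum_congr rfl
  intro p _
  exact (A.I_sq p l).symm

lemma dbl (f : P → F2) (p : P) : ∑ l, A.I p l * ∑ r, A.I r l * f r = f p + ∑ r, f r := by
  have h1 : ∀ l, A.I p l * ∑ r, A.I r l * f r = ∑ r, (A.I p l * A.I r l) * f r := by
    intro l
    rw [Finset.mul_sum]
    apply Finset.sum_congr rfl
    intro r _
    ring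
  rw [Finset.sum_congr rfl fun l _ => h1 l, Finset.sum_comm]
  have h2 : ∀ r, ∑ l, (A.I p l * A.I r l) * f r = (if p = r then 0 else 1) * f r := by
    intro r
    rw [← Finset.sum_mul]
    congr 1
    exact A.J1 p r
  rw [Finset.sum_congr rfl fun r _ => h2 r]
  have h3 : ∀ r, (if p = r then (0 : F2) else 1) * f r = f r + if p = r then f r else 0 := by
    intro r
    split_ifs
    · simp [F2_add_self]
    · simp
  rw [Finset.sum_congr rfl fun r _ => h3 r, Finset.sum_add_distrib, add_comm]
  simp

lemma dbl' (f : L → F2) (l : L) : ∑ p, A.I p l * ∑ l', A.I p l' * f l' = f l + ∑ l', f l' := by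
  have h1 : ∀ p, A.I p l * ∑ l', A.I p l' * f l' = ∑ l', (A.I p l * A.I p l') * f l' := by
    intro p
    rw [Finset.mul_sum]
    apply Finset.sum_congr rfl
    intro r _
    ring
  rw [Finset.sum_congr rfl fun l _ => h1 l, Finset.sum_comm]
  have h2 : ∀ l', ∑ p, (A.I p l * A.I p l') * f l' = (if l = l' then 0 else 1) * f l' := by
    intro r
    rw [← Finset.sum_mul]
    congr 1
    exact A.J2 l r
  rw [Finset.sum_congr rfl fun r _ => h2 r]
  have h3 : ∀ r, (if l = r then (0 : F2) else 1) * f r = f r + if l = r then f r else 0 := by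
    intro r
    split_ifs
    · simp [F2_add_self]
    · simp
  rw [Finset.sum_congr rfl fun r _ => h3 r, Finset.sum_add_distrib, add_comm]
  simp

lemma pv_P0 (κ : VV P L P0 q → F2) : pv P0 κ P0 = 0 := by
  unfold pv
  rw [dif_neg (by simp)]

theorem nice : (sys A P0 l0 hq).Nice := by
  constructor
  · intro κ
    rw [Fintype.sum_prod_type]
    rw [Finset.sum_congr rfl fun l _ => sum_D_line A P0 l0 hq κ l]
    rw [Finset.sum_congr rfl fun l _ => A.sum_line (pv P0 κ) l, Finset.sum_comm]
    apply Finset.sum_eq_zero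
    intro p _
    rw [← Finset.sum_mul, A.sum_I_l, zero_mul]
  · intro t ht
    -- line sums
    set T : L → F2 := fun l => ∑ i, t (l, i) with hT
    have hTs : ∑ l, T l = 0 := by
      rw [← ht, Fintype.sum_prod_type]
    set f : P → F2 := fun p => (∑ l, A.I p l * T l) + (∑ l, A.I P0 l * T l) with hf
    have hf0 : f P0 = 0 := by simp [hf, F2_add_self]
    have hfl : ∀ l, ∑ i, f (A.pt l i) = T l := by
      intro l
      rw [A.sum_line f l]
      simp only [hf, mul_add, Finset.sum_add_distrib]
      rw [A.dbl' T l, hTs, ← Finset.sum_mul, A.sum_I_p]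
      simp
    -- chain values
    set u : L → ℕ → F2 := fun l j => ∑ i ∈ Finset.univ.filter (fun i : Fin (q + 1) => i.val < j),
      (t (l, i) + f (A.pt l i)) with hu
    refine ⟨Sum.elim (fun p => f p.1) (fun c => u c.1 (c.2.val + 1)), ?_⟩
    rintro ⟨l, i⟩
    rw [D_eq]
    have e1 : ∀ p, pv P0 (Sum.elim (fun p => f p.1) (fun c : L × Fin q => u c.1 (c.2.val + 1))) p = f p := by
      intro p
      unfold pv
      split_ifs with h
      · rfl
      · push Not at h
        rw [h, hf0]
    have e2 : ∀ j, j ≤ q + 1 → uv P0 (Sum.elim (fun p => f p.1) (fun c : L × Fin q => u c.1 (c.2.val + 1))) l j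
        = u l j := by
      intro j hj
      unfold uv
      split_ifs with h
      · simp only [Sum.elim_inr]
        congr 1
        omega
      · by_cases h0 : j = 0
        · subst h0
          simp [hu]
        · have hj' : j = q + 1 := by omega
          subst hj'
          have : (Finset.univ.filter (fun i : Fin (q + 1) => i.val < q + 1)) = Finset.univ := by
            ext i
            have := i.2
            simp only [Finset.mem_filter, Finset.mem_univ, true_and, iff_true]
            omega
          simp only [hu, this]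
          rw [Finset.sum_add_distrib, hfl]
          exact (F2_add_self _).symm
    rw [e1, e2 _ (by have := i.2; omega), e2 _ (by have := i.2; omega)]
    have e3 : u l (i.val + 1) = (t (l, i) + f (A.pt l i)) + u l i.val := by
      simp only [hu]
      have : (Finset.univ.filter (fun j : Fin (q + 1) => j.val < i.val + 1)) =
          insert i (Finset.univ.filter (fun j : Fin (q + 1) => j.val < i.val)) := by
        ext j
        simp only [Finset.mem_filter, Finset.mem_univ, true_and, Finset.mem_insert, Fin.ext_iff]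
        omega
      rw [this, Finset.sum_insert (by simp)]
    rw [e3]
    generalize f (A.pt l i) = a
    generalize u l i.val = b
    generalize t (l, i) = c
    revert a b c
    decide
  · intro κ hκ
    have h1 : ∀ l, ∑ r, A.I r l * pv P0 κ r = 0 := by
      intro l
      rw [← A.sum_line, ← sum_D_line A P0 l0 hq]
      exact Finset.sum_eq_zero fun i _ => hκ (l, i)
    have h2 : ∀ p, pv P0 κ p = ∑ r, pv P0 κ r := by
      intro p
      have := A.dbl (pv P0 κ) p
      rw [Finset.sum_congr rfl fun l _ => by rw [h1 l]] at this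
      simp only [mul_zero, Finset.sum_const_zero] at this
      generalize pv P0 κ p = a at *
      generalize ∑ r, pv P0 κ r = b at *
      revert a b
      decide
    have h3 : ∀ p, pv P0 κ p = 0 := by
      intro p
      rw [h2 p, ← h2 P0, pv_P0]
    have h4 : ∀ l (j : ℕ), j ≤ q + 1 → uv P0 κ l j = 0 := by
      intro l j
      induction j with
      | zero =>
        intro _
        unfold uv
        rw [dif_neg (by omega)]
      | succ j ih =>
        intro hj
        have := hκ (l, ⟨j, by omega⟩)
        rw [D_eq, h3, ih (by omega)] at this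
        simpa using this
    rintro (p | ⟨l, j⟩)
    · have := h3 p.1
      unfold pv at this
      rw [dif_pos p.2] at this
      exact this
    · have := h4 l (j.val + 1) (by have := j.2; omega)
      unfold uv at this
      rw [dif_pos (by have := j.2; omega)] at this
      exact this

end PD

end Pool.Agent.helper78.HP
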